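import Pool.Agent.BKU.Defs

/-!
# Campaign UBG (MP_303581_co): the general upper bound for the upper half of the residues. Definitions

Groups `D_j` (`j < δ`, the graph `BKU.st k h`), and `t` pairs `(B_i, C_i)` (the graph `BKU.pr k N`, `N` a large constant). The `h` leaves of
`D_j` have `h` targets `(i, x)`: `x = true` is `B_i`, `x = false` is `C_i`; different groups `D_j` may share targets, and `B_i` and `C_i` may both be
targets. `μ = BKU.mu k h = 2 h / (k - 2)`.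
-/

set_option autoImplicit false

open Finset

namespace Pool.Agent.TwoDens

/-- the condition for the existence of a target system with `δ` groups, `t` pairs and `h` targets for each group -/
def HOK (δ t h : ℕ) : Prop :=
  (δ = 1 ∧ h ≤ t) ∨ (δ = 2 ∧ 2 * h ≤ t + 1) ∨
  (3 ≤ δ ∧ 4 ≤ h ∧ (h - 2) * δ + 3 ≤ t) ∨
  (3 ≤ δ ∧ h = 3 ∧ 4 * δ + 3 ≤ 3 * t ∧ δ + 3 ≤ t ∧ ¬ (6 ≤ δ ∧ 3 ∣ δ ∧ 3 * t = 4 * δ + 3)) ∨
  (3 ≤ δ ∧ h = 2 ∧ 2 * δ + 3 ≤ 3 * t)

end Pool.Agent.TwoDens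

namespace Pool.Agent.UBG

open Pool.Agent.BKU

/-- target systems: the target number `l` of `D_j` is `B_i` or `C_i`, `i = tp j l` (`true` is `B`); the targets of `D_j` are in different pairs -/
structure TSys (δ t h : ℕ) where
  tp : Fin δ → Fin h → Fin t
  ts : Fin δ → Fin h → Bool
  inj : ∀ j l l', tp j l = tp j l' → l = l'

/-- `0`; `2 (a + b) - 2` if exactly one of them is `0`; `2 (a + b) - 3` -/
def rk (a b : ℕ) : ℤ := if a = 0 ∧ b = 0 then 0 else if a = 0 ∨ b = 0 then 2 * ((a : ℤ) + b) - 2 else 2 * ((a : ℤ) + b) - 3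

/-- the weight of a pair which meets `F`, with `f`, `g` flags on its two sides -/
def ww (f g : ℕ) : ℤ := if f = 0 ∧ g = 0 then 1 else if f = 0 ∨ g = 0 then 2 - ((f : ℤ) + g) else 3 - ((f : ℤ) + g)

namespace TSys

variable {δ t h : ℕ} (T : TSys δ t h)

/-- `(i, x)` is a target of `D_j` -/
def hit (j : Fin δ) (i : Fin t) (x : Bool) : Prop := ∃ l, T.tp j l = i ∧ T.ts j l = x

/-- `D_j` and `D_j'` have a common target -/
def sh (j j' : Fin δ) : Prop := ∃ i x, T.hit j i x ∧ T.hit j' i x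

open Classical in
/-- the number of the `j ∈ Δ` with the target `(i, x)` -/
noncomputable def u (Δ : Finset (Fin δ)) (i : Fin t) (x : Bool) : ℕ := (Δ.filter fun j => T.hit j i x).card

/-- the condition on target systems -/
def Good : Prop := ∀ Δ : Finset (Fin δ), Δ.Nonempty →
  ∑ i, rk (T.u Δ i true) (T.u Δ i false) ≤ 2 * (Δ.card : ℤ) - 2 ∧
  ((∃ i, 1 ≤ T.u Δ i true ∧ 1 ≤ T.u Δ i false) →
    ∑ i, rk (T.u Δ i true) (T.u Δ i false) ≤ 2 * (Δ.card : ℤ) - 3)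

open Classical in
/-- the bound for the flags: every `D_j` with the target `(i, x)` counts `min (a j) 2` -/
noncomputable def ff (a : Fin δ → ℕ) (i : Fin t) (x : Bool) : ℕ := ∑ j, if T.hit j i x then min (a j) 2 else 0

/-- the first order part of the excess, `a j` vertices in `D_j`, `P` the pairs which meet `F` -/
noncomputable def Cf (a : Fin δ → ℕ) (P : Finset (Fin t)) : ℤ :=
  ∑ j, ((min (a j) 2 : ℕ) : ℤ) + ∑ i ∈ P, ww (T.ff a i true) (T.ff a i false)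

/-! ### The graph -/

/-- the groups `D_j`; the centres of two groups are adjacent if the groups have a common target -/
def gD (k : ℕ) : SimpleGraph (Fin δ × Fin k) where
  Adj x y := (x.1 = y.1 ∧ (st k h).Adj x.2 y.2) ∨ (x.1 ≠ y.1 ∧ x.2.val = 0 ∧ y.2.val = 0 ∧ T.sh x.1 y.1)
  symm := ⟨fun x y hxy => by
    rcases hxy with ⟨h1, h2⟩ | ⟨h1, h2, h3, i, s, h4, h5⟩
    · exact Or.inl ⟨h1.symm, SimpleGraph.Adj.symm (G := st k h) h2⟩
    · exact Or.inr ⟨h1.symm, h3, h2, i, s, h5, h4⟩⟩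
  loopless := ⟨fun x hx => by
    rcases hx with ⟨_, h2⟩ | ⟨h1, _⟩
    · exact (st k h).loopless.irrefl x.2 h2
    · exact h1 rfl⟩

/-- the edges between the groups `D_j` and the pairs -/
def rX (k : ℕ) (x : Fin δ × Fin k) (y : Fin t × (Fin (k - 1) ⊕ Fin k)) : Prop := match y with
  | (i, Sum.inl b) => (x.2.val = 0 ∧ T.hit x.1 i true ∧ b.val < k / 2) ∨
      ∃ l : Fin h, T.tp x.1 l = i ∧ T.ts x.1 l = true ∧ x.2.val = l.val + 1 ∧ k / 2 ≤ b.val
  | (i, Sum.inr c) => (x.2.val = 0 ∧ T.hit x.1 i false ∧ c.val < k / 2) ∨ (x.2.val = 0 ∧ T.hit x.1 i true ∧ c.val = 0) ∨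
      ∃ l : Fin h, T.tp x.1 l = i ∧ T.ts x.1 l = false ∧ x.2.val = l.val + 1 ∧ k / 2 ≤ c.val

/-- the graph -/
def gT (k N : ℕ) : SimpleGraph ((Fin δ × Fin k) ⊕ (Fin t × (Fin (k - 1) ⊕ Fin k))) :=
  jn (T.gD k) (cp (Fin t) (BKU.pr k N)) (T.rX k)

/-! ### Flags. `F` is the part of a set in the groups `D_j` -/

/-- `1` if the centre of `D_j` is in `F` -/
noncomputable def d0 {δ k : ℕ} (F : Finset (Fin δ × Fin k)) (j : Fin δ) : ℕ := ct (sec F j) fun a => a.val = 0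

/-- `1` if the vertex `l + 1` of `D_j` is in `F` -/
noncomputable def zz {δ k : ℕ} (F : Finset (Fin δ × Fin k)) (j : Fin δ) (l : ℕ) : ℕ := ct (sec F j) fun a => a.val = l + 1

open Classical in
/-- the flags of the centres -/
noncomputable def pf {k : ℕ} (F : Finset (Fin δ × Fin k)) (i : Fin t) (x : Bool) : ℕ :=
  ∑ j, if T.hit j i x then d0 F j else 0

open Classical in
/-- the flags of the leaves -/
noncomputable def qf {k : ℕ} (F : Finset (Fin δ × Fin k)) (i : Fin t) (x : Bool) : ℕ :=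
  ∑ j, ∑ l : Fin h, if T.tp j l = i ∧ T.ts j l = x then zz F j l.val else 0

end TSys

/-- number of vertices in the first half of `C` -/
noncomputable def cLo {k : ℕ} (S : Finset (Fin (k - 1) ⊕ Fin k)) : ℕ := ct (pR S) fun c => c.val < k / 2

/-- number of vertices in the second half of `C` -/
noncomputable def cHi {k : ℕ} (S : Finset (Fin (k - 1) ⊕ Fin k)) : ℕ := ct (pR S) fun c => k / 2 ≤ c.val

/-- the number of the `j` with `1 ≤ a j` -/
def nz {δ : ℕ} (a : Fin δ → ℕ) : ℕ := (univ.filter fun j => 1 ≤ a j).card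

/-- the excess of a pair with flags -/
noncomputable def SS (k : ℕ) (μ : ℝ) (b c J γ ν lo hi c1 c2 pB qB pC qC : ℕ) : ℝ :=
  TT k μ b c J γ ν - 2 * ((pB : ℝ) * lo + qB * hi) - 2 * pB * γ - 2 * ((pC : ℝ) * c1 + qC * c2)

/-- the lower bound for the excess of a pair with `n ≥ 1` vertices in `F` and at most `f`, `g` flags -/
noncomputable def WW (k N h f g n : ℕ) : ℝ :=
  if f = 0 ∧ g = 0 then (if n ≤ 1 then (k : ℝ) + 1 - mu k h else 2 * k - 2 * mu k h)
  else if f + g = 1 then (k : ℝ) - 1 - mu k h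
  else if f = 0 ∨ g = 0 then (2 - ((f : ℝ) + g)) * k + 2 * ((N : ℝ) - h - (f + g)) - 1
  else (3 - ((f : ℝ) + g)) * k - 10 * ((N : ℝ) + 2) ^ 2

/-- the data of the final count -/
structure Cnt {δ t h : ℕ} (T : TSys δ t h) (N k : ℕ) (a : Fin δ → ℕ) (m : Fin t → ℕ) (X : Fin δ → ℝ) (Y : Fin t → ℝ) : Prop where
  hh : 1 ≤ h
  hN : N = h + 2 * t + δ * δ + 3 * δ + 4
  hk : 1000 * (N + 2) ^ 3 ≤ k
  x0 : ∀ j, a j = 0 → 0 ≤ X j
  x1 : ∀ j, a j = 1 → (k : ℝ) + 1 - mu k h ≤ X j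
  x2 : ∀ j, 2 ≤ a j → 2 * (k : ℝ) - 2 * mu k h ≤ X j
  y0 : ∀ i, m i = 0 → 0 ≤ Y i
  y1 : ∀ i, 1 ≤ m i → WW k N h (T.ff a i true) (T.ff a i false) (m i) ≤ Y i

end Pool.Agent.UBG
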