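import Pool.Agent.UBG.St

set_option autoImplicit false

open Finset

namespace Pool.Agent.UBG

open Pool.Agent.BKU Pool.Agent.TwoDens

theorem thm_ED (hJN : BKU.St_JN) (hCP : BKU.St_CP) (hST : BKU.St_ST) (hPP : BKU.St_PP) (hGDE : St_GDE) (hRX : St_RX) :
    St_ED := by
  intro δ t h k N T μ F hk hN
  have hA : ∀ j, gg k μ ((sec (pL F) j).card : ℝ) + 2 * (ct (sec (pL F) j) (fun a => a.val = 0) : ℝ) *
      (ct (sec (pL F) j) (fun a => 1 ≤ a.val ∧ a.val ≤ h) : ℝ) =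
      ((k : ℝ) + 1 - μ) * ((sec (pL F) j).card : ℝ) - E2 (st k h) (sec (pL F) j) := by
    intro j
    rw [(hST.2 k h (sec (pL F) j) hk).1]
    unfold gg
    ring
  have hB : ∀ i, SS k μ (nB (sec (pR F) i)) (nC (sec (pR F) i)) (nJ N (sec (pR F) i)) (nG (sec (pR F) i))
      (nN N (sec (pR F) i)) (nLo (sec (pR F) i)) (nHi (sec (pR F) i)) (cLo (sec (pR F) i)) (cHi (sec (pR F) i))
      (T.pf (pL F) i true) (T.qf (pL F) i true) (T.pf (pL F) i false) (T.qf (pL F) i false) =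
      ((k : ℝ) + 1 - μ) * ((sec (pR F) i).card : ℝ) - E2 (BKU.pr k N) (sec (pR F) i) -
      2 * ((T.pf (pL F) i true : ℝ) * nLo (sec (pR F) i) + (T.qf (pL F) i true : ℝ) * nHi (sec (pR F) i) +
        (T.pf (pL F) i true : ℝ) * nG (sec (pR F) i) + (T.pf (pL F) i false : ℝ) * cLo (sec (pR F) i) +
        (T.qf (pL F) i false : ℝ) * cHi (sec (pR F) i)) := by
    intro i
    obtain ⟨h1, -, h3⟩ := hPP k N (sec (pR F) i) hN
    rw [h1, h3]
    unfold SS TT gg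
    push_cast
    ring
  simp only [hA, hB]
  obtain ⟨j1, j2⟩ := hJN (Fin δ × Fin k) (Fin t × (Fin (k - 1) ⊕ Fin k)) (T.gD k) (cp (Fin t) (BKU.pr k N)) (T.rX k) F
  obtain ⟨c1, -, c3⟩ := hCP (Fin t) (Fin (k - 1) ⊕ Fin k) (BKU.pr k N) (pR F)
  obtain ⟨-, -, d3⟩ := hCP (Fin δ) (Fin k) (st k h) (pL F)
  have g1 := hGDE δ t h k T (pL F)
  have g2 := hRX δ t h k T (pL F) (pR F)
  have e1 : E2 (T.gT k N) F = E2 (T.gD k) (pL F) + ∑ i, E2 (BKU.pr k N) (sec (pR F) i) +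
      2 * ∑ x ∈ pL F, (ct (pR F) (T.rX k x) : ℝ) := by
    rw [← c1]
    exact j1
  have e2 : (F.card : ℝ) = ∑ j, ((sec (pL F) j).card : ℝ) + ∑ i, ((sec (pR F) i).card : ℝ) := by
    rw [j2, c3, d3]
    push_cast
    rfl
  rw [e1, e2]
  simp only [sum_sub_distrib, ← mul_sum]
  linarith

end Pool.Agent.UBG

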