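import Pool.Agent.UBG.St

/-! Module FA of the campaign UBG. -/

set_option autoImplicit false

open Finset

namespace Pool.Agent.UBG

open Pool.Agent.BKU

private theorem FA_w1 (k N h f g n δ : ℕ) (hμ0 : 0 < mu k h) (hμ1 : mu k h ≤ 1 / 8)
    (hk : (10 : ℝ) ≤ k) (hN : h + 2 * δ + 1 ≤ N) (hf : f ≤ 2 * δ) (hg : g ≤ 2 * δ)
    (h0 : f = 0 ∨ g = 0) :
    (ww f g : ℝ) * k - (1 + mu k h) ≤ WW k N h f g n ∧
    (2 ≤ f + g → (ww f g : ℝ) * k + (2 * ((N : ℝ) - h - 2 * δ) - 1) ≤ WW k N h f g n) := by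
  have hNr : (h : ℝ) + 2 * δ + 1 ≤ N := by exact_mod_cast hN
  unfold WW ww
  by_cases h1 : f = 0 ∧ g = 0
  · rw [if_pos h1, if_pos h1]
    refine ⟨?_, fun h2 => by omega⟩
    split_ifs
    · push_cast; linarith
    · push_cast; linarith
  · rw [if_neg h1, if_neg h1, if_pos h0]
    by_cases h2 : f + g = 1
    · rw [if_pos h2]
      refine ⟨?_, fun h3 => by omega⟩
      have h4 : (f : ℝ) + g = 1 := by exact_mod_cast h2
      push_cast
      rw [h4]
      linarith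
    · rw [if_neg h2, if_pos h0]
      have h3 : f + g ≤ 2 * δ := by omega
      have h4 : (f : ℝ) + g ≤ 2 * δ := by exact_mod_cast h3
      push_cast
      constructor
      · linarith
      · intro _
        linarith

private theorem FA_w2 (k N h f g n δ : ℕ) (hμ0 : 0 < mu k h) (hμ1 : mu k h ≤ 1 / 8)
    (hk : (10 : ℝ) ≤ k) (hN : h + 2 * δ + 1 ≤ N) (hf : f ≤ 2 * δ) (hg : g ≤ 2 * δ) :
    (ww f g : ℝ) * k - 10 * ((N : ℝ) + 2) ^ 2 ≤ WW k N h f g n := by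
  have hN2 : (4 : ℝ) ≤ ((N : ℝ) + 2) ^ 2 := by
    have : (0 : ℝ) ≤ N := Nat.cast_nonneg _
    nlinarith
  by_cases h0 : f = 0 ∨ g = 0
  · have := (FA_w1 k N h f g n δ hμ0 hμ1 hk hN hf hg h0).1
    linarith
  · unfold WW ww
    have hA : ¬ (f = 0 ∧ g = 0) := fun h1 => h0 (Or.inl h1.1)
    have hB : ¬ (f + g = 1) := by omega
    simp only [if_neg hA, if_neg h0, if_neg hB]
    push_cast
    linarith

theorem thm_FA (hGB : BKU.St_GB) (hKC : St_KC) (hFL : St_FL) : St_FA := by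
  classical
  intro δ t h N k T a m X Y hT hC hor
  obtain ⟨hh, hN, hk, x0, x1, x2, y0, y1⟩ := hC
  have hk2 : 100 * (h + 2) ^ 2 ≤ k := by
    have h1 : h + 2 ≤ N + 2 := by omega
    have h2 : (h + 2) ^ 2 ≤ (N + 2) ^ 2 := Nat.pow_le_pow_left h1 2
    have h3 : (N + 2) ^ 2 ≤ (N + 2) ^ 3 := Nat.pow_le_pow_right (by omega) (by norm_num)
    omega
  obtain ⟨hμ0, hμ1, -⟩ := hGB k h hh hk2
  have hkr : 1000 * ((N : ℝ) + 2) ^ 3 ≤ k := by exact_mod_cast hk
  have hNr : (N : ℝ) = h + 2 * t + δ * δ + 3 * δ + 4 := by rw [hN]; push_cast; ring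
  have hh0 : (0 : ℝ) ≤ h := Nat.cast_nonneg _
  have ht0 : (0 : ℝ) ≤ t := Nat.cast_nonneg _
  have hδ0 : (0 : ℝ) ≤ δ := Nat.cast_nonneg _
  have hδδ : (0 : ℝ) ≤ (δ : ℝ) * δ := mul_nonneg hδ0 hδ0
  have hN4 : (4 : ℝ) ≤ N := by rw [hNr]; linarith
  have htN : (t : ℝ) ≤ N + 2 := by rw [hNr]; linarith
  have hδN : (δ : ℝ) ≤ N + 2 := by rw [hNr]; linarith
  have hδδN : (δ : ℝ) * δ ≤ N + 2 := by rw [hNr]; linarith
  have hM1 : ((N : ℝ) + 2) ≤ ((N : ℝ) + 2) ^ 3 := by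
    have h1 : (1 : ℝ) ≤ (N : ℝ) + 2 := by linarith
    calc ((N : ℝ) + 2) = ((N : ℝ) + 2) ^ 1 := (pow_one _).symm
      _ ≤ ((N : ℝ) + 2) ^ 3 := pow_le_pow_right₀ h1 (by norm_num)
  have hk10 : (10 : ℝ) ≤ k := by linarith
  have hk0 : (0 : ℝ) ≤ k := by linarith
  have hNδ : h + 2 * δ + 1 ≤ N := by
    have : 0 ≤ δ * δ := Nat.zero_le _
    omega
  have hff := hFL.2.1
  -- the groups
  have hX : ∀ j, ((min (a j) 2 : ℕ) : ℝ) * k - 2 * mu k h ≤ X j := by
    intro j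
    rcases Nat.lt_or_ge (a j) 2 with h1 | h1
    · rcases Nat.lt_or_ge (a j) 1 with h2 | h2
      · have h3 : a j = 0 := by omega
        have h4 := x0 j h3
        rw [h3]
        norm_num
        linarith
      · have h3 : a j = 1 := by omega
        have h4 := x1 j h3
        rw [h3]
        norm_num
        linarith
    · have h4 := x2 j h1
      rw [min_eq_right h1]
      push_cast
      linarith
  have hXs : (∑ j, ((min (a j) 2 : ℕ) : ℝ)) * k - 2 * mu k h * δ ≤ ∑ j, X j := by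
    have h1 := Finset.sum_le_sum (s := (univ : Finset (Fin δ))) (fun j _ => hX j)
    rw [Finset.sum_sub_distrib, ← Finset.sum_mul, Finset.sum_const, Finset.card_univ,
      Fintype.card_fin, nsmul_eq_mul] at h1
    linarith
  have hP : ∀ i ∈ (univ.filter fun i => 1 ≤ m i), 1 ≤ m i := fun i hi => (mem_filter.mp hi).2
  have hPc : (((univ.filter fun i => 1 ≤ m i) : Finset (Fin t)).card : ℝ) ≤ t := by
    have h1 : ((univ.filter fun i => 1 ≤ m i) : Finset (Fin t)).card ≤ t := by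
      have := Finset.card_filter_le (univ : Finset (Fin t)) (fun i => 1 ≤ m i)
      rwa [Finset.card_univ, Fintype.card_fin] at this
    exact_mod_cast h1
  have hYP : ∑ i ∈ (univ.filter fun i => 1 ≤ m i), Y i ≤ ∑ i, Y i := by
    apply Finset.sum_le_sum_of_subset_of_nonneg (filter_subset _ _)
    intro i _ hi
    have : m i = 0 := by
      by_contra hne
      exact hi (mem_filter.mpr ⟨mem_univ _, by omega⟩)
    exact y0 i this
  have hCf : (T.Cf a (univ.filter fun i => 1 ≤ m i) : ℝ) =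
      (∑ j, ((min (a j) 2 : ℕ) : ℝ)) +
        ∑ i ∈ (univ.filter fun i => 1 ≤ m i), (ww (T.ff a i true) (T.ff a i false) : ℝ) := by
    unfold TSys.Cf
    push_cast
    rfl
  have hnz : (nz a : ℝ) * ((nz a : ℝ) - 1) ≤ δ * δ := by
    have h1 : nz a ≤ δ := by
      unfold nz
      have := Finset.card_filter_le (univ : Finset (Fin δ)) (fun j => 1 ≤ a j)
      rwa [Finset.card_univ, Fintype.card_fin] at this
    have h2 : (nz a : ℝ) ≤ δ := by exact_mod_cast h1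
    have h3 : (0 : ℝ) ≤ nz a := Nat.cast_nonneg _
    nlinarith
  have hμδ : mu k h * δ ≤ 1 / 8 * δ := mul_le_mul_of_nonneg_right hμ1 hδ0
  -- the case of at least three
  have main : 3 ≤ T.Cf a (univ.filter fun i => 1 ≤ m i) →
      2 * (k : ℝ) - 2 * mu k h ≤ ∑ j, X j + ∑ i, Y i - (nz a : ℝ) * ((nz a : ℝ) - 1) := by
    intro h3
    have h3r : (3 : ℝ) ≤ (T.Cf a (univ.filter fun i => 1 ≤ m i) : ℝ) := by exact_mod_cast h3
    have h4 : (3 : ℝ) * k ≤ (T.Cf a (univ.filter fun i => 1 ≤ m i) : ℝ) * k :=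
      mul_le_mul_of_nonneg_right h3r hk0
    have hY := Finset.sum_le_sum (s := univ.filter fun i => 1 ≤ m i) (fun i hi =>
      (FA_w2 k N h (T.ff a i true) (T.ff a i false) (m i) δ hμ0 hμ1 hk10 hNδ (hff _ _ _ _ _ _ _)
        (hff _ _ _ _ _ _ _)).trans (y1 i (hP i hi)))
    rw [Finset.sum_sub_distrib, ← Finset.sum_mul, Finset.sum_const, nsmul_eq_mul] at hY
    have h5 : (((univ.filter fun i => 1 ≤ m i) : Finset (Fin t)).card : ℝ) *
        (10 * ((N : ℝ) + 2) ^ 2) ≤ 10 * ((N : ℝ) + 2) ^ 3 := by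
      have h6 : (((univ.filter fun i => 1 ≤ m i) : Finset (Fin t)).card : ℝ) ≤ (N : ℝ) + 2 :=
        hPc.trans htN
      have h7 := mul_le_mul_of_nonneg_right h6 (show (0 : ℝ) ≤ 10 * ((N : ℝ) + 2) ^ 2 by positivity)
      linarith [h7, show ((N : ℝ) + 2) * (10 * ((N : ℝ) + 2) ^ 2) = 10 * ((N : ℝ) + 2) ^ 3 by ring]
    rw [hCf, add_mul] at h4
    linarith
  rcases hor with h3 | ⟨i₀, hi₀, hf₀⟩
  · exact main h3
  by_cases hd : ∃ i ∈ (univ.filter fun i => 1 ≤ m i), 1 ≤ T.ff a i true ∧ 1 ≤ T.ff a i false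
  · exact main ((hKC δ t h T hT a _).1 hd)
  have hi₀P : i₀ ∈ (univ.filter fun i => 1 ≤ m i) := mem_filter.mpr ⟨mem_univ _, hi₀⟩
  have h2 := (hKC δ t h T hT a (univ.filter fun i => 1 ≤ m i)).2 ⟨i₀, hi₀P, by omega⟩
  have h2r : (2 : ℝ) ≤ (T.Cf a (univ.filter fun i => 1 ≤ m i) : ℝ) := by exact_mod_cast h2
  have h4 : (2 : ℝ) * k ≤ (T.Cf a (univ.filter fun i => 1 ≤ m i) : ℝ) * k :=
    mul_le_mul_of_nonneg_right h2r hk0
  have hz : ∀ i ∈ (univ.filter fun i => 1 ≤ m i), T.ff a i true = 0 ∨ T.ff a i false = 0 := by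
    intro i hi
    by_contra hne
    exact hd ⟨i, hi, by omega, by omega⟩
  have hYi₀ := ((FA_w1 k N h (T.ff a i₀ true) (T.ff a i₀ false) (m i₀) δ hμ0 hμ1 hk10 hNδ
    (hff _ _ _ _ _ _ _) (hff _ _ _ _ _ _ _) (hz i₀ hi₀P)).2 hf₀).trans (y1 i₀ hi₀)
  have hY := Finset.sum_le_sum (s := (univ.filter fun i => 1 ≤ m i).erase i₀) (fun i hi =>
    ((FA_w1 k N h (T.ff a i true) (T.ff a i false) (m i) δ hμ0 hμ1 hk10 hNδ (hff _ _ _ _ _ _ _)
      (hff _ _ _ _ _ _ _) (hz i (mem_of_mem_erase hi))).1).trans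
        (y1 i (hP i (mem_of_mem_erase hi))))
  rw [Finset.sum_sub_distrib, ← Finset.sum_mul, Finset.sum_const, nsmul_eq_mul] at hY
  have hc : (((univ.filter fun i => 1 ≤ m i).erase i₀ : Finset (Fin t)).card : ℝ) ≤ t := by
    have h5 := Finset.card_le_card (erase_subset i₀ (univ.filter fun i => 1 ≤ m i))
    have h6 : (((univ.filter fun i => 1 ≤ m i).erase i₀ : Finset (Fin t)).card : ℝ) ≤
        ((univ.filter fun i => 1 ≤ m i) : Finset (Fin t)).card := by exact_mod_cast h5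
    exact h6.trans hPc
  have hc' := mul_le_mul_of_nonneg_right hc (show (0 : ℝ) ≤ 1 + mu k h by linarith)
  have hc2 : (t : ℝ) * (1 + mu k h) ≤ t * (1 + 1 / 8) :=
    mul_le_mul_of_nonneg_left (by linarith) ht0
  have e1 := Finset.add_sum_erase (univ.filter fun i => 1 ≤ m i) Y hi₀P
  have e2 := Finset.add_sum_erase (univ.filter fun i => 1 ≤ m i)
    (fun i => (ww (T.ff a i true) (T.ff a i false) : ℝ)) hi₀P
  rw [hCf, add_mul, ← e2, add_mul] at h4
  linarith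

end Pool.Agent.UBG
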