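import Pool.Agent.UBG.St

/-!
# Campaign UBG, module FB: the final count, the small cases (helper68)
-/

set_option autoImplicit false

open Finset

namespace Pool.Agent.UBG

open Pool.Agent.BKU Pool.Agent.TwoDens

private theorem FB_mu (k h N : ℕ) (hN : h ≤ N) (hk : 1000 * (N + 2) ^ 3 ≤ k) :
    0 ≤ mu k h ∧ mu k h ≤ 1 / 8 ∧ (2000 : ℝ) ≤ k := by
  have h1 : N + 2 ≤ (N + 2) ^ 3 := Nat.le_self_pow (by norm_num) _
  have h2 : 1000 * (h + 2) ≤ k := by
    calc 1000 * (h + 2) ≤ 1000 * (N + 2) := by omega
      _ ≤ 1000 * (N + 2) ^ 3 := Nat.mul_le_mul_left _ h1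
      _ ≤ k := hk
  have h3 : (1000 : ℝ) * ((h : ℝ) + 2) ≤ k := by exact_mod_cast h2
  have h0 : (0 : ℝ) ≤ (h : ℝ) := Nat.cast_nonneg h
  have h4 : (0 : ℝ) < (k : ℝ) - 2 := by nlinarith
  refine ⟨?_, ?_, by nlinarith⟩
  · unfold mu
    exact div_nonneg (by positivity) h4.le
  · unfold mu
    rw [div_le_iff₀ h4]
    nlinarith

private theorem FB_WW (k N h f g n : ℕ) (hμ : mu k h ≤ 1 / 8) (hk : (2000 : ℝ) ≤ k)
    (hfg : f + g ≤ 1) : (k : ℝ) - 1 - mu k h ≤ WW k N h f g n := by
  unfold WW
  by_cases h0 : f = 0 ∧ g = 0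
  · rw [if_pos h0]
    split_ifs
    · linarith
    · linarith
  · rw [if_neg h0, if_pos (by omega)]

private theorem FB_WW0 (k N h n : ℕ) (hμ : mu k h ≤ 1 / 8) (hk : (2000 : ℝ) ≤ k) :
    (k : ℝ) + 1 - mu k h ≤ WW k N h 0 0 n ∧
      (2 ≤ n → WW k N h 0 0 n = 2 * (k : ℝ) - 2 * mu k h) := by
  unfold WW
  rw [if_pos ⟨rfl, rfl⟩]
  constructor
  · split_ifs
    · exact le_refl _
    · linarith
  · intro hn
    rw [if_neg (by omega)]

/-- the module FB -/
theorem thm_FB : St_FB := by
  intro δ t h N k T a m X Y hC hCf hfl hsum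
  obtain ⟨hμ0, hμ, hk⟩ := FB_mu k h N (by rw [hC.hN]; omega) hC.hk
  set μ := mu k h with hμd
  have hX : ∀ j, 0 ≤ X j := by
    intro j
    rcases Nat.lt_or_ge (a j) 1 with h0 | h0
    · exact hC.x0 j (by omega)
    · rcases Nat.lt_or_ge (a j) 2 with h1 | h1
      · have := hC.x1 j (by omega)
        linarith
      · have := hC.x2 j h1
        linarith
  have hYk : ∀ i, 1 ≤ m i → (k : ℝ) - 1 - μ ≤ Y i := by
    intro i hi
    exact (FB_WW k N h _ _ _ hμ hk (hfl i hi)).trans (hC.y1 i hi)
  have hY : ∀ i, 0 ≤ Y i := by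
    intro i
    rcases Nat.lt_or_ge (m i) 1 with h0 | h0
    · exact hC.y0 i (by omega)
    · have := hYk i h0
      linarith
  have hXs : 0 ≤ ∑ j, X j := Finset.sum_nonneg fun j _ => hX j
  have hYs : 0 ≤ ∑ i, Y i := Finset.sum_nonneg fun i _ => hY i
  set P : Finset (Fin t) := univ.filter fun i => 1 ≤ m i with hP
  have hmP : ∀ i, i ∈ P ↔ 1 ≤ m i := by
    intro i
    rw [hP, Finset.mem_filter]
    exact ⟨fun h => h.2, fun h => ⟨Finset.mem_univ _, h⟩⟩
  -- the count
  have hcount : (∑ j, min (a j) 2) + P.card ≤ 2 := by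
    have hw : ∑ i ∈ P, ww (T.ff a i true) (T.ff a i false) = (P.card : ℤ) := by
      rw [Finset.cast_card]
      apply Finset.sum_congr rfl
      intro i hi
      have h1 := hfl i ((hmP i).1 hi)
      unfold ww
      by_cases h0 : T.ff a i true = 0 ∧ T.ff a i false = 0
      · rw [if_pos h0]
      · rw [if_neg h0]
        have h2 : T.ff a i true = 0 ∨ T.ff a i false = 0 := by omega
        rw [if_pos h2]
        have h3 : T.ff a i true + T.ff a i false = 1 := by omega
        have h4 : (T.ff a i true : ℤ) + (T.ff a i false : ℤ) = 1 := by exact_mod_cast h3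
        rw [h4]
        norm_num
    unfold TSys.Cf at hCf
    rw [hw] at hCf
    have h5 : ((∑ j, min (a j) 2 : ℕ) : ℤ) + (P.card : ℤ) ≤ 2 := by
      rw [Nat.cast_sum]
      exact hCf
    exact_mod_cast h5
  have hm0 : ∀ i, i ∉ P → m i = 0 := by
    intro i hi
    have : ¬ 1 ≤ m i := fun h => hi ((hmP i).2 h)
    omega
  have hmsum : ∑ i, m i = ∑ i ∈ P, m i :=
    (Finset.sum_subset (Finset.subset_univ P) (fun i _ hi => hm0 i hi)).symm
  by_cases h2 : ∃ j, 2 ≤ a j
  · obtain ⟨j0, hj0⟩ := h2
    have hsplit : min (a j0) 2 + ∑ j ∈ univ.erase j0, min (a j) 2 = ∑ j, min (a j) 2 :=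
      Finset.add_sum_erase univ (fun j => min (a j) 2) (Finset.mem_univ j0)
    have hmin : min (a j0) 2 = 2 := min_eq_right hj0
    have hz : ∑ j ∈ univ.erase j0, min (a j) 2 = 0 := by omega
    have hz' : ∀ j, j ≠ j0 → a j = 0 := by
      intro j hj
      have h3 := (Finset.sum_eq_zero_iff.1 hz) j (Finset.mem_erase.2 ⟨hj, Finset.mem_univ _⟩)
      omega
    have hnz : nz a = 1 := by
      unfold nz
      rw [Finset.card_eq_one]
      refine ⟨j0, ?_⟩
      ext j
      rw [Finset.mem_filter, Finset.mem_singleton]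
      constructor
      · intro h3
        by_contra h4
        have := hz' j h4
        omega
      · intro h3
        rw [h3]
        exact ⟨Finset.mem_univ _, by omega⟩
    have h6 : X j0 ≤ ∑ j, X j :=
      Finset.single_le_sum (f := X) (fun j _ => hX j) (Finset.mem_univ j0)
    have h7 := hC.x2 j0 hj0
    rw [hnz]
    push_cast
    linarith
  · push Not at h2
    have ha1 : ∀ j, a j ≤ 1 := fun j => by
      have := h2 j
      omega
    have hnz : ∑ j, a j = nz a := by
      unfold nz
      rw [Finset.card_filter]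
      apply Finset.sum_congr rfl
      intro j _
      have := ha1 j
      split_ifs <;> omega
    have hmin : ∑ j, min (a j) 2 = nz a := by
      rw [← hnz]
      apply Finset.sum_congr rfl
      intro j _
      have := ha1 j
      omega
    rw [hmin] at hcount
    rw [hnz, hmsum] at hsum
    have hcase : nz a = 0 ∨ nz a = 1 ∨ nz a = 2 := by omega
    rcases hcase with h0 | h1 | h1
    · -- no vertex in the groups
      have ha0 : ∀ j, a j = 0 := by
        intro j
        have h3 := (Finset.sum_eq_zero_iff.1 (hnz.trans h0)) j (Finset.mem_univ j)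
        exact h3
      have hff : ∀ i x, T.ff a i x = 0 := by
        intro i x
        unfold TSys.ff
        apply Finset.sum_eq_zero
        intro j _
        rw [ha0 j]
        split_ifs <;> rfl
      have hYi : ∀ i, 1 ≤ m i → (k : ℝ) + 1 - μ ≤ Y i ∧ (2 ≤ m i → 2 * (k : ℝ) - 2 * μ ≤ Y i) := by
        intro i hi
        have h3 := hC.y1 i hi
        rw [hff, hff] at h3
        have h4 := FB_WW0 k N h (m i) hμ hk
        refine ⟨h4.1.trans h3, fun h5 => ?_⟩
        rw [h4.2 h5] at h3
        exact h3
      rw [h0]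
      have hPc : P.card = 0 ∨ P.card = 1 ∨ P.card = 2 := by omega
      rcases hPc with hp | hp | hp
      · rw [Finset.card_eq_zero] at hp
        rw [hp, Finset.sum_empty] at hsum
        omega
      · obtain ⟨i, hi⟩ := Finset.card_eq_one.1 hp
        rw [hi, Finset.sum_singleton] at hsum
        have h6 : Y i ≤ ∑ i, Y i :=
          Finset.single_le_sum (f := Y) (fun i _ => hY i) (Finset.mem_univ i)
        have h7 := (hYi i (by omega)).2 (by omega)
        push_cast
        linarith
      · obtain ⟨i, i', hne, hi⟩ := Finset.card_eq_two.1 hp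
        have hiP : i ∈ P := by rw [hi]; simp
        have hiP' : i' ∈ P := by rw [hi]; simp
        have h6 : Y i + Y i' ≤ ∑ i, Y i := by
          rw [← Finset.sum_pair hne]
          exact Finset.sum_le_sum_of_subset_of_nonneg (Finset.subset_univ _) (fun i _ _ => hY i)
        have h7 := (hYi i ((hmP i).1 hiP)).1
        have h8 := (hYi i' ((hmP i').1 hiP')).1
        push_cast
        linarith
    · -- one vertex in the groups
      have hex : ∃ j0, 1 ≤ a j0 := by
        by_contra hcon
        push Not at hcon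
        have : ∑ j, a j = 0 := Finset.sum_eq_zero fun j _ => by
          have := hcon j
          omega
        omega
      obtain ⟨j0, hj0⟩ := hex
      have h6 : X j0 ≤ ∑ j, X j :=
        Finset.single_le_sum (f := X) (fun j _ => hX j) (Finset.mem_univ j0)
      have h7 := hC.x1 j0 (le_antisymm (ha1 j0) hj0)
      rw [h1]
      have hPc : P.card = 0 ∨ P.card = 1 := by omega
      rcases hPc with hp | hp
      · rw [Finset.card_eq_zero] at hp
        rw [hp, Finset.sum_empty] at hsum
        omega
      · obtain ⟨i, hi⟩ := Finset.card_eq_one.1 hp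
        have hiP : i ∈ P := by rw [hi]; simp
        have h8 : Y i ≤ ∑ i, Y i :=
          Finset.single_le_sum (f := Y) (fun i _ => hY i) (Finset.mem_univ i)
        have h9 := hYk i ((hmP i).1 hiP)
        push_cast
        linarith
    · -- two vertices in the groups
      have hp : P.card = 0 := by omega
      rw [Finset.card_eq_zero] at hp
      rw [hp, Finset.sum_empty] at hsum
      omega

end Pool.Agent.UBG
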