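import Pool.Agent.UBG.St

/-!
# Campaign UBG (MP_303581_co), module FL: bounds for the flags
-/

set_option autoImplicit false

open Finset

namespace Pool.Agent.UBG

open Pool.Agent.BKU

private lemma FL_ct {V : Type} (F : Finset V) (p : V → Prop) [DecidablePred p] : ct F p = (F.filter p).card := by
  unfold ct
  congr 1
  ext x
  simp only [Finset.mem_filter]

private lemma FL_one {k : ℕ} (S : Finset (Fin k)) (m : ℕ) : ct S (fun a => a.val = m) ≤ 1 := by
  rw [FL_ct, Finset.card_le_one]
  intro a ha b hb
  rw [Finset.mem_filter] at ha hb
  exact Fin.ext (ha.2.trans hb.2.symm)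

private lemma FL_add {k : ℕ} (S : Finset (Fin k)) (m : ℕ) :
    ct S (fun a => a.val = 0) + ct S (fun a => a.val = m + 1) ≤ S.card := by
  rw [FL_ct, FL_ct, ← Finset.card_union_of_disjoint]
  · refine Finset.card_le_card ?_
    intro a ha
    rw [Finset.mem_union, Finset.mem_filter, Finset.mem_filter] at ha
    rcases ha with ha | ha
    · exact ha.1
    · exact ha.1
  · rw [Finset.disjoint_left]
    intro a ha hb
    rw [Finset.mem_filter] at ha hb
    have h1 := ha.2
    have h2 := hb.2
    omega

theorem thm_FL : St_FL := by
  classical
  refine ⟨?_, ?_, ?_⟩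
  · intro δ t h k T F i x
    unfold TSys.pf TSys.qf TSys.ff
    rw [← Finset.sum_add_distrib]
    refine Finset.sum_le_sum fun j _ => ?_
    by_cases hj : T.hit j i x
    · obtain ⟨l0, h1, h2⟩ := hj
      rw [if_pos ⟨l0, h1, h2⟩, if_pos ⟨l0, h1, h2⟩, Finset.sum_eq_single l0]
      · rw [if_pos ⟨h1, h2⟩]
        have e1 := FL_one (sec F j) 0
        have e2 := FL_one (sec F j) (l0.val + 1)
        have e3 := FL_add (sec F j) l0.val
        unfold TSys.d0 TSys.zz
        refine le_min e3 ?_
        omega
      · intro l _ hl
        rw [if_neg]
        rintro ⟨h3, _⟩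
        exact hl (T.inj j l l0 (h3.trans h1.symm))
      · intro hl
        exact absurd (Finset.mem_univ _) hl
    · rw [if_neg hj, if_neg hj, zero_add, Nat.le_zero]
      refine Finset.sum_eq_zero fun l _ => ?_
      rw [if_neg]
      rintro ⟨h1, h2⟩
      exact hj ⟨l, h1, h2⟩
  · intro δ t h T a i x
    unfold TSys.ff
    calc ∑ j, (if T.hit j i x then min (a j) 2 else 0) ≤ ∑ _j : Fin δ, 2 := by
          refine Finset.sum_le_sum fun j _ => ?_
          split_ifs
          · exact min_le_right _ _
          · omega
      _ = 2 * δ := by
          rw [Finset.sum_const, Finset.card_univ, Fintype.card_fin, smul_eq_mul, mul_comm]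
  · intro k S
    refine ⟨?_, ?_, ?_⟩
    · unfold cLo cHi nC
      rw [FL_ct, FL_ct, ← Finset.card_filter_add_card_filter_not (s := pR S) (fun c => c.val < k / 2)]
      congr 2
      ext c
      rw [Finset.mem_filter, Finset.mem_filter, not_lt]
    · have h1 : cLo S ≤ (Finset.range (k / 2)).card := by
        unfold cLo
        rw [FL_ct]
        refine Finset.card_le_card_of_injOn (fun c => c.val) ?_ ?_
        · intro c hc
          rw [Finset.mem_coe, Finset.mem_filter] at hc
          exact Finset.mem_coe.mpr (Finset.mem_range.mpr hc.2)
        · intro c _ d _ hcd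
          exact Fin.ext hcd
      rw [Finset.card_range] at h1
      omega
    · have h1 : cHi S ≤ (Finset.range (k - k / 2)).card := by
        unfold cHi
        rw [FL_ct]
        refine Finset.card_le_card_of_injOn (fun c => c.val - k / 2) ?_ ?_
        · intro c hc
          rw [Finset.mem_coe, Finset.mem_filter] at hc
          refine Finset.mem_coe.mpr (Finset.mem_range.mpr ?_)
          have h2 := hc.2
          have h3 := c.isLt
          show c.val - k / 2 < k - k / 2
          omega
        · intro c hc d hd hcd
          rw [Finset.mem_coe, Finset.mem_filter] at hc hd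
          have h2 := hc.2
          have h3 := hd.2
          have h4 : c.val - k / 2 = d.val - k / 2 := hcd
          exact Fin.ext (by omega)
      rw [Finset.card_range] at h1
      omega

end Pool.Agent.UBG
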