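import Pool.Agent.UBG.St

/-!
# Campaign UBG, module GDE: edges between the groups
-/

set_option autoImplicit false

open Finset

namespace Pool.Agent.UBG

open Pool.Agent.BKU

private theorem GDE_pairs {δ k : ℕ} (F : Finset (Fin δ × Fin k)) :
    (∑ x ∈ F, ∑ y ∈ F, if x.1 ≠ y.1 ∧ x.2.val = 0 ∧ y.2.val = 0 then (1 : ℝ) else 0) ≤
      (nz fun j => (sec F j).card : ℝ) * ((nz fun j => (sec F j).card : ℝ) - 1) := by
  obtain ⟨W, hW⟩ : ∃ W : Finset (Fin δ), W = univ.filter fun j => 1 ≤ (sec F j).card := ⟨_, rfl⟩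
  have hnz : nz (fun j => (sec F j).card) = W.card := by
    rw [hW]
    rfl
  have hmem : ∀ x ∈ F, x.1 ∈ W := by
    intro x hx
    rw [hW]
    refine mem_filter.2 ⟨mem_univ _, card_pos.2 ⟨x.2, ?_⟩⟩
    unfold sec
    simp only [mem_filter, mem_univ, true_and]
    exact hx
  have h1 : (∑ x ∈ F, ∑ y ∈ F, if x.1 ≠ y.1 ∧ x.2.val = 0 ∧ y.2.val = 0 then (1 : ℝ) else 0) =
      (((F ×ˢ F).filter fun z => z.1.1 ≠ z.2.1 ∧ z.1.2.val = 0 ∧ z.2.2.val = 0).card : ℝ) := by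
    rw [Finset.card_filter, Finset.sum_product]
    push_cast
    rfl
  have h2 : ((F ×ˢ F).filter fun z => z.1.1 ≠ z.2.1 ∧ z.1.2.val = 0 ∧ z.2.2.val = 0).card ≤
      W.offDiag.card := by
    refine Finset.card_le_card_of_injOn (fun z => (z.1.1, z.2.1)) ?_ ?_
    · intro z hz
      obtain ⟨h3, h4, -, -⟩ := mem_filter.1 hz
      obtain ⟨h5, h6⟩ := mem_product.1 h3
      exact mem_offDiag.2 ⟨hmem _ h5, hmem _ h6, h4⟩
    · intro z hz w hw hzw
      obtain ⟨-, -, h4, h5⟩ := mem_filter.1 hz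
      obtain ⟨-, -, h6, h7⟩ := mem_filter.1 hw
      simp only [Prod.mk.injEq] at hzw
      obtain ⟨h8, h9⟩ := hzw
      refine Prod.ext (Prod.ext h8 (Fin.ext ?_)) (Prod.ext h9 (Fin.ext ?_))
      · rw [h4, h6]
      · rw [h5, h7]
  rw [h1, hnz]
  have h3 : (W.offDiag.card : ℝ) = (W.card : ℝ) * ((W.card : ℝ) - 1) := by
    rw [Finset.offDiag_card, Nat.cast_sub (Nat.le_mul_self _)]
    push_cast
    ring
  rw [← h3]
  exact_mod_cast h2

theorem thm_GDE : BKU.St_CP → St_GDE := by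
  classical
  intro hCP δ t h k T F
  have h1 := (hCP (Fin δ) (Fin k) (st k h) F).1
  rw [← h1]
  refine le_trans ?_ (add_le_add_right (GDE_pairs F) _)
  unfold E2
  rw [← Finset.sum_add_distrib]
  refine Finset.sum_le_sum fun x _ => ?_
  rw [← Finset.sum_add_distrib]
  refine Finset.sum_le_sum fun y _ => ?_
  by_cases h2 : (T.gD k).Adj x y
  · rw [if_pos h2]
    rcases h2 with h3 | ⟨h3, h4, h5, -⟩
    · have h4 : (cp (Fin δ) (st k h)).Adj x y := h3
      rw [if_pos h4]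
      split_ifs <;> norm_num
    · rw [if_pos (show x.1 ≠ y.1 ∧ x.2.val = 0 ∧ y.2.val = 0 from ⟨h3, h4, h5⟩)]
      split_ifs <;> norm_num
  · rw [if_neg h2]
    split_ifs <;> norm_num

end Pool.Agent.UBG
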