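import Pool.Agent.UBG.St

/-!
# UBG, IG: independent sets in the groups
-/

set_option autoImplicit false

open Finset

namespace Pool.Agent.UBG

open Pool.Agent.BKU

private lemma IG_st {k h : ℕ} {a b : Fin k} (H : ¬ (st k h).Adj a b) (hab : a ≠ b) :
    (a.val = 0 ∧ 1 ≤ b.val ∧ b.val ≤ h) ∨ (b.val = 0 ∧ 1 ≤ a.val ∧ a.val ≤ h) := by
  have h1 : ¬ (a ≠ b ∧ ¬ (a.val = 0 ∧ b.val ≤ h) ∧ ¬ (b.val = 0 ∧ a.val ≤ h)) := H
  have h2 : a.val ≠ b.val := fun e => hab (Fin.ext e)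
  have h3 : (a.val = 0 ∧ b.val ≤ h) ∨ (b.val = 0 ∧ a.val ≤ h) := by
    by_contra h4
    exact h1 ⟨hab, fun h5 => h4 (Or.inl h5), fun h5 => h4 (Or.inr h5)⟩
  omega

private lemma IG_mem {δ t k : ℕ} (I : Finset ((Fin δ × Fin k) ⊕ (Fin t × (Fin (k - 1) ⊕ Fin k)))) (j : Fin δ) (a : Fin k) :
    a ∈ sec (pL I) j ↔ Sum.inl (j, a) ∈ I := by
  simp [sec, pL]

private lemma IG_memB {δ t k : ℕ} (I : Finset ((Fin δ × Fin k) ⊕ (Fin t × (Fin (k - 1) ⊕ Fin k)))) (i : Fin t) (b : Fin (k - 1)) :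
    b ∈ pL (sec (pR I) i) ↔ Sum.inr (i, Sum.inl b) ∈ I := by
  simp [sec, pL, pR]

private lemma IG_memC {δ t k : ℕ} (I : Finset ((Fin δ × Fin k) ⊕ (Fin t × (Fin (k - 1) ⊕ Fin k)))) (i : Fin t) (c : Fin k) :
    c ∈ pR (sec (pR I) i) ↔ Sum.inr (i, Sum.inr c) ∈ I := by
  simp [sec, pR]

theorem thm_IG : St_IG := by
  intro δ t h k N T I hI
  -- the relations
  have hD : ∀ (j : Fin δ) (a b : Fin k), Sum.inl (j, a) ∈ I → Sum.inl (j, b) ∈ I → a ≠ b →
      (a.val = 0 ∧ 1 ≤ b.val ∧ b.val ≤ h) ∨ (b.val = 0 ∧ 1 ≤ a.val ∧ a.val ≤ h) := by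
    intro j a b ha hb hab
    apply IG_st _ hab
    intro hadj
    refine hI _ ha _ hb (fun e => hab ?_) ?_
    · have := Sum.inl_injective e
      exact (Prod.mk.inj this).2
    · show (T.gD k).Adj (j, a) (j, b)
      exact Or.inl ⟨rfl, hadj⟩
  have hCC : ∀ (i : Fin t) (a b : Fin k), Sum.inr (i, Sum.inr a) ∈ I → Sum.inr (i, Sum.inr b) ∈ I → a ≠ b →
      (a.val = 0 ∧ 1 ≤ b.val ∧ b.val ≤ N) ∨ (b.val = 0 ∧ 1 ≤ a.val ∧ a.val ≤ N) := by
    intro i a b ha hb hab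
    apply IG_st _ hab
    intro hadj
    refine hI _ ha _ hb (fun e => hab ?_) ?_
    · have := Sum.inr_injective e
      exact Sum.inr_injective (Prod.mk.inj this).2
    · show (cp (Fin t) (BKU.pr k N)).Adj (i, Sum.inr a) (i, Sum.inr b)
      exact ⟨rfl, hadj⟩
  have hBB : ∀ (i : Fin t) (a b : Fin (k - 1)), Sum.inr (i, Sum.inl a) ∈ I → Sum.inr (i, Sum.inl b) ∈ I → a = b := by
    intro i a b ha hb
    by_contra hab
    refine hI _ ha _ hb (fun e => hab ?_) ?_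
    · have := Sum.inr_injective e
      exact Sum.inl_injective (Prod.mk.inj this).2
    · show (cp (Fin t) (BKU.pr k N)).Adj (i, Sum.inl a) (i, Sum.inl b)
      refine ⟨rfl, ?_⟩
      show (⊤ : SimpleGraph (Fin (k - 1))).Adj a b
      exact hab
  have hBC : ∀ (i : Fin t) (b : Fin (k - 1)) (c : Fin k), Sum.inr (i, Sum.inl b) ∈ I → Sum.inr (i, Sum.inr c) ∈ I →
      ¬ ((c.val = 0 ∧ b.val + N + 2 < k) ∨ (1 ≤ c.val ∧ c.val ≤ N ∧ k ≤ b.val + N + 2)) := by
    intro i b c hb hc hadj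
    refine hI _ hb _ hc (fun e => ?_) ?_
    · have := Sum.inr_injective e
      exact Sum.inl_ne_inr (Prod.mk.inj this).2
    · show (cp (Fin t) (BKU.pr k N)).Adj (i, Sum.inl b) (i, Sum.inr c)
      exact ⟨rfl, hadj⟩
  have hX : ∀ (x : Fin δ × Fin k) (y : Fin t × (Fin (k - 1) ⊕ Fin k)), Sum.inl x ∈ I → Sum.inr y ∈ I → ¬ T.rX k x y := by
    intro x y hx hy hadj
    exact hI _ hx _ hy Sum.inl_ne_inr hadj
  refine ⟨?_, ?_, ?_, ?_, ?_⟩
  · intro j
    constructor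
    · by_contra hcon
      obtain ⟨x, hx, y, hy, z, hz, hxy, hxz, hyz⟩ := Finset.two_lt_card.mp (not_le.mp hcon)
      rw [IG_mem] at hx hy hz
      have q1 := hD j x y hx hy hxy
      have q2 := hD j x z hx hz hxz
      have q3 := hD j y z hy hz hyz
      omega
    · intro hc
      obtain ⟨x, hx, y, hy, hxy⟩ := Finset.one_lt_card.mp (by omega : 1 < (sec (pL I) j).card)
      have q1 := hD j x y ((IG_mem I j x).mp hx) ((IG_mem I j y).mp hy) hxy
      rcases q1 with ⟨h1, h2, h3⟩ | ⟨h1, h2, h3⟩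
      · refine ⟨⟨y.val - 1, by omega⟩, ⟨x, hx, h1⟩, ⟨y, hy, ?_⟩⟩
        show y.val = y.val - 1 + 1
        omega
      · refine ⟨⟨x.val - 1, by omega⟩, ⟨y, hy, h1⟩, ⟨x, hx, ?_⟩⟩
        show x.val = x.val - 1 + 1
        omega
  · intro i
    refine ⟨?_, ?_, ?_⟩
    · apply Finset.card_le_one.mpr
      intro a ha b hb
      exact hBB i a b ((IG_memB I i a).mp ha) ((IG_memB I i b).mp hb)
    · by_contra hcon
      obtain ⟨x, hx, y, hy, z, hz, hxy, hxz, hyz⟩ := Finset.two_lt_card.mp (not_le.mp hcon)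
      rw [IG_memC] at hx hy hz
      have q1 := hCC i x y hx hy hxy
      have q2 := hCC i x z hx hz hxz
      have q3 := hCC i y z hy hz hyz
      omega
    · intro hc
      obtain ⟨x, hx, y, hy, hxy⟩ := Finset.one_lt_card.mp (by omega : 1 < (pR (sec (pR I) i)).card)
      have hx' := (IG_memC I i x).mp hx
      have hy' := (IG_memC I i y).mp hy
      have q1 := hCC i x y hx' hy' hxy
      constructor
      · apply Finset.eq_empty_of_forall_notMem
        intro b hb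
        have hb' := (IG_memB I i b).mp hb
        have q2 := hBC i b x hb' hx'
        have q3 := hBC i b y hb' hy'
        omega
      · rcases q1 with ⟨h1, h2, h3⟩ | ⟨h1, h2, h3⟩
        · exact ⟨x, hx, h1⟩
        · exact ⟨y, hy, h1⟩
  · rintro j l ⟨a, ha, ha0⟩ ⟨a', ha', hal⟩
    have hia := (IG_mem I j a).mp ha
    have hia' := (IG_mem I j a').mp ha'
    constructor
    · intro hts
      apply Finset.eq_empty_of_forall_notMem
      intro b hb
      have hb' := (IG_memB I _ b).mp hb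
      have q1 := hX _ _ hia hb'
      have q2 := hX _ _ hia' hb'
      rcases Nat.lt_or_ge b.val (k / 2) with hlt | hge
      · exact q1 (Or.inl ⟨ha0, ⟨l, rfl, hts⟩, hlt⟩)
      · exact q2 (Or.inr ⟨l, rfl, hts, hal, hge⟩)
    · intro hts
      apply Finset.eq_empty_of_forall_notMem
      intro c hc
      have hc' := (IG_memC I _ c).mp hc
      have q1 := hX _ _ hia hc'
      have q2 := hX _ _ hia' hc'
      rcases Nat.lt_or_ge c.val (k / 2) with hlt | hge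
      · exact q1 (Or.inl ⟨ha0, ⟨l, rfl, hts⟩, hlt⟩)
      · exact q2 (Or.inr (Or.inr ⟨l, rfl, hts, hal, hge⟩))
  · rintro j j' hjj ⟨a, ha, ha0⟩ ⟨a', ha', ha0'⟩ hsh
    have hia := (IG_mem I j a).mp ha
    have hia' := (IG_mem I j' a').mp ha'
    refine hI _ hia _ hia' (fun e => hjj ?_) ?_
    · have := Sum.inl_injective e
      exact (Prod.mk.inj this).1
    · show (T.gD k).Adj (j, a) (j', a')
      exact Or.inr ⟨hjj, ha0, ha0', hsh⟩
  · rintro j i ⟨a, ha, ha0⟩ hhit ⟨c, hc, hc0⟩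
    have hia := (IG_mem I j a).mp ha
    have hc' := (IG_memC I i c).mp hc
    exact hX _ _ hia hc' (Or.inr (Or.inl ⟨ha0, hhit, hc0⟩))

end Pool.Agent.UBG
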