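import Pool.Agent.UBG.St

/-!
# Campaign UBG (MP_303581_co): the independence number (IN)
-/

set_option autoImplicit false

open Finset

namespace Pool.Agent.UBG

open Pool.Agent.BKU Pool.Agent.TwoDens

theorem thm_IN : BKU.St_JN → BKU.St_CP → St_IQ → St_IG → St_IN := by
  intro hJN hCP hIQ hIG δ t h k N T I hI
  obtain ⟨h1, h2, h3, h4, h5⟩ := hIG δ t h k N T I hI
  have hex : ∀ j : Fin δ, ∃ q : Fin δ ⊕ (Fin t × Bool), (sec (pL I) j).card = 2 →
      ∃ l : Fin h, q = Sum.inr (T.tp j l, T.ts j l) ∧ (∃ a ∈ sec (pL I) j, a.val = 0) ∧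
        ∃ a ∈ sec (pL I) j, a.val = l.val + 1 := by
    intro j
    by_cases hj : (sec (pL I) j).card = 2
    · obtain ⟨l, hl⟩ := (h1 j).2 hj
      exact ⟨_, fun _ => ⟨l, rfl, hl⟩⟩
    · exact ⟨Sum.inl j, fun h => absurd h hj⟩
  choose g hg using hex
  have key := hIQ (Fin δ ⊕ (Fin t × Bool))
    (Sum.elim (fun j => (sec (pL I) j).card)
      (fun p => if p.2 = true then (pL (sec (pR I) p.1)).card else (pR (sec (pR I) p.1)).card))
    (Sum.elim g (fun p => Sum.inr (p.1, true))) ?_ ?_ ?_
  · rw [Fintype.sum_sum_type, Fintype.sum_prod_type] at key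
    simp only [Sum.elim_inl, Sum.elim_inr, Fintype.sum_bool, if_true, Bool.false_eq_true,
      if_false] at key
    have c1 : I.card = (pL I).card + (pR I).card :=
      (hJN _ _ (T.gD k) (cp (Fin t) (BKU.pr k N)) (T.rX k) I).2
    have c2 : (pL I).card = ∑ j, (sec (pL I) j).card := (hCP (Fin δ) _ (st k h) (pL I)).2.2
    have c3 : (pR I).card = ∑ i, (sec (pR I) i).card := (hCP (Fin t) _ (BKU.pr k N) (pR I)).2.2
    have c4 : ∀ i, (sec (pR I) i).card =
        (pL (sec (pR I) i)).card + (pR (sec (pR I) i)).card := fun i =>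
      (hJN _ _ (⊤ : SimpleGraph (Fin (k - 1))) (st k h) (fun _ _ => False) (sec (pR I) i)).2
    rw [c1, c2, c3, Finset.sum_congr rfl fun i _ => c4 i]
    refine key.trans (le_of_eq ?_)
    simp [Fintype.card_sum, Fintype.card_prod]
    ring
  · rintro (j | ⟨i, b⟩)
    · exact (h1 j).1
    · cases b
      · simpa using (h2 i).2.1
      · simpa using (h2 i).1.trans (by norm_num)
  · rintro (j | ⟨i, b⟩) hq
    · obtain ⟨l, hgl, hA, hB⟩ := hg j hq
      have h3' := h3 j l hA hB
      simp only [Sum.elim_inl]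
      rw [hgl]
      simp only [Sum.elim_inr]
      cases hb : T.ts j l
      · simp [h3'.2 hb]
      · simp [h3'.1 hb]
    · cases b
      · have hq' : (pR (sec (pR I) i)).card = 2 := by simpa using hq
        simp [((h2 i).2.2 hq').1]
      · exfalso
        have hq' : (pL (sec (pR I) i)).card = 2 := by simpa using hq
        have := (h2 i).1
        omega
  · rintro (j | ⟨i, b⟩) (j' | ⟨i', b'⟩) hq hq' he
    · obtain ⟨l, hgl, hA, hB⟩ := hg j hq
      obtain ⟨l', hgl', hA', hB'⟩ := hg j' hq'
      simp only [Sum.elim_inl] at he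
      rw [hgl, hgl'] at he
      have he2 := Prod.mk.inj (Sum.inr.inj he)
      by_contra hne
      have hjj : j ≠ j' := fun h => hne (by rw [h])
      exact h4 j j' hjj hA hA' ⟨T.tp j l, T.ts j l, ⟨l, rfl, rfl⟩, ⟨l', he2.1.symm, he2.2.symm⟩⟩
    · exfalso
      obtain ⟨l, hgl, hA, hB⟩ := hg j hq
      simp only [Sum.elim_inl, Sum.elim_inr] at he
      rw [hgl] at he
      have he2 := Prod.mk.inj (Sum.inr.inj he)
      cases b'
      · have hq2 : (pR (sec (pR I) i')).card = 2 := by simpa using hq'
        exact h5 j i' hA ⟨l, he2.1, he2.2⟩ ((h2 i').2.2 hq2).2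
      · have hq2 : (pL (sec (pR I) i')).card = 2 := by simpa using hq'
        have := (h2 i').1
        omega
    · exfalso
      obtain ⟨l, hgl, hA, hB⟩ := hg j' hq'
      simp only [Sum.elim_inl, Sum.elim_inr] at he
      rw [hgl] at he
      have he2 := Prod.mk.inj (Sum.inr.inj he)
      cases b
      · have hq2 : (pR (sec (pR I) i)).card = 2 := by simpa using hq
        exact h5 j' i hA ⟨l, he2.1.symm, he2.2.symm⟩ ((h2 i).2.2 hq2).2
      · have hq2 : (pL (sec (pR I) i)).card = 2 := by simpa using hq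
        have := (h2 i).1
        omega
    · simp only [Sum.elim_inr] at he
      have he2 := Prod.mk.inj (Sum.inr.inj he)
      cases b
      · cases b'
        · rw [he2.1]
        · have hq2 : (pL (sec (pR I) i')).card = 2 := by simpa using hq'
          have := (h2 i').1
          omega
      · have hq2 : (pL (sec (pR I) i)).card = 2 := by simpa using hq
        have := (h2 i).1
        omega

end Pool.Agent.UBG
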