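import Pool.Agent.UBG.St

/-!
# UBG, INC: the incremental criterion for target systems
-/

set_option autoImplicit false

open Finset

namespace Pool.Agent.UBG

open Pool.Agent.BKU Pool.Agent.TwoDens

private def INC_m (a b : ℕ) : ℕ := if a = 0 then (if b = 0 then 0 else 1) else 2

private lemma INC_rk (a b : ℕ) : rk (a + 1) b = rk a b + INC_m a b := by
  rcases Nat.eq_zero_or_pos a with ha | ha <;> rcases Nat.eq_zero_or_pos b with hb | hb
  · subst ha
    subst hb
    simp [rk, INC_m]
  · subst ha
    have hb' : b ≠ 0 := by omega
    simp [rk, INC_m, hb']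
    ring
  · subst hb
    have ha' : a ≠ 0 := by omega
    simp [rk, INC_m, ha']
    ring
  · have ha' : a ≠ 0 := by omega
    have hb' : b ≠ 0 := by omega
    simp [rk, INC_m, ha', hb']
    ring

private lemma INC_comm (a b : ℕ) : rk a b = rk b a := by
  unfold rk
  simp only [and_comm, or_comm, add_comm]

private lemma INC_rk' (a b : ℕ) : rk b (a + 1) = rk b a + INC_m a b := by
  rw [INC_comm b (a + 1), INC_comm b a]
  exact INC_rk a b

variable {δ t h : ℕ} (T : TSys δ t h)

private lemma INC_hit (j : Fin δ) (l : Fin h) (x : Bool) : T.hit j (T.tp j l) x ↔ T.ts j l = x := by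
  constructor
  · rintro ⟨l', h1, h2⟩
    rw [T.inj j l' l h1] at h2
    exact h2
  · intro hx
    exact ⟨l, rfl, hx⟩

private lemma INC_ins (Δ : Finset (Fin δ)) (j : Fin δ) (hj : j ∉ Δ) (i : Fin t) (x : Bool) :
    (T.hit j i x → T.u (insert j Δ) i x = T.u Δ i x + 1) ∧ (¬ T.hit j i x → T.u (insert j Δ) i x = T.u Δ i x) := by
  classical
  unfold TSys.u
  constructor
  · intro hx
    rw [Finset.filter_insert, if_pos hx, Finset.card_insert_of_notMem]
    intro h1
    exact hj (Finset.mem_filter.1 h1).1
  · intro hx
    rw [Finset.filter_insert, if_neg hx]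

private lemma INC_D (Δ : Finset (Fin δ)) (j : Fin δ) (hj : j ∉ Δ) (l : Fin h) :
    rk (T.u (insert j Δ) (T.tp j l) true) (T.u (insert j Δ) (T.tp j l) false) =
      rk (T.u Δ (T.tp j l) true) (T.u Δ (T.tp j l) false) +
        INC_m (T.u Δ (T.tp j l) (T.ts j l)) (T.u Δ (T.tp j l) (!(T.ts j l))) := by
  have h1 := INC_ins T Δ j hj (T.tp j l) true
  have h2 := INC_ins T Δ j hj (T.tp j l) false
  rw [INC_hit] at h1 h2
  cases hx : T.ts j l with
  | true =>
    rw [hx] at h1 h2
    rw [h1.1 rfl, h2.2 (by simp)]
    exact INC_rk _ _
  | false =>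
    rw [hx] at h1 h2
    rw [h1.2 (by simp), h2.1 rfl]
    exact INC_rk' _ _

private lemma INC_D0 (Δ : Finset (Fin δ)) (j : Fin δ) (hj : j ∉ Δ) (i : Fin t) (hi : ∀ l, T.tp j l ≠ i) :
    rk (T.u (insert j Δ) i true) (T.u (insert j Δ) i false) = rk (T.u Δ i true) (T.u Δ i false) := by
  have h1 := (INC_ins T Δ j hj i true).2 (fun ⟨l, h1, _⟩ => hi l h1)
  have h2 := (INC_ins T Δ j hj i false).2 (fun ⟨l, h1, _⟩ => hi l h1)
  rw [h1, h2]

private lemma INC_sum (Δ : Finset (Fin δ)) (j : Fin δ) (hj : j ∉ Δ) :
    ∑ i, rk (T.u (insert j Δ) i true) (T.u (insert j Δ) i false) =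
      ∑ i, rk (T.u Δ i true) (T.u Δ i false) +
        ((∑ l, INC_m (T.u Δ (T.tp j l) (T.ts j l)) (T.u Δ (T.tp j l) (!(T.ts j l))) : ℕ) : ℤ) := by
  classical
  have h1 : ∀ i, rk (T.u (insert j Δ) i true) (T.u (insert j Δ) i false) =
      rk (T.u Δ i true) (T.u Δ i false) +
        (rk (T.u (insert j Δ) i true) (T.u (insert j Δ) i false) - rk (T.u Δ i true) (T.u Δ i false)) :=
    fun i => by ring
  rw [Finset.sum_congr rfl fun i _ => h1 i, Finset.sum_add_distrib]
  congr 1
  rw [← Finset.sum_subset (Finset.subset_univ (univ.image (T.tp j))), Finset.sum_image, Nat.cast_sum]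
  · refine Finset.sum_congr rfl fun l _ => ?_
    rw [INC_D T Δ j hj l]
    ring
  · intro l _ l' _ hl
    exact T.inj j l l' hl
  · intro i _ hi
    rw [INC_D0 T Δ j hj i, sub_self]
    intro l hl
    exact hi (Finset.mem_image.2 ⟨l, Finset.mem_univ _, hl⟩)

private lemma INC_pos (Δ : Finset (Fin δ)) (i : Fin t) (x : Bool) (hu : T.u Δ i x ≠ 0) : ∃ j ∈ Δ, T.hit j i x := by
  classical
  unfold TSys.u at hu
  obtain ⟨j, hj⟩ := Finset.card_pos.1 (Nat.pos_of_ne_zero hu)
  exact ⟨j, (Finset.mem_filter.1 hj).1, (Finset.mem_filter.1 hj).2⟩

theorem thm_INC : St_INC := by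
  classical
  intro δ t h T κ τ hN hO hC hS hK
  have key : ∀ Δ : Finset (Fin δ), Δ.Nonempty →
      ∑ i, rk (T.u Δ i true) (T.u Δ i false) ≤ 2 * (Δ.card : ℤ) - 2 ∧
      (∑ i, rk (T.u Δ i true) (T.u Δ i false) = 2 * (Δ.card : ℤ) - 2 →
        (∀ a ∈ Δ, ∀ b ∈ Δ, κ a = κ b) ∧ ∀ i, ¬ (1 ≤ T.u Δ i true ∧ 1 ≤ T.u Δ i false)) := by
    intro Δ
    induction Δ using Finset.induction_on_max with
    | empty => exact fun hne => absurd hne (by simp)
    | insert j Δ hlt ih =>
      intro _
      have hj : j ∉ Δ := fun hj => lt_irrefl _ (hlt j hj)
      set M : Fin h → ℕ := fun l => INC_m (T.u Δ (T.tp j l) (T.ts j l)) (T.u Δ (T.tp j l) (!(T.ts j l))) with hM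
      have hsum := INC_sum T Δ j hj
      have hMτ : ∀ l, M l ≤ τ j l := by
        intro l
        by_cases h0 : τ j l = 0
        · have h1 : ∀ x, T.u Δ (T.tp j l) x = 0 := by
            intro x
            by_contra hne
            obtain ⟨j', hj', hh⟩ := INC_pos T Δ _ x hne
            exact hN j l h0 j' (hlt j' hj') x hh
          have h2 : M l = 0 := by
            rw [hM]
            show INC_m _ _ = 0
            rw [h1, h1]
            rfl
          omega
        · by_cases h1 : τ j l = 1
          · have h2 : T.u Δ (T.tp j l) (T.ts j l) = 0 := by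
              by_contra hne
              obtain ⟨j', hj', hh⟩ := INC_pos T Δ _ _ hne
              exact hO j l h1 j' (hlt j' hj') hh
            have h3 : M l ≤ 1 := by
              rw [hM]
              show INC_m _ _ ≤ 1
              rw [h2]
              unfold INC_m
              split_ifs <;> omega
            omega
          · have h3 : M l ≤ 2 := by
              rw [hM]
              show INC_m _ _ ≤ 2
              unfold INC_m
              split_ifs <;> omega
            omega
      have hM2 : ∑ l, M l ≤ 2 := (Finset.sum_le_sum fun l _ => hMτ l).trans (hC j)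
      have hcard : ((insert j Δ).card : ℤ) = Δ.card + 1 := by
        rw [Finset.card_insert_of_notMem hj]
        push_cast
        ring
      rw [hsum, hcard]
      have hM2' : ((∑ l, M l : ℕ) : ℤ) ≤ 2 := by exact_mod_cast hM2
      -- the sides of `j`
      have hdb : ∀ i, (1 ≤ T.u (insert j Δ) i true ∧ 1 ≤ T.u (insert j Δ) i false) →
          (1 ≤ T.u Δ i true ∧ 1 ≤ T.u Δ i false) ∨ ∃ l, T.tp j l = i ∧ 1 ≤ M l := by
        intro i ⟨h1, h2⟩
        by_cases hd : 1 ≤ T.u Δ i true ∧ 1 ≤ T.u Δ i false
        · exact Or.inl hd
        right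
        by_cases hl : ∃ l, T.tp j l = i
        · obtain ⟨l, rfl⟩ := hl
          refine ⟨l, rfl, ?_⟩
          have e1 := INC_ins T Δ j hj (T.tp j l) true
          have e2 := INC_ins T Δ j hj (T.tp j l) false
          rw [INC_hit] at e1 e2
          rw [hM]
          show 1 ≤ INC_m _ _
          cases hx : T.ts j l with
          | true =>
            rw [hx] at e1 e2
            rw [e2.2 (by simp)] at h2
            unfold INC_m
            split_ifs with a1 a2
            · rw [show (!true) = false from rfl] at a2
              omega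
            · exact le_refl 1
            · omega
          | false =>
            rw [hx] at e1 e2
            rw [e1.2 (by simp)] at h1
            unfold INC_m
            split_ifs with a1 a2
            · rw [show (!false) = true from rfl] at a2
              omega
            · exact le_refl 1
            · omega
        · exfalso
          have e1 := (INC_ins T Δ j hj i true).2 (fun ⟨l, h1, _⟩ => hl ⟨l, h1⟩)
          have e2 := (INC_ins T Δ j hj i false).2 (fun ⟨l, h1, _⟩ => hl ⟨l, h1⟩)
          rw [e1] at h1
          rw [e2] at h2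
          exact hd ⟨h1, h2⟩
      rcases Δ.eq_empty_or_nonempty with hE | hne
      · subst hE
        have hu0 : ∀ i x, T.u ∅ i x = 0 := by
          intro i x
          unfold TSys.u
          simp
        have hM0 : ∀ l, M l = 0 := by
          intro l
          rw [hM]
          show INC_m _ _ = 0
          rw [hu0, hu0]
          rfl
        have hs0 : ∑ i, rk (T.u ∅ i true) (T.u ∅ i false) = 0 := by
          refine Finset.sum_eq_zero fun i _ => ?_
          rw [hu0, hu0]
          rfl
        have hMs : ∑ l, M l = 0 := Finset.sum_eq_zero fun l _ => hM0 l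
        refine ⟨?_, fun _ => ⟨?_, ?_⟩⟩
        · rw [hs0, hMs]
          simp
        · intro a ha b hb
          rw [Finset.mem_insert] at ha hb
          rcases ha with rfl | ha
          · rcases hb with rfl | hb
            · rfl
            · exact absurd hb (Finset.notMem_empty _)
          · exact absurd ha (Finset.notMem_empty _)
        · intro i hi
          rcases hdb i hi with h1 | ⟨l, _, h1⟩
          · have := hu0 i true
            omega
          · have := hM0 l
            omega
      · obtain ⟨ih1, ih2⟩ := ih hne
        refine ⟨by linarith, fun heq => ?_⟩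
        have hMs : ((∑ l, M l : ℕ) : ℤ) = 2 := by linarith
        have hMs' : ∑ l, M l = 2 := by exact_mod_cast hMs
        obtain ⟨hκ, hnd⟩ := ih2 (by linarith)
        by_cases h2 : ∃ l₀, M l₀ = 2
        · obtain ⟨l₀, hl₀⟩ := h2
          have hoth : ∀ l, l ≠ l₀ → M l = 0 := by
            intro l hl
            have h3 := Finset.add_sum_erase univ M (Finset.mem_univ l₀)
            have h4 : M l ≤ ∑ l' ∈ univ.erase l₀, M l' :=
              Finset.single_le_sum (f := M) (fun _ _ => Nat.zero_le _) (Finset.mem_erase.2 ⟨hl, Finset.mem_univ _⟩)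
            omega
          have hu : T.u Δ (T.tp j l₀) (T.ts j l₀) ≠ 0 := by
            intro h0
            have h3 : M l₀ ≤ 1 := by
              rw [hM]
              show INC_m _ _ ≤ 1
              rw [h0]
              unfold INC_m
              split_ifs <;> omega
            omega
          obtain ⟨j', hj', hh⟩ := INC_pos T Δ _ _ hu
          have hκj : κ j' = κ j := hS j' j (hlt j' hj') ⟨_, _, hh, (INC_hit T j l₀ _).2 rfl⟩
          refine ⟨?_, ?_⟩
          · have hall : ∀ a ∈ insert j Δ, κ a = κ j := by
              intro a ha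
              rw [Finset.mem_insert] at ha
              rcases ha with rfl | ha
              · rfl
              · rw [← hκj]
                exact hκ a ha j' hj'
            intro a ha b hb
            rw [hall a ha, hall b hb]
          · intro i hi
            rcases hdb i hi with h1 | ⟨l, hl, h1⟩
            · exact hnd i h1
            · by_cases hll : l = l₀
              · subst hll
                -- the pair of `l₀`: only one side
                have e1 := INC_ins T Δ j hj (T.tp j l) true
                have e2 := INC_ins T Δ j hj (T.tp j l) false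
                rw [INC_hit] at e1 e2
                have hnd' := hnd (T.tp j l)
                rw [← hl] at hi
                cases hx : T.ts j l with
                | true =>
                  rw [hx] at e1 e2 hu
                  rw [e2.2 (by simp)] at hi
                  exact hnd' ⟨by omega, hi.2⟩
                | false =>
                  rw [hx] at e1 e2 hu
                  rw [e1.2 (by simp)] at hi
                  exact hnd' ⟨hi.1, by omega⟩
              · have := hoth l hll
                omega
        · exfalso
          have hle1 : ∀ l, M l ≤ 1 := by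
            intro l
            have h3 : M l ≤ 2 := by
              rw [hM]
              show INC_m _ _ ≤ 2
              unfold INC_m
              split_ifs <;> omega
            have h4 : M l ≠ 2 := fun h5 => h2 ⟨l, h5⟩
            omega
          have hcd : ∑ l, M l = (univ.filter fun l => M l = 1).card := by
            rw [Finset.card_filter]
            refine Finset.sum_congr rfl fun l _ => ?_
            have := hle1 l
            split_ifs <;> omega
          obtain ⟨l, hl, l', hl', hll⟩ := Finset.one_lt_card.1 (by omega : 1 < (univ.filter fun l => M l = 1).card)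
          have hl1 : M l = 1 := (Finset.mem_filter.1 hl).2
          have hl1' : M l' = 1 := (Finset.mem_filter.1 hl').2
          have hpair : τ j l + τ j l' ≤ 2 := by
            have h3 := Finset.add_sum_erase univ (τ j) (Finset.mem_univ l)
            have h4 : τ j l' ≤ ∑ l'' ∈ univ.erase l, τ j l'' :=
              Finset.single_le_sum (f := τ j) (fun _ _ => Nat.zero_le _)
                (Finset.mem_erase.2 ⟨hll.symm, Finset.mem_univ _⟩)
            have h5 := hC j
            omega
          have h6 := hMτ l
          have h7 := hMτ l'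
          have hopp : ∀ l, M l = 1 → ∃ a ∈ Δ, T.hit a (T.tp j l) (!(T.ts j l)) := by
            intro l hl
            refine INC_pos T Δ _ _ fun h0 => ?_
            have h3 : M l = INC_m (T.u Δ (T.tp j l) (T.ts j l)) (T.u Δ (T.tp j l) (!(T.ts j l))) := rfl
            rw [h0] at h3
            unfold INC_m at h3
            split_ifs at h3 <;> omega
          obtain ⟨a, ha, ha'⟩ := hopp l hl1
          obtain ⟨b, hb, hb'⟩ := hopp l' hl1'
          exact hK j l l' hll (by omega) (by omega) a b (hlt a ha) (hlt b hb) ha' hb' (hκ a ha b hb)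
  intro Δ hΔ
  obtain ⟨h1, h2⟩ := key Δ hΔ
  refine ⟨h1, fun ⟨i, hi⟩ => ?_⟩
  by_contra hcon
  exact (h2 (by omega)).2 i hi

end Pool.Agent.UBG
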