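import Pool.Agent.UBG.St

/-!
# Campaign UBG (MP_303581_co): module IQ, a counting lemma
-/

set_option autoImplicit false

open Finset

namespace Pool.Agent.UBG

/-- (IQ) -/
theorem thm_IQ : St_IQ := by
  classical
  intro Q _ s φ h2 h0 hinj
  have h1 : (univ.filter fun q : Q => s q = 2).card ≤ (univ.filter fun q : Q => s q = 0).card := by
    apply card_le_card_of_injOn φ
    · intro q hq
      have hq' : s q = 2 := by simpa using hq
      have := h0 q hq'
      simpa using this
    · intro q hq q' hq' he
      have hq1 : s q = 2 := by simpa using hq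
      have hq2 : s q' = 2 := by simpa using hq'
      exact hinj q q' hq1 hq2 he
  have h3 : ∑ q, (s q + if s q = 0 then 1 else 0) ≤ ∑ q : Q, (1 + if s q = 2 then 1 else 0) := by
    refine sum_le_sum fun q _ => ?_
    have := h2 q
    split_ifs <;> omega
  rw [sum_add_distrib, sum_add_distrib, sum_boole, sum_boole, sum_const, card_univ, smul_eq_mul,
    mul_one] at h3
  simp only [Nat.cast_id] at h3
  omega

end Pool.Agent.UBG
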