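import Pool.Agent.UBG.St

/-!
# Campaign UBG: module KC, counting lemma for target systems
-/

set_option autoImplicit false

open Finset

namespace Pool.Agent.UBG

open Pool.Agent.BKU

open Classical in
private noncomputable def KC_D {δ t h : ℕ} (T : TSys δ t h) (a : Fin δ → ℕ) (P : Finset (Fin t)) :
    Finset (Fin δ) := univ.filter fun j => 2 ≤ a j ∨ (a j = 1 ∧ ∃ l, T.tp j l ∈ P)

open Classical in
private noncomputable def KC_D1 {δ t h : ℕ} (T : TSys δ t h) (a : Fin δ → ℕ) (P : Finset (Fin t)) :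
    Finset (Fin δ) := (KC_D T a P).filter fun j => a j = 1

private theorem KC_mem {δ t h : ℕ} (T : TSys δ t h) (a : Fin δ → ℕ) (P : Finset (Fin t))
    (j : Fin δ) : j ∈ KC_D T a P ↔ 2 ≤ a j ∨ (a j = 1 ∧ ∃ l, T.tp j l ∈ P) := by
  classical
  unfold KC_D
  rw [mem_filter]
  exact ⟨fun h => h.2, fun h => ⟨mem_univ _, h⟩⟩

private theorem KC_mem1 {δ t h : ℕ} (T : TSys δ t h) (a : Fin δ → ℕ) (P : Finset (Fin t))
    (j : Fin δ) : j ∈ KC_D1 T a P ↔ a j = 1 ∧ ∃ l, T.tp j l ∈ P := by
  classical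
  unfold KC_D1
  rw [mem_filter, KC_mem]
  constructor
  · rintro ⟨h1 | h1, h2⟩
    · omega
    · exact h1
  · intro h1
    exact ⟨Or.inr h1, h1.1⟩

private theorem KC_hitD {δ t h : ℕ} (T : TSys δ t h) (a : Fin δ → ℕ) (P : Finset (Fin t))
    {i : Fin t} (hi : i ∈ P) {x : Bool} {j : Fin δ} (hj : T.hit j i x) (ha : 1 ≤ a j) :
    j ∈ KC_D T a P := by
  rw [KC_mem]
  obtain ⟨l, hl, _⟩ := hj
  by_cases h2 : 2 ≤ a j
  · exact Or.inl h2
  · exact Or.inr ⟨by omega, l, by rw [hl]; exact hi⟩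

/-- `ff + v = 2 u`. -/
private theorem KC_ff {δ t h : ℕ} (T : TSys δ t h) (a : Fin δ → ℕ) (P : Finset (Fin t))
    {i : Fin t} (hi : i ∈ P) (x : Bool) :
    T.ff a i x + T.u (KC_D1 T a P) i x = 2 * T.u (KC_D T a P) i x := by
  classical
  unfold TSys.ff TSys.u
  rw [card_filter, card_filter, ← sum_filter_add_sum_filter_not univ (fun j => j ∈ KC_D1 T a P)
    (fun j => if T.hit j i x then min (a j) 2 else 0)]
  have e1 : ∀ S : Finset (Fin δ), ∑ j ∈ S, (if T.hit j i x then 1 else 0) =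
      ∑ j, if j ∈ S then (if T.hit j i x then 1 else 0) else 0 := by
    intro S
    rw [sum_ite_mem, univ_inter]
  rw [sum_filter_add_sum_filter_not, e1 (KC_D1 T a P), e1 (KC_D T a P), mul_sum, ← sum_add_distrib]
  refine sum_congr rfl fun j _ => ?_
  by_cases hj : T.hit j i x
  · simp only [hj, if_true]
    by_cases h0 : a j = 0
    · have n1 : j ∉ KC_D T a P := by
        rw [KC_mem]
        omega
      have n2 : j ∉ KC_D1 T a P := by
        rw [KC_mem1]
        omega
      rw [if_neg n1, if_neg n2, h0]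
      rfl
    · have m1 : j ∈ KC_D T a P := KC_hitD T a P hi hj (by omega)
      by_cases h1 : a j = 1
      · have m2 : j ∈ KC_D1 T a P := by
          rw [KC_mem1]
          obtain ⟨l, hl, _⟩ := hj
          exact ⟨h1, l, by rw [hl]; exact hi⟩
        rw [if_pos m1, if_pos m2, h1]
        rfl
      · have n2 : j ∉ KC_D1 T a P := by
          rw [KC_mem1]
          omega
        rw [if_pos m1, if_neg n2]
        omega
  · simp [hj]

private theorem KC_le {δ t h : ℕ} (T : TSys δ t h) (a : Fin δ → ℕ) (P : Finset (Fin t))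
    (i : Fin t) (x : Bool) : T.u (KC_D1 T a P) i x ≤ T.u (KC_D T a P) i x := by
  classical
  unfold TSys.u
  refine card_le_card (filter_subset_filter _ ?_)
  unfold KC_D1
  exact filter_subset _ _

private theorem KC_rk (a b : ℕ) : 0 ≤ rk a b := by
  unfold rk
  split_ifs <;> omega

private theorem KC_ww {f g u v u' v' : ℕ} (h1 : f + v = 2 * u) (h2 : g + v' = 2 * u')
    (h3 : v ≤ u) (h4 : v' ≤ u') : - rk u u' + v + v' ≤ ww f g := by
  unfold rk ww
  split_ifs <;> omega

/-- The count. -/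
private theorem KC_main {δ t h : ℕ} (T : TSys δ t h) (a : Fin δ → ℕ) (P : Finset (Fin t)) :
    2 * ((KC_D T a P).card : ℤ) -
      ∑ i, rk (T.u (KC_D T a P) i true) (T.u (KC_D T a P) i false) ≤ T.Cf a P := by
  classical
  have h1 : ((KC_D1 T a P).card : ℤ) ≤ ∑ i ∈ P, ((T.u (KC_D1 T a P) i true : ℤ) +
      T.u (KC_D1 T a P) i false) := by
    have hsub : KC_D1 T a P ⊆ P.biUnion fun i =>
        ((KC_D1 T a P).filter fun j => T.hit j i true) ∪
          ((KC_D1 T a P).filter fun j => T.hit j i false) := by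
      intro j hj
      obtain ⟨_, l, hl⟩ := (KC_mem1 T a P j).1 hj
      rw [mem_biUnion]
      refine ⟨T.tp j l, hl, ?_⟩
      rw [mem_union, mem_filter, mem_filter]
      cases hs : T.ts j l with
      | true => exact Or.inl ⟨hj, l, rfl, hs⟩
      | false => exact Or.inr ⟨hj, l, rfl, hs⟩
    have h2 := (card_le_card hsub).trans card_biUnion_le
    have h3 : ∑ i ∈ P, (((KC_D1 T a P).filter fun j => T.hit j i true) ∪
          ((KC_D1 T a P).filter fun j => T.hit j i false)).card ≤
        ∑ i ∈ P, (T.u (KC_D1 T a P) i true + T.u (KC_D1 T a P) i false) :=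
      sum_le_sum fun i _ => card_union_le _ _
    exact_mod_cast h2.trans h3
  have h2 : 2 * ((KC_D T a P).card : ℤ) - (KC_D1 T a P).card ≤
      ∑ j, ((min (a j) 2 : ℕ) : ℤ) := by
    have e1 : 2 * ((KC_D T a P).card : ℤ) - (KC_D1 T a P).card =
        ∑ j, ((if j ∈ KC_D T a P then 2 else 0) - (if j ∈ KC_D1 T a P then 1 else 0) : ℤ) := by
      rw [sum_sub_distrib]
      congr 1
      · rw [← sum_filter, sum_const, nsmul_eq_mul, mul_comm]
        congr 3
        ext j
        simp
      · rw [← sum_filter, sum_const, nsmul_eq_mul, mul_one]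
        congr 2
        ext j
        simp
    rw [e1]
    refine sum_le_sum fun j _ => ?_
    by_cases m1 : j ∈ KC_D T a P
    · by_cases m2 : j ∈ KC_D1 T a P
      · rw [if_pos m1, if_pos m2, ((KC_mem1 T a P j).1 m2).1]
        norm_num
      · rw [if_pos m1, if_neg m2]
        have : 2 ≤ a j := by
          rcases (KC_mem T a P j).1 m1 with h | h
          · exact h
          · exact absurd ((KC_mem1 T a P j).2 h) m2
        rw [min_eq_right this]
        norm_num
    · have m2 : j ∉ KC_D1 T a P := fun h => m1 ((KC_mem T a P j).2 (Or.inr ((KC_mem1 T a P j).1 h)))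
      rw [if_neg m1, if_neg m2]
      simp
  have h3 : ∑ i ∈ P, (- rk (T.u (KC_D T a P) i true) (T.u (KC_D T a P) i false) +
      T.u (KC_D1 T a P) i true + T.u (KC_D1 T a P) i false) ≤
      ∑ i ∈ P, ww (T.ff a i true) (T.ff a i false) :=
    sum_le_sum fun i hi => KC_ww (KC_ff T a P hi true) (KC_ff T a P hi false) (KC_le T a P i true)
      (KC_le T a P i false)
  have h4 : ∑ i ∈ P, rk (T.u (KC_D T a P) i true) (T.u (KC_D T a P) i false) ≤
      ∑ i, rk (T.u (KC_D T a P) i true) (T.u (KC_D T a P) i false) :=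
    sum_le_sum_of_subset_of_nonneg (subset_univ _) fun i _ _ => KC_rk _ _
  have h5 : ∑ i ∈ P, (- rk (T.u (KC_D T a P) i true) (T.u (KC_D T a P) i false) +
      T.u (KC_D1 T a P) i true + T.u (KC_D1 T a P) i false) =
      - ∑ i ∈ P, rk (T.u (KC_D T a P) i true) (T.u (KC_D T a P) i false) +
      ∑ i ∈ P, ((T.u (KC_D1 T a P) i true : ℤ) + T.u (KC_D1 T a P) i false) := by
    rw [← sum_neg_distrib, ← sum_add_distrib]
    exact sum_congr rfl fun i _ => by ring
  unfold TSys.Cf
  linarith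

private theorem KC_ex {δ t h : ℕ} (T : TSys δ t h) (a : Fin δ → ℕ) (P : Finset (Fin t))
    {i : Fin t} (hi : i ∈ P) {x : Bool} (hf : 1 ≤ T.ff a i x) : 1 ≤ T.u (KC_D T a P) i x := by
  have := KC_ff T a P hi x
  omega

private theorem KC_ne {δ t h : ℕ} (T : TSys δ t h) (a : Fin δ → ℕ) (P : Finset (Fin t))
    {i : Fin t} {x : Bool} (hf : 1 ≤ T.u (KC_D T a P) i x) : (KC_D T a P).Nonempty := by
  classical
  unfold TSys.u at hf
  obtain ⟨j, hj⟩ := card_pos.1 hf
  exact ⟨j, (mem_filter.1 hj).1⟩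

theorem thm_KC : St_KC := by
  intro δ t h T hT a P
  have hm := KC_main T a P
  refine ⟨?_, ?_⟩
  · rintro ⟨i, hi, h1, h2⟩
    have u1 := KC_ex T a P hi h1
    have u2 := KC_ex T a P hi h2
    have := (hT _ (KC_ne T a P u1)).2 ⟨i, u1, u2⟩
    linarith
  · rintro ⟨i, hi, h1 | h1⟩
    · have u1 := KC_ex T a P hi h1
      have := (hT _ (KC_ne T a P u1)).1
      linarith
    · have u1 := KC_ex T a P hi h1
      have := (hT _ (KC_ne T a P u1)).1
      linarith

end Pool.Agent.UBG
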