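import Pool.Agent.UBG.St

/-!
# UBG, RX: edges between the groups and the pairs (helper94)
-/

set_option autoImplicit false

open Finset

namespace Pool.Agent.UBG

open Pool.Agent.BKU Pool.Agent.TwoDens

/-- the indicator of a proposition -/
private noncomputable def RX_i (p : Prop) : ℕ := @ite ℕ p (Classical.propDecidable p) 1 0

private theorem RX_one {p : Prop} (h : p) : RX_i p = 1 := if_pos h

private theorem RX_zero {p : Prop} (h : ¬ p) : RX_i p = 0 := if_neg h

private theorem RX_congr {p q : Prop} (h : p ↔ q) : RX_i p = RX_i q := by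
  rw [propext h]

private theorem RX_and (p q : Prop) : RX_i (p ∧ q) = RX_i p * RX_i q := by
  by_cases hp : p
  · by_cases hq : q
    · rw [RX_one ⟨hp, hq⟩, RX_one hp, RX_one hq]
    · rw [RX_zero fun h => hq h.2, RX_zero hq, mul_zero]
  · rw [RX_zero fun h => hp h.1, RX_zero hp, zero_mul]

private theorem RX_or (p q : Prop) : RX_i (p ∨ q) ≤ RX_i p + RX_i q := by
  by_cases hp : p
  · rw [RX_one (Or.inl hp), RX_one hp]
    omega
  · by_cases hq : q
    · rw [RX_one (Or.inr hq), RX_one hq]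
      omega
    · rw [RX_zero fun h => h.elim hp hq]
      omega

private theorem RX_ex {L : Type} [Fintype L] (p : L → Prop) : RX_i (∃ l, p l) ≤ ∑ l, RX_i (p l) := by
  by_cases h : ∃ l, p l
  · obtain ⟨l, hl⟩ := h
    rw [RX_one ⟨l, hl⟩, ← RX_one hl]
    exact Finset.single_le_sum (f := fun l => RX_i (p l)) (fun _ _ => Nat.zero_le _)
      (Finset.mem_univ l)
  · rw [RX_zero h]
    exact Nat.zero_le _

private theorem RX_ct {V : Type} (F : Finset V) (p : V → Prop) : ct F p = ∑ x ∈ F, RX_i (p x) := by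
  unfold ct
  rw [Finset.card_filter]
  rfl

private theorem RX_mem {V : Type} [Fintype V] (S : Finset V) (f : V → ℕ) :
    ∑ w ∈ S, f w = ∑ w, RX_i (w ∈ S) * f w := by
  rw [← Finset.sum_subset (Finset.subset_univ S) (fun w _ hw => by rw [RX_zero hw, zero_mul])]
  refine Finset.sum_congr rfl fun w hw => ?_
  rw [RX_one hw, one_mul]

private theorem RX_sum {ι W : Type} [Fintype ι] [Fintype W] (F : Finset (ι × W)) (f : ι × W → ℕ) :
    ∑ x ∈ F, f x = ∑ j, ∑ a ∈ sec F j, f (j, a) := by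
  rw [RX_mem, Fintype.sum_prod_type]
  refine Finset.sum_congr rfl fun j _ => ?_
  rw [RX_mem (sec F j)]
  refine Finset.sum_congr rfl fun a _ => ?_
  congr 1
  refine RX_congr ?_
  simp [sec]

private theorem RX_split {X Y : Type} [Fintype X] [Fintype Y] (S : Finset (X ⊕ Y))
    (p : X ⊕ Y → Prop) :
    ct S p = ct (pL S) (fun x => p (Sum.inl x)) + ct (pR S) (fun y => p (Sum.inr y)) := by
  rw [RX_ct, RX_ct, RX_ct, RX_mem, Fintype.sum_sum_type, RX_mem (pL S), RX_mem (pR S)]
  congr 1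
  · refine Finset.sum_congr rfl fun a _ => ?_
    congr 1
    refine RX_congr ?_
    simp [pL]
  · refine Finset.sum_congr rfl fun a _ => ?_
    congr 1
    refine RX_congr ?_
    simp [pR]

section main

variable {δ t h k : ℕ} (T : TSys δ t h)

/-- the centre -/
private noncomputable def RX_A (x : Fin δ × Fin k) (i : Fin t) (s : Bool) : ℕ :=
  RX_i (x.2.val = 0 ∧ T.hit x.1 i s)

/-- the leaves -/
private noncomputable def RX_B (x : Fin δ × Fin k) (i : Fin t) (s : Bool) : ℕ :=
  ∑ l : Fin h, RX_i ((T.tp x.1 l = i ∧ T.ts x.1 l = s) ∧ x.2.val = l.val + 1)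

private theorem RX_sumA (F : Finset (Fin δ × Fin k)) (i : Fin t) (s : Bool) :
    ∑ x ∈ F, RX_A T x i s = T.pf F i s := by
  rw [RX_sum]
  unfold TSys.pf
  refine Finset.sum_congr rfl fun j _ => ?_
  by_cases hj : T.hit j i s
  · rw [if_pos hj]
    unfold TSys.d0
    rw [RX_ct]
    refine Finset.sum_congr rfl fun a _ => RX_congr ?_
    exact ⟨fun h => h.1, fun h => ⟨h, hj⟩⟩
  · rw [if_neg hj]
    refine Finset.sum_eq_zero fun a _ => RX_zero ?_
    exact fun h => hj h.2

private theorem RX_sumB (F : Finset (Fin δ × Fin k)) (i : Fin t) (s : Bool) :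
    ∑ x ∈ F, RX_B T x i s = T.qf F i s := by
  rw [RX_sum]
  unfold TSys.qf RX_B
  refine Finset.sum_congr rfl fun j _ => ?_
  rw [Finset.sum_comm]
  refine Finset.sum_congr rfl fun l _ => ?_
  by_cases hj : T.tp j l = i ∧ T.ts j l = s
  · rw [if_pos hj]
    unfold TSys.zz
    rw [RX_ct]
    refine Finset.sum_congr rfl fun a _ => RX_congr ?_
    exact ⟨fun h => h.2, fun h => ⟨hj, h⟩⟩
  · rw [if_neg hj]
    refine Finset.sum_eq_zero fun a _ => RX_zero ?_
    exact fun h => hj h.1

private theorem RX_pt (x : Fin δ × Fin k) (i : Fin t) (S : Finset (Fin (k - 1) ⊕ Fin k)) :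
    ct S (fun w => T.rX k x (i, w)) ≤ RX_A T x i true * nLo S + RX_B T x i true * nHi S +
      RX_A T x i true * nG S + RX_A T x i false * cLo S + RX_B T x i false * cHi S := by
  have h1 : ct (pL S) (fun b => T.rX k x (i, Sum.inl b))
      ≤ RX_A T x i true * nLo S + RX_B T x i true * nHi S := by
    unfold nLo nHi
    rw [RX_ct, RX_ct, RX_ct, Finset.mul_sum, Finset.mul_sum, ← Finset.sum_add_distrib]
    refine Finset.sum_le_sum fun b _ => ?_
    refine (RX_or _ _).trans (add_le_add ?_ ?_)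
    · unfold RX_A
      rw [← RX_and]
      exact (RX_congr ⟨fun h => ⟨⟨h.1, h.2.1⟩, h.2.2⟩, fun h => ⟨h.1.1, h.1.2, h.2⟩⟩).le
    · refine (RX_ex _).trans ?_
      unfold RX_B
      rw [Finset.sum_mul]
      refine Finset.sum_le_sum fun l _ => ?_
      rw [← RX_and]
      exact (RX_congr ⟨fun h => ⟨⟨⟨h.1, h.2.1⟩, h.2.2.1⟩, h.2.2.2⟩,
        fun h => ⟨h.1.1.1, h.1.1.2, h.1.2, h.2⟩⟩).le
  have h2 : ct (pR S) (fun c => T.rX k x (i, Sum.inr c))
      ≤ RX_A T x i false * cLo S + (RX_A T x i true * nG S + RX_B T x i false * cHi S) := by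
    unfold nG cLo cHi
    rw [RX_ct, RX_ct, RX_ct, RX_ct, Finset.mul_sum, Finset.mul_sum, Finset.mul_sum,
      ← Finset.sum_add_distrib, ← Finset.sum_add_distrib]
    refine Finset.sum_le_sum fun c _ => ?_
    refine (RX_or _ _).trans (add_le_add ?_ ((RX_or _ _).trans (add_le_add ?_ ?_)))
    · unfold RX_A
      rw [← RX_and]
      exact (RX_congr ⟨fun h => ⟨⟨h.1, h.2.1⟩, h.2.2⟩, fun h => ⟨h.1.1, h.1.2, h.2⟩⟩).le
    · unfold RX_A
      rw [← RX_and]
      exact (RX_congr ⟨fun h => ⟨⟨h.1, h.2.1⟩, h.2.2⟩, fun h => ⟨h.1.1, h.1.2, h.2⟩⟩).le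
    · refine (RX_ex _).trans ?_
      unfold RX_B
      rw [Finset.sum_mul]
      refine Finset.sum_le_sum fun l _ => ?_
      rw [← RX_and]
      exact (RX_congr ⟨fun h => ⟨⟨⟨h.1, h.2.1⟩, h.2.2.1⟩, h.2.2.2⟩,
        fun h => ⟨h.1.1.1, h.1.1.2, h.1.2, h.2⟩⟩).le
  rw [RX_split]
  omega

end main

theorem thm_RX : BKU.St_CP → St_RX := by
  intro hCP δ t h k T F P
  have key : ∑ x ∈ F, ct P (T.rX k x) ≤ ∑ i, (T.pf F i true * nLo (sec P i) +
      T.qf F i true * nHi (sec P i) + T.pf F i true * nG (sec P i) +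
      T.pf F i false * cLo (sec P i) + T.qf F i false * cHi (sec P i)) := by
    calc ∑ x ∈ F, ct P (T.rX k x)
        ≤ ∑ x ∈ F, ∑ i, (RX_A T x i true * nLo (sec P i) + RX_B T x i true * nHi (sec P i) +
            RX_A T x i true * nG (sec P i) + RX_A T x i false * cLo (sec P i) +
            RX_B T x i false * cHi (sec P i)) := by
          refine Finset.sum_le_sum fun x _ => ?_
          rw [(hCP (Fin t) (Fin (k - 1) ⊕ Fin k) ⊥ P).2.1]
          exact Finset.sum_le_sum fun i _ => RX_pt T x i _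
      _ = _ := by
          rw [Finset.sum_comm]
          refine Finset.sum_congr rfl fun i _ => ?_
          rw [Finset.sum_add_distrib, Finset.sum_add_distrib, Finset.sum_add_distrib,
            Finset.sum_add_distrib, ← Finset.sum_mul, ← Finset.sum_mul, ← Finset.sum_mul,
            ← Finset.sum_mul, ← Finset.sum_mul, RX_sumA, RX_sumA, RX_sumB, RX_sumB]
  exact_mod_cast key

end Pool.Agent.UBG
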