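import Pool.Agent.UBG.St

/-!
# UBG, module S0: the excess of a pair without flags
-/

set_option autoImplicit false

namespace Pool.Agent.UBG

open Pool.Agent.BKU

theorem thm_S0 : St_GX → St_S0 := by
  intro hGX k h N b c J γ ν lo hi hh hN hk hP
  obtain ⟨⟨hm0, hm8⟩, g1, g2, gk, q1, qk, -, -, -, -, hK⟩ := hGX k h N hh hN hk
  obtain ⟨hJ1, hJb, hbJ, hg1, hn1, hgn, hcc, -, -, -⟩ := hP
  have hH : (1 : ℝ) ≤ (h : ℝ) := by exact_mod_cast hh
  have hHN : (h : ℝ) + 1 ≤ (N : ℝ) := by exact_mod_cast hN
  obtain ⟨m, hm⟩ : ∃ m, m = mu k h := ⟨_, rfl⟩
  rw [← hm] at hm0 hm8 g1 g2 gk q1 qk ⊢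
  have hkn : 900 ≤ k := by nlinarith
  have hkk : 2 * N * (N + 1) + 2 * N + 10 ≤ k := by nlinarith
  have hkr : 2 * (N : ℝ) * (N + 1) + 2 * N + 10 ≤ (k : ℝ) := by exact_mod_cast hkk
  have hk9 : (900 : ℝ) ≤ (k : ℝ) := by exact_mod_cast hkn
  have hbk : b + 1 ≤ k := by omega
  have hbr : (b : ℝ) ≤ (k : ℝ) - 1 := by
    have : ((b + 1 : ℕ) : ℝ) ≤ k := by exact_mod_cast hbk
    push_cast at this
    linarith
  have hgb1 : 1 ≤ b → (k : ℝ) + 1 - m ≤ gg k m b := fun h1 => g1 b (by exact_mod_cast h1) hbr
  have hgb2 : 2 ≤ b → 2 * (k : ℝ) - 2 * m ≤ gg k m b := fun h1 => g2 b (by exact_mod_cast h1) hbr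
  have hcr : c + 1 ≤ k → (c : ℝ) ≤ (k : ℝ) - 1 := by
    intro h1
    have : ((c + 1 : ℕ) : ℝ) ≤ k := by exact_mod_cast h1
    push_cast at this
    linarith
  have hgc1 : 1 ≤ c → c + 1 ≤ k → (k : ℝ) + 1 - m ≤ gg k m c := fun h1 h2 =>
    g1 c (by exact_mod_cast h1) (hcr h2)
  have hgc2 : 2 ≤ c → c + 1 ≤ k → 2 * (k : ℝ) - 2 * m ≤ gg k m c := fun h1 h2 =>
    g2 c (by exact_mod_cast h1) (hcr h2)
  have hg0 : gg k m ((0 : ℕ) : ℝ) = 0 := by unfold gg; simp
  have hJr : (J : ℝ) ≤ N + 1 := by exact_mod_cast hJ1
  have hJ0 : (0 : ℝ) ≤ J := Nat.cast_nonneg J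
  have hnr : (ν : ℝ) ≤ N := by exact_mod_cast hn1
  have hn0 : (0 : ℝ) ≤ ν := Nat.cast_nonneg ν
  have hnJ : (ν : ℝ) * J ≤ N * (N + 1) := mul_le_mul hnr hJr hJ0 (by linarith)
  have hqb : 1 ≤ b → (k : ℝ) - 1 - m ≤ b * (k - b - m) + 2 * J ∧
      (k : ℝ) - 1 - 2 * h - m ≤ b * (k - b - m) := by
    intro h1
    have hb1 : (1 : ℝ) ≤ b := by exact_mod_cast h1
    rcases Nat.lt_or_ge (b + 1) k with h2 | h2
    · have h3 : (b : ℝ) ≤ (k : ℝ) - 2 := by
        have : ((b + 2 : ℕ) : ℝ) ≤ k := by exact_mod_cast h2
        push_cast at this
        linarith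
      have h4 := q1 b hb1 h3
      constructor <;> linarith
    · have h3 : (b : ℝ) = (k : ℝ) - 1 := by
        have h4 : b + 1 = k := le_antisymm hbk h2
        have h5 : ((b + 1 : ℕ) : ℝ) = k := by exact_mod_cast h4
        push_cast at h5
        linarith
      have hJe : J = N + 1 := by omega
      have hJe' : (J : ℝ) = N + 1 := by exact_mod_cast hJe
      have h6 : (b : ℝ) * (k - b - m) = (k : ℝ) - 1 - 2 * h - m := by
        rw [h3]
        linear_combination qk
      rw [h6, hJe']
      constructor <;> linarith
  have hgbq : gg k m b = b * (k - b - m) + 2 * b := by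
    unfold gg
    ring
  rcases Nat.eq_zero_or_pos γ with hγ | hγ
  · subst hγ
    have hT : TT k m b c J ((0 : ℕ) : ℝ) ν = gg k m b + gg k m c - 2 * (ν * J) := by
      unfold TT
      push_cast
      ring
    rw [hT]
    have hck : c + 1 ≤ k := by omega
    refine ⟨?_, ?_, ?_⟩
    · intro hbc
      rcases Nat.eq_zero_or_pos b with hb | hb
      · subst hb
        have hJz : J = 0 := by omega
        subst hJz
        rw [hg0, zero_add]
        have := hgc1 (by omega) hck
        simpa using this
      · rcases Nat.eq_zero_or_pos c with hc | hc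
        · subst hc
          have hνz : ν = 0 := by omega
          subst hνz
          rw [hg0, add_zero]
          have := hgb1 hb
          simpa using this
        · have k1 := hgb1 hb
          have k2 := hgc1 hc hck
          linarith
    · intro hbc
      rcases Nat.eq_zero_or_pos b with hb | hb
      · subst hb
        have hJz : J = 0 := by omega
        subst hJz
        rw [hg0, zero_add]
        have := hgc2 (by omega) hck
        simpa using this
      · rcases Nat.eq_zero_or_pos c with hc | hc
        · subst hc
          have hνz : ν = 0 := by omega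
          subst hνz
          rw [hg0, add_zero]
          have := hgb2 (by omega)
          simpa using this
        · have k1 := hgb1 hb
          have k2 := hgc1 hc hck
          rcases Nat.lt_or_ge ν 2 with hν | hν
          · have hνJ : (ν : ℝ) * J ≤ J := by
              have : (ν : ℝ) ≤ 1 := by
                have : ν ≤ 1 := by omega
                exact_mod_cast this
              nlinarith
            rcases Nat.lt_or_ge b 2 with hb2 | hb2
            · have hJ1' : (J : ℝ) ≤ 1 := by
                have : J ≤ 1 := by omega
                exact_mod_cast this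
              linarith
            · have k4 := hgb2 hb2
              linarith
          · have k4 := hgc2 (by omega) hck
            linarith
    · rcases Nat.eq_zero_or_pos b with hb | hb
      · subst hb
        have hJz : J = 0 := by omega
        subst hJz
        rw [hg0]
        simp
      · have k1 := hgb1 hb
        push_cast
        linarith
  · have hγ1 : γ = 1 := by omega
    subst hγ1
    have hT : TT k m b c J ((1 : ℕ) : ℝ) ν = b * (k - b - m) + 2 * J + (gg k m c + 2 * ν) - 2 * (ν * J) := by
      unfold TT
      rw [hgbq]
      push_cast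
      ring
    rw [hT]
    refine ⟨?_, ?_, ?_⟩
    · intro hbc
      rcases Nat.eq_zero_or_pos ν with hν | hν
      · subst hν
        have hck : c + 1 ≤ k := by omega
        have k2 := hgc1 (by omega) hck
        rcases Nat.eq_zero_or_pos b with hb | hb
        · subst hb
          have hJz : J = 0 := by omega
          subst hJz
          simpa using k2
        · have k1 := (hqb hb).1
          push_cast
          linarith
      · have hgc : 2 * (k : ℝ) - 2 * m ≤ gg k m c + 2 * ν := by
          rcases Nat.lt_or_ge c k with hck | hck
          · have k4 := hgc2 (by omega) (by omega)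
            linarith
          · have hce : c = k := by omega
            have hνe : ν = N := by omega
            rw [hce, hνe, gk]
            linarith
        rcases Nat.eq_zero_or_pos b with hb | hb
        · subst hb
          have hJz : J = 0 := by omega
          subst hJz
          push_cast
          linarith
        · have k1 := (hqb hb).2
          linarith
    · intro hbc
      rcases Nat.eq_zero_or_pos ν with hν | hν
      · subst hν
        have hck : c + 1 ≤ k := by omega
        rcases Nat.eq_zero_or_pos b with hb | hb
        · subst hb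
          have hJz : J = 0 := by omega
          subst hJz
          have k2 := hgc2 (by omega) hck
          simpa using k2
        · have k1 := (hqb hb).1
          have k2 := hgc1 (by omega) hck
          push_cast
          linarith
      · have hgc : 2 * (k : ℝ) - 2 * m ≤ gg k m c + 2 * ν := by
          rcases Nat.lt_or_ge c k with hck | hck
          · have k4 := hgc2 (by omega) (by omega)
            linarith
          · have hce : c = k := by omega
            have hνe : ν = N := by omega
            rw [hce, hνe, gk]
            linarith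
        rcases Nat.eq_zero_or_pos b with hb | hb
        · subst hb
          have hJz : J = 0 := by omega
          subst hJz
          push_cast
          linarith
        · have k1 := (hqb hb).2
          linarith
    · rcases Nat.eq_zero_or_pos b with hb | hb
      · subst hb
        have hJz : J = 0 := by omega
        subst hJz
        rw [hg0]
        simp
      · have k1 := (hqb hb).2
        rw [hgbq]
        push_cast
        linarith

end Pool.Agent.UBG
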