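import Pool.Agent.UBG.St

/-!
# Campaign UBG (MP_303581_co), module S1: one flag (offer 16524, architect helper18)

`thm_S1 : St_GX → St_S0 → St_S1`.
-/

set_option autoImplicit false

open Finset

namespace Pool.Agent.UBG

open Pool.Agent.BKU Pool.Agent.TwoDens

private theorem S1_one (hGX : St_GX) {k h N b c J γ ν lo hi : ℕ} (hh : 1 ≤ h) (hN : h + 1 ≤ N) (hk : 1000 * (N + 2) ^ 2 ≤ k)
    (P : Par k N b c J γ ν lo hi) (hbc : 1 ≤ b + c) (y : ℝ) (hy1 : y ≤ 2 * (b : ℝ)) (hy2 : y ≤ (k : ℝ)) :
    (k : ℝ) - 1 - mu k h ≤ TT k (mu k h) b c J γ ν - y - 2 * (γ : ℝ) := by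
  obtain ⟨⟨m0, m1⟩, g2, g3, gk, e5, e6, g7, g8, e9, e10, hkR⟩ := hGX k h N hh hN hk
  generalize mu k h = μ at *
  have hJ1 := P.J1
  have hJb := P.Jb
  have hbJ := P.bJ
  have hg1 := P.g1
  have hn1 := P.n1
  have hgn := P.gn
  have hcc := P.cc
  have hbk : b + 1 ≤ k := by omega
  have hbkR : (b : ℝ) ≤ (k : ℝ) - 1 := by
    have : ((b + 1 : ℕ) : ℝ) ≤ (k : ℝ) := Nat.cast_le.2 hbk
    push_cast at this
    linarith
  have hhR : (1 : ℝ) ≤ (h : ℝ) := by exact_mod_cast hh
  have hNR : (h : ℝ) + 1 ≤ (N : ℝ) := by exact_mod_cast hN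
  have hJR : (J : ℝ) ≤ (N : ℝ) + 1 := by exact_mod_cast hJ1
  have hJ0 : (0 : ℝ) ≤ (J : ℝ) := Nat.cast_nonneg J
  have hb0 : (0 : ℝ) ≤ (b : ℝ) := Nat.cast_nonneg b
  have hnR : (ν : ℝ) ≤ (N : ℝ) := by exact_mod_cast hn1
  have hn0 : (0 : ℝ) ≤ (ν : ℝ) := Nat.cast_nonneg ν
  have hnJ : (ν : ℝ) * J ≤ (N : ℝ) * ((N : ℝ) + 1) := mul_le_mul hnR hJR hJ0 (by linarith)
  have hk3 : 100 * ((N : ℝ) * N) + 400 * N + 400 ≤ (k : ℝ) := by nlinarith
  have hN2 : (0 : ℝ) ≤ (N : ℝ) * N := by positivity
  have hNN : (N : ℝ) * ((N : ℝ) + 1) = (N : ℝ) * N + N := by ring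
  rw [hNN] at hnJ
  have hc1 : 1 ≤ c → c + 1 ≤ k → (k : ℝ) + 1 - μ ≤ gg k μ c := by
    intro h1 h2
    apply g2
    · exact_mod_cast h1
    · have : ((c + 1 : ℕ) : ℝ) ≤ (k : ℝ) := Nat.cast_le.2 h2
      push_cast at this
      linarith
  have hg00 : gg k μ 0 = 0 := by
    unfold gg
    ring
  have hgb : gg k μ b = b * (k - b - μ) + 2 * b := by
    unfold gg
    ring
  unfold TT
  have hγ : γ = 0 ∨ γ = 1 := by omega
  rcases hγ with rfl | rfl
  · -- no `γ`
    rcases Nat.eq_zero_or_pos b with hb' | hb'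
    · subst hb'
      have h1 := hc1 (by omega) (by omega)
      have hJz : J = 0 := by omega
      subst hJz
      simp only [Nat.cast_zero, hg00] at *
      linarith
    · have hb1 : (1 : ℝ) ≤ (b : ℝ) := by exact_mod_cast hb'
      have key : (k : ℝ) - 1 - μ ≤ gg k μ b - y := by
        rcases Nat.lt_or_ge (k + 1) (2 * b) with h2 | h2
        · have h3 : (k : ℝ) ≤ 2 * (b : ℝ) := by
            have : k ≤ 2 * b := by omega
            exact_mod_cast this
          have h4 := g8 b h3 hbkR
          linarith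
        · have h3 : 2 * (b : ℝ) ≤ (k : ℝ) + 1 := by exact_mod_cast h2
          have h4 := g7 b 1 hb1 h3 (by norm_num) (by linarith)
          linarith
      have key2 : 0 ≤ gg k μ c - 2 * (ν : ℝ) * J := by
        rcases Nat.eq_zero_or_pos ν with hν | hν
        · subst hν
          rcases Nat.eq_zero_or_pos c with hc | hc
          · subst hc
            simp only [Nat.cast_zero, hg00]
            simp
          · have := hc1 hc (by omega)
            simp only [Nat.cast_zero]
            linarith
        · have h1 := hc1 (by omega) (by omega)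
          have h8 : 2 * (ν : ℝ) * J = 2 * ((ν : ℝ) * J) := by ring
          rw [h8]
          linarith
      simp only [Nat.cast_zero] at *
      linarith
  · -- `γ` is one
    rcases Nat.eq_zero_or_pos ν with hν | hν
    · subst hν
      have h1 := hc1 (by omega) (by omega)
      rcases Nat.eq_zero_or_pos b with hb' | hb'
      · subst hb'
        have hJz : J = 0 := by omega
        subst hJz
        simp only [Nat.cast_zero, Nat.cast_one, hg00] at *
        linarith
      · have hb1 : (1 : ℝ) ≤ (b : ℝ) := by exact_mod_cast hb'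
        have key : 0 ≤ (b : ℝ) * (k - b - μ) + 2 * J - y := by
          rcases Nat.lt_or_ge k (2 * b) with h2 | h2
          · rcases Nat.lt_or_ge (b + 1) k with h3 | h3
            · have h4 : (b : ℝ) ≤ (k : ℝ) - 2 := by
                have : ((b + 2 : ℕ) : ℝ) ≤ (k : ℝ) := Nat.cast_le.2 (by omega)
                push_cast at this
                linarith
              have h6 : (k : ℝ) ≤ 2 * (b : ℝ) := by
                have : k ≤ 2 * b := by omega
                exact_mod_cast this
              have h5 := e9 b h6 h4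
              linarith
            · have h4 : b + 1 = k := by omega
              have h5 : (b : ℝ) = (k : ℝ) - 1 := by
                have : ((b + 1 : ℕ) : ℝ) = (k : ℝ) := by rw [h4]
                push_cast at this
                linarith
              have h6 : (J : ℝ) = (N : ℝ) + 1 := by
                have : J = N + 1 := by omega
                exact_mod_cast this
              have h7 : (b : ℝ) * (k - b - μ) = ((k : ℝ) - 1) * (1 - μ) := by
                rw [h5]
                ring
              rw [h7, e6, h6]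
              linarith
          · have h3 : 2 * (b : ℝ) ≤ (k : ℝ) := by exact_mod_cast h2
            have h4 := e10 b 1 hb1 h3 (by norm_num) (by linarith)
            linarith
        rw [hgb]
        simp only [Nat.cast_zero, Nat.cast_one] at *
        linarith
    · have hc2 : 2 * (k : ℝ) - 2 * μ ≤ gg k μ c + 2 * ν := by
        rcases Nat.lt_or_ge c k with h2 | h2
        · have h3 : (2 : ℝ) ≤ (c : ℝ) := by
            have : 2 ≤ c := by omega
            exact_mod_cast this
          have h4 : (c : ℝ) ≤ (k : ℝ) - 1 := by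
            have : ((c + 1 : ℕ) : ℝ) ≤ (k : ℝ) := Nat.cast_le.2 (by omega)
            push_cast at this
            linarith
          have := g3 c h3 h4
          linarith
        · have h3 : c = k := by omega
          have h4 : ν = N := by omega
          rw [h3, h4, gk]
          linarith
      have hkey : 0 ≤ (b : ℝ) * (k - b - μ) - 2 * (ν - 1) * J - y + k - μ - 1 := by
        have h8 : 2 * ((ν : ℝ) - 1) * J = 2 * ((ν : ℝ) * J) - 2 * J := by ring
        rcases Nat.eq_zero_or_pos b with hb' | hb'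
        · subst hb'
          have hJz : J = 0 := by omega
          subst hJz
          simp only [Nat.cast_zero] at *
          linarith
        · rcases Nat.lt_or_ge (b + 1) k with h3 | h3
          · have h4 : (b : ℝ) ≤ (k : ℝ) - 2 := by
              have : ((b + 2 : ℕ) : ℝ) ≤ (k : ℝ) := Nat.cast_le.2 (by omega)
              push_cast at this
              linarith
            have h5 := e5 b (by exact_mod_cast hb') h4
            linarith
          · have h4 : b + 1 = k := by omega
            have h5 : (b : ℝ) = (k : ℝ) - 1 := by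
              have : ((b + 1 : ℕ) : ℝ) = (k : ℝ) := by rw [h4]
              push_cast at this
              linarith
            have h7 : (b : ℝ) * (k - b - μ) = ((k : ℝ) - 1) * (1 - μ) := by
              rw [h5]
              ring
            rw [h7, e6]
            linarith
      rw [hgb]
      simp only [Nat.cast_one]
      have h9 : 2 * ((ν : ℝ) - 1) * J = 2 * (ν : ℝ) * J - 2 * J := by ring
      linarith

private theorem S1_two (hGX : St_GX) (hS0 : St_S0) {k h N b c J γ ν lo hi : ℕ} (hh : 1 ≤ h) (hN : h + 1 ≤ N)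
    (hk : 1000 * (N + 2) ^ 2 ≤ k) (P : Par k N b c J γ ν lo hi) (hbc : 1 ≤ b + c) (z : ℝ) (hz1 : z ≤ 2 * (c : ℝ))
    (hz2 : z ≤ (k : ℝ) + 1) :
    (k : ℝ) - 1 - mu k h ≤ TT k (mu k h) b c J γ ν - z := by
  obtain ⟨-, -, s3⟩ := hS0 k h N b c J γ ν lo hi hh hN hk P
  obtain ⟨⟨m0, m1⟩, g2, g3, gk, e5, e6, g7, g8, e9, e10, hkR⟩ := hGX k h N hh hN hk
  generalize mu k h = μ at *
  have hJ1 := P.J1
  have hJb := P.Jb
  have hbJ := P.bJ
  have hg1 := P.g1
  have hn1 := P.n1
  have hgn := P.gn
  have hcc := P.cc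
  have hbk : b + 1 ≤ k := by omega
  have hbkR : (b : ℝ) ≤ (k : ℝ) - 1 := by
    have : ((b + 1 : ℕ) : ℝ) ≤ (k : ℝ) := Nat.cast_le.2 hbk
    push_cast at this
    linarith
  have hhR : (1 : ℝ) ≤ (h : ℝ) := by exact_mod_cast hh
  have hNR : (h : ℝ) + 1 ≤ (N : ℝ) := by exact_mod_cast hN
  have hg0 : (0 : ℝ) ≤ (γ : ℝ) := Nat.cast_nonneg γ
  have hn0 : (0 : ℝ) ≤ (ν : ℝ) := Nat.cast_nonneg ν
  have hk3 : 100 * ((N : ℝ) * N) + 400 * N + 400 ≤ (k : ℝ) := by nlinarith
  have hN2 : (0 : ℝ) ≤ (N : ℝ) * N := by positivity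
  have hg00 : gg k μ 0 = 0 := by
    unfold gg
    ring
  have hgn0 : (0 : ℝ) ≤ (γ : ℝ) * ν := mul_nonneg hg0 hn0
  have h29 : 2 * (γ : ℝ) * ν = 2 * ((γ : ℝ) * ν) := by ring
  unfold TT
  rw [h29]
  rcases Nat.eq_zero_or_pos c with hc | hc
  · subst hc
    have h1 : γ = 0 := by omega
    have h2 : ν = 0 := by omega
    subst h1
    subst h2
    have h3 := g2 b (by exact_mod_cast (by omega : 1 ≤ b)) hbkR
    simp only [Nat.cast_zero, hg00] at *
    linarith
  · have hc1 : (1 : ℝ) ≤ (c : ℝ) := by exact_mod_cast hc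
    rcases Nat.lt_or_ge (k + 1) (2 * c) with h2 | h2
    · rcases Nat.lt_or_ge c k with h3 | h3
      · have h4 : (c : ℝ) ≤ (k : ℝ) - 1 := by
          have : ((c + 1 : ℕ) : ℝ) ≤ (k : ℝ) := Nat.cast_le.2 (by omega)
          push_cast at this
          linarith
        have h5 : (k : ℝ) ≤ 2 * (c : ℝ) := by
          have : k ≤ 2 * c := by omega
          exact_mod_cast this
        have h6 := g8 c h5 h4
        linarith
      · have h4 : c = k := by omega
        have h5 : ν = N := by omega
        have h6 : γ = 1 := by omega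
        subst h5
        subst h6
        subst h4
        simp only [Nat.cast_one] at *
        linarith
    · have h3 : 2 * (c : ℝ) ≤ (k : ℝ) + 1 := by exact_mod_cast h2
      have h4 := g7 c 1 hc1 h3 (by norm_num) (by linarith)
      linarith

/-- **S1** -/
theorem thm_S1 : St_GX → St_S0 → St_S1 := by
  intro hGX hS0 k h N b c J γ ν lo hi hh hN hk P hbc
  exact ⟨fun y hy1 hy2 => S1_one hGX hh hN hk P hbc y hy1 hy2,
    fun z hz1 hz2 => S1_two hGX hS0 hh hN hk P hbc z hz1 hz2⟩

end Pool.Agent.UBG
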