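import Pool.Agent.UBG.St

/-!
# UBG, S2: excess of a pair, flags on one side (helper72)
-/

set_option autoImplicit false

open Finset

namespace Pool.Agent.UBG

open Pool.Agent.BKU

theorem thm_S2 (hGX : St_GX) (hS0 : St_S0) : St_S2 := by
  intro k h N b c J γ ν lo hi f hh hN hk hP hbc hf2 hfN
  obtain ⟨⟨hμ0, hμ1⟩, G2, G3, G4, G5, G6, G7, G8, G9, G10, hkR⟩ := hGX k h N hh hN hk
  have S3 := (hS0 k h N b c J γ ν lo hi hh hN hk hP).2.2
  obtain ⟨J1, Jb, bJ, g1, n1, gn, cc, lh, lo2, hi2⟩ := hP
  generalize mu k h = μ at hμ0 hμ1 G2 G3 G4 G5 G6 G7 G8 G9 G10 S3 ⊢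
  -- real numbers
  have h0 : (0 : ℝ) ≤ h := Nat.cast_nonneg _
  have b0 : (0 : ℝ) ≤ b := Nat.cast_nonneg _
  have c0 : (0 : ℝ) ≤ c := Nat.cast_nonneg _
  have J0 : (0 : ℝ) ≤ J := Nat.cast_nonneg _
  have n0 : (0 : ℝ) ≤ ν := Nat.cast_nonneg _
  have hN2 : (2 : ℝ) ≤ N := by
    have : 2 ≤ N := by omega
    exact_mod_cast this
  have hhN : (h : ℝ) + 1 ≤ N := by exact_mod_cast hN
  have hf2' : (2 : ℝ) ≤ f := by exact_mod_cast hf2
  have hfN' : (f : ℝ) ≤ N := by exact_mod_cast hfN
  have J1' : (J : ℝ) ≤ (N : ℝ) + 1 := by exact_mod_cast J1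
  have n1' : (ν : ℝ) ≤ N := by exact_mod_cast n1
  have hk1 : (0 : ℝ) < k := by nlinarith
  have hNN : 2 * (N : ℝ) ≤ (N : ℝ) * N := mul_le_mul_of_nonneg_right hN2 (by linarith)
  have hkN : 1000 * ((N : ℝ) * N) + 4000 * N + 4000 ≤ k := by linarith
  have hνJ : 2 * (ν : ℝ) * J ≤ 2 * ((N : ℝ) * N) + 2 * N := by
    have h1 : (ν : ℝ) * J ≤ N * ((N : ℝ) + 1) := mul_le_mul n1' J1' J0 (by linarith)
    linarith
  have hνJ0 : 0 ≤ 2 * (ν : ℝ) * J := by positivity
  have hfk : (2 : ℝ) * k ≤ f * k := mul_le_mul_of_nonneg_right hf2' hk1.le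
  obtain ⟨W, hW⟩ : ∃ W : ℝ, W = (2 - (f : ℝ)) * k + 2 * ((N : ℝ) - h - f) - 1 := ⟨_, rfl⟩
  have hW1 : W ≤ 2 * N := by rw [hW]; linarith
  have hW2 : W = 2 * k - f * k + 2 * N - 2 * h - 2 * f - 1 := by rw [hW]; ring
  rw [← hW]
  have hbk : b + 1 ≤ k := by omega
  have hbk' : (b : ℝ) ≤ (k : ℝ) - 1 := by
    have : (b : ℝ) + 1 ≤ k := by exact_mod_cast hbk
    linarith
  have hgz : gg k μ ((0 : ℕ) : ℝ) = 0 := by unfold gg; simp
  have hgb : 1 ≤ b → (k : ℝ) + 1 - μ ≤ gg k μ b := fun h1 => G2 b (by exact_mod_cast h1) hbk'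
  have hge : gg k μ b = (b : ℝ) * (k - b - μ) + 2 * b := by unfold gg; ring
  constructor
  · intro y hy1 hy2
    have hg01 : γ = 0 ∨ γ = 1 := by omega
    rcases hg01 with hγ | hγ
    · -- the centre is not in the set
      have hT : TT k μ b c J γ ν - y - 2 * f * γ = gg k μ b + gg k μ c - 2 * ν * J - y := by
        unfold TT
        rw [hγ, Nat.cast_zero]
        ring
      rw [hT]
      have hck : c + 1 ≤ k := by omega
      have hck' : (c : ℝ) ≤ (k : ℝ) - 1 := by
        have : (c : ℝ) + 1 ≤ k := by exact_mod_cast hck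
        linarith
      have hi : 0 ≤ gg k μ c - 2 * ν * J := by
        rcases Nat.eq_zero_or_pos c with hc | hc
        · have hn : ν = 0 := by omega
          rw [hc, hgz, hn]
          simp
        · have h1 := G2 c (by exact_mod_cast hc) hck'
          linarith
      rcases Nat.eq_zero_or_pos b with hb | hb
      · have hJ : J = 0 := by omega
        have hc : 1 ≤ c := by omega
        have h1 := G2 c (by exact_mod_cast hc) hck'
        rw [hb, Nat.cast_zero, mul_zero] at hy1
        rw [hb, hgz, hJ, Nat.cast_zero, mul_zero]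
        linarith
      · rcases le_or_gt (2 * (b : ℝ)) ((k : ℝ) + 1) with h1 | h1
        · have h2 := G7 b f (by exact_mod_cast hb) h1 (by linarith) hfN'
          linarith
        · have h2 := G8 b (by linarith) hbk'
          linarith
    · -- the centre is in the set
      have hc1 : 1 ≤ c := by omega
      have hP1 : (k : ℝ) + 1 - μ ≤ gg k μ c + 2 * ν ∧
          (1 ≤ ν → 2 * (k : ℝ) - 2 * μ ≤ gg k μ c + 2 * ν) := by
        rcases Nat.lt_or_ge c k with hc | hc
        · have hck' : (c : ℝ) ≤ (k : ℝ) - 1 := by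
            have : (c : ℝ) + 1 ≤ k := by exact_mod_cast hc
            linarith
          refine ⟨?_, fun hn => ?_⟩
          · have h1 := G2 c (by exact_mod_cast hc1) hck'
            linarith
          · have hc2 : 2 ≤ c := by omega
            have h1 := G3 c (by exact_mod_cast hc2) hck'
            linarith
        · have hck : c = k := by omega
          have hn : ν = N := by omega
          rw [hck, G4, hn]
          refine ⟨?_, fun _ => ?_⟩
          · linarith
          · linarith
      have hT : TT k μ b c J γ ν - y - 2 * f * γ = gg k μ c + 2 * ν + (b : ℝ) * (k - b - μ) +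
          2 * J - 2 * ν * J - y - 2 * f := by
        unfold TT
        rw [hγ, Nat.cast_one, hge]
        ring
      rw [hT]
      rcases Nat.eq_zero_or_pos b with hb | hb
      · have hJ : J = 0 := by omega
        rw [hb, Nat.cast_zero, mul_zero] at hy1
        rw [hb, hJ, Nat.cast_zero, mul_zero, zero_mul]
        linarith [hP1.1]
      · rcases le_or_gt (2 * (b : ℝ)) (k : ℝ) with h1 | h1
        · have h2 := G10 b f (by exact_mod_cast hb) h1 (by linarith) hfN'
          linarith [hP1.1]
        · rcases Nat.lt_or_ge (b + 1) k with hb2 | hb2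
          · have hb3 : (b : ℝ) ≤ (k : ℝ) - 2 := by
              have h3 : b + 2 ≤ k := hb2
              have h4 : (b : ℝ) + 2 ≤ k := by exact_mod_cast h3
              linarith
            have h2 := G9 b h1.le hb3
            linarith [hP1.1]
          · have hJ : J = N + 1 := by omega
            have hbR : (b : ℝ) = (k : ℝ) - 1 := by
              have h3 : b + 1 = k := by omega
              have h4 : (b : ℝ) + 1 = k := by exact_mod_cast h3
              linarith
            have h2 : (b : ℝ) * (k - b - μ) = k - 1 - 2 * h - μ := by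
              rw [hbR, ← G6]
              ring
            rw [h2]
            have hJR : (J : ℝ) = (N : ℝ) + 1 := by rw [hJ]; push_cast; ring
            rcases Nat.eq_zero_or_pos ν with hn | hn
            · rw [hn, Nat.cast_zero, mul_zero, zero_mul]
              have h3 := hP1.1
              rw [hn, Nat.cast_zero, mul_zero] at h3
              linarith
            · have h3 := hP1.2 hn
              linarith
  · intro z hz1 hz2
    have hT : TT k μ b c J γ ν = (gg k μ b - 2 * (γ : ℝ) * ((b : ℝ) - J) - 2 * (ν : ℝ) * J) +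
        gg k μ c + 2 * γ * ν := by
      unfold TT
      ring
    rcases Nat.eq_zero_or_pos c with hc | hc
    · have hγ : γ = 0 := by omega
      have hn : ν = 0 := by omega
      have hb : 1 ≤ b := by omega
      rw [hc, Nat.cast_zero, mul_zero] at hz1
      rw [hT, hc, hγ, hn, hgz]
      simp only [Nat.cast_zero, mul_zero, zero_mul, sub_zero, add_zero]
      linarith [hgb hb]
    · rcases le_or_gt (2 * (c : ℝ)) ((k : ℝ) + 1) with h1 | h1
      · have h2 := G7 c f (by exact_mod_cast hc) h1 (by linarith) hfN'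
        have h3 : 0 ≤ 2 * (γ : ℝ) * ν := by positivity
        linarith
      · rcases Nat.lt_or_ge c k with hck | hck
        · have hck' : (c : ℝ) ≤ (k : ℝ) - 1 := by
            have : (c : ℝ) + 1 ≤ k := by exact_mod_cast hck
            linarith
          have h2 := G8 c (by linarith) hck'
          have h3 : 0 ≤ 2 * (γ : ℝ) * ν := by positivity
          linarith
        · have hck2 : c = k := by omega
          have hγ : γ = 1 := by omega
          have hn : ν = N := by omega
          rw [hT]
          have h4 : gg k μ c = 2 * k - 2 * h - 2 * μ := by rw [hck2, G4]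
          rw [h4]
          have h5 : 2 * (γ : ℝ) * ν = 2 * N := by rw [hγ, hn]; push_cast; ring
          rw [h5]
          linarith

end Pool.Agent.UBG
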