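import Pool.Agent.UBG.St

/-!
# Campaign UBG (MP_303581_co): module S3, flags on both sides of a pair

`TT - y - 2 f γ - z = R + Q`. The three bounds for `R` and the three bounds for `Q` are proved for real numbers; the last step combines them.
-/

set_option autoImplicit false

open Finset

namespace Pool.Agent.UBG

open Pool.Agent.BKU

/-- the combination of the bounds for `R` and `Q` -/
private lemma S3_comb {k M f g R Q : ℝ} (hM : 4 ≤ M) (hk : 1000 * M ^ 2 ≤ k) (hf : 1 ≤ f) (hfM : f ≤ M) (hg : 1 ≤ g)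
    (h : (-2 * f ≤ R ∧ (k - 4 * M ^ 2 ≤ Q ∨ (2 - g) * k - 4 * M ^ 2 ≤ Q)) ∨
      (k - 4 * M ^ 2 ≤ R ∧ (0 ≤ Q ∨ k - 4 * M ^ 2 ≤ Q ∨ (2 - g) * k - 4 * M ^ 2 ≤ Q)) ∨
      ((3 - f) * k - 4 * M ^ 2 ≤ R ∧ (0 ≤ Q ∨ k - 4 * M ^ 2 ≤ Q ∨ (2 - g) * k - 4 * M ^ 2 ≤ Q)) ∨
      ((1 - f) * k - 4 * M ^ 2 ≤ R ∧ (k - 4 * M ^ 2 ≤ Q ∨ (2 - g) * k - 4 * M ^ 2 ≤ Q))) :
    (3 - (f + g)) * k - 10 * M ^ 2 ≤ R + Q := by
  have hM2 : 0 ≤ M ^ 2 := sq_nonneg M
  have hk0 : 0 ≤ k := by nlinarith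
  have h1 : k ≤ f * k := by nlinarith
  have h2 : k ≤ g * k := by nlinarith
  have h3 : 4 * M ≤ M ^ 2 := by nlinarith
  rcases h with ⟨a, b | b⟩ | ⟨a, b | b | b⟩ | ⟨a, b | b | b⟩ | ⟨a, b | b⟩ <;> nlinarith

theorem thm_S3 (hGX : St_GX) : St_S3 := by
  intro k h N b c J γ ν lo hi f g hh hN hk P hbc hf hfN hg hgN y z hy1 hy2 hz1 hz2
  obtain ⟨⟨hμ0, hμ1⟩, -, -, h4, h5, h6, h7, h8, -, h10, h11⟩ := hGX k h N hh hN hk
  obtain ⟨pJ1, pJb, pbJ, pg1, pn1, pgn, pcc, -, -, -⟩ := P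
  set μ := mu k h with hμ
  -- real versions
  have rN : (h : ℝ) + 1 ≤ N := by exact_mod_cast hN
  have rh : (1 : ℝ) ≤ h := by exact_mod_cast hh
  have rf : (1 : ℝ) ≤ f := by exact_mod_cast hf
  have rfN : (f : ℝ) ≤ N := by exact_mod_cast hfN
  have rg : (1 : ℝ) ≤ g := by exact_mod_cast hg
  have rgN : (g : ℝ) ≤ N := by exact_mod_cast hgN
  have rJ1 : (J : ℝ) ≤ N + 1 := by exact_mod_cast pJ1
  have rJ0 : (0 : ℝ) ≤ J := Nat.cast_nonneg J
  have rν1 : (ν : ℝ) ≤ N := by exact_mod_cast pn1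
  have rν0 : (0 : ℝ) ≤ ν := Nat.cast_nonneg ν
  have rνJ : (ν : ℝ) * J ≤ N * (N + 1) := mul_le_mul rν1 rJ1 rJ0 (by linarith)
  have rνJ0 : 0 ≤ (ν : ℝ) * J := mul_nonneg rν0 rJ0
  have rM : (4 : ℝ) ≤ (N : ℝ) + 2 := by linarith
  have rk0 : (16000 : ℝ) ≤ k := by nlinarith
  have kN : 2 * N + 8 ≤ k := by nlinarith
  -- the bounds for the part of B
  have hR : (b = 0 ∧ -2 * (f : ℝ) ≤ gg k μ b - 2 * (γ : ℝ) * ((b : ℝ) - J) - 2 * (ν : ℝ) * J - y - 2 * f * γ) ∨
      (k : ℝ) - 4 * ((N : ℝ) + 2) ^ 2 ≤ gg k μ b - 2 * (γ : ℝ) * ((b : ℝ) - J) - 2 * (ν : ℝ) * J - y - 2 * f * γ ∨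
      (γ = 0 ∧ (3 - (f : ℝ)) * k - 4 * ((N : ℝ) + 2) ^ 2 ≤
        gg k μ b - 2 * (γ : ℝ) * ((b : ℝ) - J) - 2 * (ν : ℝ) * J - y - 2 * f * γ) ∨
      (γ = 1 ∧ (1 - (f : ℝ)) * k - 4 * ((N : ℝ) + 2) ^ 2 ≤
        gg k μ b - 2 * (γ : ℝ) * ((b : ℝ) - J) - 2 * (ν : ℝ) * J - y - 2 * f * γ) := by
    rcases Nat.eq_zero_or_pos b with hb0 | hb0
    · left
      refine ⟨hb0, ?_⟩
      subst hb0
      have hJ : J = 0 := by omega
      subst hJ
      have e : gg (k : ℕ) μ ((0 : ℕ) : ℝ) = 0 := by simp [gg]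
      rw [e]
      push_cast
      push_cast at hy1
      have rγ : (γ : ℝ) ≤ 1 := by exact_mod_cast pg1
      nlinarith
    · have rb : (1 : ℝ) ≤ b := by exact_mod_cast hb0
      have hγ : γ = 0 ∨ γ = 1 := by omega
      by_cases hb2 : 2 * b ≤ k
      · right; left
        have rb2 : 2 * (b : ℝ) ≤ k := by exact_mod_cast hb2
        rcases hγ with rfl | rfl
        · have := h7 b f rb (by linarith) (by linarith) rfN
          push_cast
          nlinarith
        · have := h10 b f rb rb2 (by linarith) rfN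
          have e : gg k μ b = b * (k - b - μ) + 2 * b := by unfold gg; ring
          rw [e]
          push_cast
          nlinarith
      · have hb3 : k ≤ 2 * b := by omega
        have rb3 : (k : ℝ) ≤ 2 * b := by exact_mod_cast hb3
        have hb4 : b + 1 ≤ k := by omega
        have rb4 : (b : ℝ) ≤ (k : ℝ) - 1 := by
          have : (b : ℝ) + 1 ≤ k := by exact_mod_cast hb4
          linarith
        rcases hγ with rfl | rfl
        · right; right; left
          refine ⟨rfl, ?_⟩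
          have := h8 b rb3 rb4
          push_cast
          nlinarith
        · right; right; right
          refine ⟨rfl, ?_⟩
          have e : gg k μ b = b * (k - b - μ) + 2 * b := by unfold gg; ring
          have hb5 : (k : ℝ) - 1 - 2 * h - μ ≤ b * (k - b - μ) := by
            rcases Nat.lt_or_ge (b + 1) k with hb6 | hb6
            · have : (b : ℝ) + 2 ≤ k := by exact_mod_cast hb6
              have := h5 b rb (by linarith)
              linarith
            · have hb7 : (b : ℝ) = (k : ℝ) - 1 := by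
                have : (k : ℝ) ≤ (b : ℝ) + 1 := by exact_mod_cast hb6
                linarith
              rw [hb7]
              have e2 : ((k : ℝ) - 1) * (k - (k - 1) - μ) = ((k : ℝ) - 1) * (1 - μ) := by ring
              rw [e2, h6]
          rw [e]
          push_cast
          nlinarith
  -- the bounds for the part of C
  have hQ : (c = 0 ∧ 0 ≤ gg k μ c + 2 * γ * ν - z) ∨
      (1 ≤ c ∧ ((k : ℝ) - 4 * ((N : ℝ) + 2) ^ 2 ≤ gg k μ c + 2 * γ * ν - z ∨
        (2 - (g : ℝ)) * k - 4 * ((N : ℝ) + 2) ^ 2 ≤ gg k μ c + 2 * γ * ν - z)) := by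
    rcases Nat.eq_zero_or_pos c with hc0 | hc0
    · left
      refine ⟨hc0, ?_⟩
      subst hc0
      have e1 : γ = 0 := by omega
      have e2 : ν = 0 := by omega
      subst e1 e2
      have e : gg (k : ℕ) μ ((0 : ℕ) : ℝ) = 0 := by simp [gg]
      rw [e]
      push_cast
      push_cast at hz1
      linarith
    · right
      refine ⟨hc0, ?_⟩
      have rc : (1 : ℝ) ≤ c := by exact_mod_cast hc0
      have rγν : 0 ≤ (γ : ℝ) * ν := mul_nonneg (Nat.cast_nonneg γ) rν0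
      by_cases hc2 : 2 * c ≤ k + 1
      · left
        have rc2 : 2 * (c : ℝ) ≤ (k : ℝ) + 1 := by exact_mod_cast hc2
        have := h7 c g rc rc2 (by linarith) rgN
        nlinarith
      · right
        have hc3 : k ≤ 2 * c := by omega
        have rc3 : (k : ℝ) ≤ 2 * c := by exact_mod_cast hc3
        have hc5 : 2 * (k : ℝ) - 2 * h - 2 * μ ≤ gg k μ c := by
          rcases Nat.lt_or_ge c k with hc6 | hc6
          · have : (c : ℝ) + 1 ≤ k := by exact_mod_cast hc6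
            have := h8 c rc3 (by linarith)
            linarith
          · have hc7 : c = k := by omega
            rw [hc7, h4]
        nlinarith
  have key := S3_comb (k := k) (M := (N : ℝ) + 2) (f := f) (g := g)
    (R := gg k μ b - 2 * (γ : ℝ) * ((b : ℝ) - J) - 2 * (ν : ℝ) * J - y - 2 * f * γ)
    (Q := gg k μ c + 2 * γ * ν - z) rM h11 rf (by linarith) rg (by
      rcases hQ with ⟨hc0, q⟩ | ⟨hc1, q⟩
      · rcases hR with ⟨hb0, r⟩ | r | ⟨hγ, r⟩ | ⟨hγ, r⟩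
        · omega
        · exact Or.inr (Or.inl ⟨r, Or.inl q⟩)
        · exact Or.inr (Or.inr (Or.inl ⟨r, Or.inl q⟩))
        · omega
      · rcases hR with ⟨hb0, r⟩ | r | ⟨hγ, r⟩ | ⟨hγ, r⟩
        · exact Or.inl ⟨r, q⟩
        · exact Or.inr (Or.inl ⟨r, Or.inr q⟩)
        · exact Or.inr (Or.inr (Or.inl ⟨r, Or.inr q⟩))
        · exact Or.inr (Or.inr (Or.inr ⟨r, q⟩)))
  have e : TT k μ b c J γ ν - y - 2 * f * γ - z =
      (gg k μ b - 2 * (γ : ℝ) * ((b : ℝ) - J) - 2 * (ν : ℝ) * J - y - 2 * f * γ) + (gg k μ c + 2 * γ * ν - z) := by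
    unfold TT
    ring
  rw [e]
  exact key

end Pool.Agent.UBG
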