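import Pool.Agent.UBG.Defs
import Pool.Agent.BKU.St

/-!
# Campaign UBG (MP_303581_co): statements of the modules

The general upper bound for the upper half of the residues (architect helper18, mathematics helper71). Every `St_X` is a statement with its
complete proof in the docstring. A module proves `thm_X : St_A → St_B → ... → St_X`: the statements named after `Uses` in the docstring are
hypotheses, in that order (leave out what is not used). The statements `BKU.St_JN`, `BKU.St_CP`, `BKU.St_ST`, `BKU.St_PP`, `BKU.St_GB`,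
`BKU.St_ARD` of `Pool/Agent/BKU/St.lean` (proved there) are used as hypotheses too, with their names. The arithmetic (S0) - (S3) was checked by a program.
Notation: `μ = mu k h`, so `μ (k - 2) = 2 h`; `g x = gg k μ x = x (k + 2 - x - μ)`.
-/

set_option autoImplicit false

open Finset

namespace Pool.Agent.UBG

open Pool.Agent.BKU Pool.Agent.TwoDens

/-! ### Target systems -/

/-- (INC) The incremental criterion, `τ j l`: 0 = new pair, 1 = only the other side of the pair was used before, 2 = shared target.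
PROOF. Write `σ Δ = ∑ i, rk (u Δ i true) (u Δ i false)`. Claim: for every nonempty `Δ`: `σ Δ ≤ 2 |Δ| - 2`, and if `σ Δ = 2 |Δ| - 2` then `κ` is constant on `Δ`
and there is no `i` with `1 ≤ u Δ i true`, `1 ≤ u Δ i false`. (This is `Good`.) Induction on `|Δ|`, `j = max Δ`, `Δ₀ = Δ.erase j`.
`Δ₀` empty: all `u` are at most 1 and the targets of `j` are in different pairs (`inj`): `σ = 0`. Otherwise let `(i, x)` be the target `l` of `j`, `a = u Δ₀ i x`,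
`b = u Δ₀ i (!x)`; adding `j` changes the term of `i` by `m l = 0` if `a = b = 0`, `1` if `a = 0 < b`, `2` if `1 ≤ a`; the pairs which are no target of `j` do not change;
so `σ Δ = σ Δ₀ + ∑ l, m l` (the `tp j l` are different). `m l ≤ τ j l`: hypotheses hN, hO, so `∑ m l ≤ 2`, `σ Δ ≤ 2 |Δ₀| - 2 + 2`. Equality: then `σ Δ₀ = 2 |Δ₀| - 2`
and `∑ m l = 2`, so `κ` is constant on `Δ₀` and `Δ₀` has no double pair. If some `m l = 2`, then `j` shares the target with a `j' ∈ Δ₀` (hS: `κ j = κ j'`), `b = 0`,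
`τ j l ≥ 2`, all other `τ j l'` are `0` (new pairs), so `Δ` has no double pair. Otherwise there are `l ≠ l'` with `m l = m l' = 1`, so `τ j l = τ j l' = 1`, there are
`a, b ∈ Δ₀` as in hK with `κ a = κ b`: contradiction. -/
def St_INC : Prop := ∀ (δ t h : ℕ) (T : TSys δ t h) (κ : Fin δ → ℕ) (τ : Fin δ → Fin h → ℕ),
  (∀ j l, τ j l = 0 → ∀ j', j' < j → ∀ x, ¬ T.hit j' (T.tp j l) x) →
  (∀ j l, τ j l = 1 → ∀ j', j' < j → ¬ T.hit j' (T.tp j l) (T.ts j l)) →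
  (∀ j, ∑ l, τ j l ≤ 2) →
  (∀ j' j, j' < j → T.sh j' j → κ j' = κ j) →
  (∀ j l l', l ≠ l' → τ j l = 1 → τ j l' = 1 → ∀ a b, a < j → b < j →
    T.hit a (T.tp j l) (!(T.ts j l)) → T.hit b (T.tp j l') (!(T.ts j l')) → κ a ≠ κ b) →
  T.Good

/-- (TA) Uses INC. One or two groups. PROOF. `tp j l = l` and `ts = true` for `j = 0`; for `j = 1`: `tp 1 0 = 0`, `ts 1 0 = false`, `tp 1 l = h - 1 + l`, `ts 1 l = true`
for `l ≥ 1` (`< 2 h - 1 ≤ t`). `κ j = j`, `τ 0 l = 0`, `τ 1 0 = 1`, `τ 1 l = 0` for `l ≥ 1`. (Or check `Good` directly: `σ` is `0` or `1`.) -/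
def St_TA : Prop := ∀ δ t h : ℕ, 2 ≤ h → ((δ = 1 ∧ h ≤ t) ∨ (δ = 2 ∧ 2 * h ≤ t + 1)) → ∃ T : TSys δ t h, T.Good

/-- (TB) Uses INC. `h ≥ 4`. PROOF. `tp j l = 3 + (h - 2) j + (l - 2)`, side `true`, for `l ≥ 2`. `l = 0`: `tp 0 0 = 0`, side `true`;
`tp j 0 = 3 + (h - 2) (j - 1)`, side `false`, for `j ≥ 1` (the first own pair of `j - 1`). `l = 1`: `tp 0 1 = 1`, `tp 1 1 = 2`, side `true`; `tp j 1 = 3 + (h - 2) (j - 2) + 1`,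
side `false`, for `j ≥ 2` (the second own pair of `j - 2`). All are `< 3 + (h - 2) δ ≤ t`. `κ j = j`, `τ j l = 0` for `l ≥ 2` and for side `true`, `τ j l = 1` for side
`false`. The pair `3 + (h - 2) j' + r`, `r < h - 2`, is used by: `j'` (side `true`), `j' + 1` (side `false`, if `r = 0`), `j' + 2` (side `false`, if `r = 1`); the pairs `0, 1, 2`
by one group each. (Uniqueness: `(h - 2) j + r = (h - 2) j' + r'`, `r, r' < h - 2`, gives `j = j'`, `r = r'`.) hK: `a = j - 1`, `b = j - 2` or the other way. No two groups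
share a target. -/
def St_TB : Prop := ∀ δ t h : ℕ, 3 ≤ δ → 4 ≤ h → (h - 2) * δ + 3 ≤ t → ∃ T : TSys δ t h, T.Good

/-- (TC) Uses INC. `h = 2`. PROOF. `tp j 0 = 0` if `j % 3 = 0` or `j = 1`, `2` if `j % 3 = 1`, `j ≠ 1`, `2 (j / 3) + 1` if `j % 3 = 2`; `ts j 0 = false` iff `j = 1` or
`j % 3 = 2`. `tp j 1 = 2 (j / 3) + 1` if `j % 3 = 0`, `2 (j / 3) + 2` otherwise; `ts j 1 = false` iff `j % 3 = 2`. `κ j = 0, 1, j` for `j % 3 = 0, 1, 2`.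
`τ 0 l = 0`; `τ 1 0 = 1`, `τ 1 1 = 0`; `j % 3 = 2`: `τ j 0 = τ j 1 = 1`; otherwise (`j % 3 ≤ 1`, `j ≥ 3`) `τ j 0 = 2`, `τ j 1 = 0`. The targets `(0, true)`: all `j % 3 = 0`; `(0, false)`:
`j = 1`; `(2, true)`: all `j % 3 = 1`; `(2 q + 1, true)`: `3 q`; `(2 q + 2, true)`: `3 q + 1`; `(2 q + 1, false)`, `(2 q + 2, false)`: `3 q + 2`. All by `omega` after unfolding
and splitting the cases. `tp < t`: `2 δ + 3 ≤ 3 t`. -/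
def St_TC : Prop := ∀ δ t : ℕ, 3 ≤ δ → 2 * δ + 3 ≤ 3 * t → ∃ T : TSys δ t 2, T.Good

/-- (TD) Uses INC. `h = 3`. PROOF. The targets (`+` is side `true`, `-` is side `false`): `j = 0`: `0+ 1+ 2+`; `1`: `0- 3+ 4+`; `2`: `1- 3- 5+`; `3`: `2- 4- 6+`; `4`: `5- 6- 7+`;
`j = 5 + 3 i`: `0+`, `(8 + 4 i)+`, `(9 + 4 i)+`; `j = 6 + 3 i`: `(7 + 4 i)-`, `(8 + 4 i)-`, `(10 + 4 i)+`; `j = 7 + 3 i`: `(9 + 4 i)-`, `(10 + 4 i)-`, `(11 + 4 i)+`.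
`τ` is `1` for `-`, `2` for the first target of `5 + 3 i`, `0` for the others. `κ j = 0` if `j ≥ 5` and `j % 3 = 2`, otherwise `κ j = j`. The other side of the `-` targets:
`0: 0`, `1: 0`, `3: 1`, `2: 0`, `4: 1`, `5: 2`, `6: 3`, `7 + 4 i`: the group `4 + 3 i`, `8 + 4 i`, `9 + 4 i`: `5 + 3 i`, `10 + 4 i`: `6 + 3 i`; only `0+` is shared (by `0` and the
`5 + 3 i`). `tp < t` from the hypotheses. All by `omega` after unfolding and splitting the cases. -/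
def St_TD : Prop := ∀ δ t : ℕ, 3 ≤ δ → 4 * δ + 3 ≤ 3 * t → δ + 3 ≤ t → ¬ (6 ≤ δ ∧ 3 ∣ δ ∧ 3 * t = 4 * δ + 3) →
  ∃ T : TSys δ t 3, T.Good

/-! ### Counting edges -/

/-- (GDE) Uses BKU.CP. PROOF. `E2 = ∑ x ∈ F, ∑ y ∈ F, [Adj x y]`, and `[Adj x y] ≤ [x.1 = y.1 and (st k h).Adj x.2 y.2] + [x.1 ≠ y.1, x.2 = 0, y.2 = 0]`. The first sum is
`E2 (cp (Fin δ) (st k h)) F` (`BKU.CP` (1)); the second one is the number of the pairs `(x, y)`, and `(x, y) ↦ (x.1, y.1)` is injective on these pairs with values in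
`W.offDiag`, `W = {j | 1 ≤ (sec F j).card}`. -/
def St_GDE : Prop := ∀ (δ t h k : ℕ) (T : TSys δ t h) (F : Finset (Fin δ × Fin k)),
  E2 (T.gD k) F ≤ ∑ j, E2 (st k h) (sec F j) +
    (nz fun j => (sec F j).card : ℝ) * ((nz fun j => (sec F j).card : ℝ) - 1)

/-- (RX) Uses BKU.CP. PROOF. For `x = (j, a)`: `ct P (rX k x) = ∑ i, ct (sec P i) (fun w => rX k x (i, w))` (`BKU.CP` (2)), and `ct (sec P i) (...)` is at most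
`[a = 0] [hit j i true] (nLo + nG) + [a = 0] [hit j i false] cLo + ∑ l, [a = l + 1] [tp j l = i] ([ts j l = true] nHi + [ts j l = false] cHi)` (of `sec P i`): split
`Fin (k - 1) ⊕ Fin k` and the cases of `rX`. Sum over `x ∈ F`: `∑ x ∈ F, φ x = ∑ j, ∑ a ∈ sec F j, φ (j, a)`, `∑ a ∈ sec F j, [a = 0] = d0 F j`,
`∑ a ∈ sec F j, [a = l + 1] = zz F j l`, and exchange `j` and `i`. -/
def St_RX : Prop := ∀ (δ t h k : ℕ) (T : TSys δ t h) (F : Finset (Fin δ × Fin k)) (P : Finset (Fin t × (Fin (k - 1) ⊕ Fin k))),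
  ∑ x ∈ F, (ct P (T.rX k x) : ℝ) ≤ ∑ i, ((T.pf F i true : ℝ) * nLo (sec P i) + (T.qf F i true : ℝ) * nHi (sec P i) +
    (T.pf F i true : ℝ) * nG (sec P i) + (T.pf F i false : ℝ) * cLo (sec P i) + (T.qf F i false : ℝ) * cHi (sec P i))

/-- (FL) PROOF. For every `j`: `[hit j i x] d0 F j + ∑ l, [tp j l = i ∧ ts j l = x] zz F j l ≤ [hit j i x] min |sec F j| 2`: if `hit j i x` is false all terms are `0`; otherwise there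
is exactly one `l` with `tp j l = i` (`inj`), and `d0 F j ≤ 1`, `zz F j l ≤ 1`, `d0 F j + zz F j l ≤ |sec F j|` (disjoint subsets). (2) each summand is at most `2`. (3) the
two halves of `C`. -/
def St_FL : Prop := (∀ (δ t h k : ℕ) (T : TSys δ t h) (F : Finset (Fin δ × Fin k)) (i : Fin t) (x : Bool),
    T.pf F i x + T.qf F i x ≤ T.ff (fun j => (sec F j).card) i x) ∧
  (∀ (δ t h : ℕ) (T : TSys δ t h) (a : Fin δ → ℕ) (i : Fin t) (x : Bool), T.ff a i x ≤ 2 * δ) ∧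
  ∀ (k : ℕ) (S : Finset (Fin (k - 1) ⊕ Fin k)), cLo S + cHi S = nC S ∧ 2 * cLo S ≤ k ∧ 2 * cHi S ≤ k + 1

/-- (ED) Uses BKU.JN, BKU.CP, BKU.ST, BKU.PP, GDE, RX. The excess of `F`, for every real `μ`. PROOF. `gT k N = jn (gD k) (cp ..) (rX k)`; `BKU.JN`, GDE for `pL F`, `BKU.CP` (1) for
`pR F`, RX; `BKU.ST` (2) for `sec (pL F) j`, `BKU.PP` (with `N` for `h`) for `sec (pR F) i`; `|F| = ∑ j, |sec (pL F) j| + ∑ i, |sec (pR F) i|` (`BKU.JN` (2), `BKU.CP` (3), and `PP` (3)).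
`(k + 1 - μ) x - (x x - x) = gg k μ x`. -/
def St_ED : Prop := ∀ (δ t h k N : ℕ) (T : TSys δ t h) (μ : ℝ) (F : Finset ((Fin δ × Fin k) ⊕ (Fin t × (Fin (k - 1) ⊕ Fin k)))),
  h + 1 ≤ k → N + 2 ≤ k →
  ∑ j, (gg k μ ((sec (pL F) j).card : ℝ) + 2 * (ct (sec (pL F) j) (fun a => a.val = 0) : ℝ) *
      (ct (sec (pL F) j) (fun a => 1 ≤ a.val ∧ a.val ≤ h) : ℝ)) +
    ∑ i, SS k μ (nB (sec (pR F) i)) (nC (sec (pR F) i)) (nJ N (sec (pR F) i)) (nG (sec (pR F) i)) (nN N (sec (pR F) i))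
      (nLo (sec (pR F) i)) (nHi (sec (pR F) i)) (cLo (sec (pR F) i)) (cHi (sec (pR F) i))
      (T.pf (pL F) i true) (T.qf (pL F) i true) (T.pf (pL F) i false) (T.qf (pL F) i false) -
    (nz fun j => (sec (pL F) j).card : ℝ) * ((nz fun j => (sec (pL F) j).card : ℝ) - 1) ≤
  ((k : ℝ) + 1 - μ) * F.card - E2 (T.gT k N) F

/-! ### The excess of a pair: arithmetic -/

/-- (GX) Uses BKU.GB (its statements (1) - (9) for `k`, `h`; `100 (h + 2)^2 ≤ 1000 (N + 2)^2`). PROOF. (1) - (6) are in `BKU.GB`. (7) - (10): the functions are concave in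
`x`: look at the two ends, `nlinarith` with the product of (`x` - left end) and (right end - `x`), or write `x = 1 + y`. (7) `x (k + 2 - x - μ - 2 f)` at `x = 1` and at
`x = (k + 1) / 2`. (8) `x = k / 2`, `x = k - 1`: `g (k - 1) = 3 k - 3 - 2 h - μ`. (9) `x = k / 2`, `x = k - 2`: `(k - 2) (2 - μ) = 2 k - 4 - 2 h`. (10) `x = 1`, `x = k / 2`. (11) the hypothesis. -/
def St_GX : Prop := ∀ k h N : ℕ, 1 ≤ h → h + 1 ≤ N → 1000 * (N + 2) ^ 2 ≤ k →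
  (0 < mu k h ∧ mu k h ≤ 1 / 8) ∧
  (∀ x : ℝ, 1 ≤ x → x ≤ (k : ℝ) - 1 → (k : ℝ) + 1 - mu k h ≤ gg k (mu k h) x) ∧
  (∀ x : ℝ, 2 ≤ x → x ≤ (k : ℝ) - 1 → 2 * (k : ℝ) - 2 * mu k h ≤ gg k (mu k h) x) ∧
  gg k (mu k h) k = 2 * k - 2 * h - 2 * mu k h ∧
  (∀ x : ℝ, 1 ≤ x → x ≤ (k : ℝ) - 2 → (k : ℝ) - 1 - mu k h ≤ x * (k - x - mu k h)) ∧
  ((k : ℝ) - 1) * (1 - mu k h) = k - 1 - 2 * h - mu k h ∧
  (∀ x f : ℝ, 1 ≤ x → 2 * x ≤ (k : ℝ) + 1 → 0 ≤ f → f ≤ N →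
    (k : ℝ) + 1 - mu k h - 2 * f ≤ gg k (mu k h) x - 2 * f * x) ∧
  (∀ x : ℝ, (k : ℝ) ≤ 2 * x → x ≤ (k : ℝ) - 1 → 3 * (k : ℝ) - 4 - 2 * h ≤ gg k (mu k h) x) ∧
  (∀ x : ℝ, (k : ℝ) ≤ 2 * x → x ≤ (k : ℝ) - 2 → 2 * (k : ℝ) - 5 - 2 * h ≤ x * (k - x - mu k h)) ∧
  (∀ x f : ℝ, 1 ≤ x → 2 * x ≤ (k : ℝ) → 0 ≤ f → f ≤ N →
    (k : ℝ) - 1 - mu k h - 2 * f ≤ x * (k - x - mu k h) - 2 * f * x) ∧
  1000 * ((N : ℝ) + 2) ^ 2 ≤ k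

/-- (S0) Uses GX. No flags; and (3) the part of `B` is not negative. PROOF. `T = TT ...`. `c ≤ k`, and `c = k` only if `γ = 1`, `ν = N`; `b ≤ k - 1`, and `b = k - 1` only if
`J = N + 1`. (3) `b = 0`: `J = 0`. `b ≥ 1`: `γ = 0`: `g b - 2 ν J ≥ k + 1 - μ - 2 N (N + 1) ≥ 0`. `γ = 1`: it is `b (k - b - μ) + 2 J - 2 ν J ≥ (k - 1 - 2 h - μ) - 2 N (N + 1) ≥ 0` (GX (5), (6)).
(1), (2): `γ = ν = 0`: `T = g b + g c`, `c ≤ k - 1 - N`: GX (2), (3) (both `≥ 1`: `2 (k + 1 - μ)`). `γ = 0`, `ν ≥ 1`: `1 ≤ c ≤ k - 1`. `b = 0`: `T = g c`. `b ≥ 1`: `ν = 1`, `b = 1`: `J ≤ 1`,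
`T ≥ 2 (k + 1 - μ) - 2`; `ν = 1`, `b ≥ 2`: `T ≥ (2 k - 2 μ) + (k + 1 - μ) - 2 (N + 1)`; `ν ≥ 2`: `c ≥ 2`, `T ≥ (2 k - 2 μ) + (k + 1 - μ) - 2 N (N + 1)`. `γ = 1`, `ν = 0`: `1 ≤ c ≤ k - N`.
`b = 0`: `T = g c`. `b ≥ 1`: `T = b (k - b - μ) + 2 J + g c`, `g c ≥ k + 1 - μ`: `b ≤ k - 2`: GX (5); `b = k - 1`: `J = N + 1`, GX (6). `γ = 1`, `ν ≥ 1`: `c ≥ 2`, `g c + 2 ν ≥ 2 k - 2 μ` (`c ≤ k - 1`: GX (3);
`c = k`: `ν = N`, GX (4)). `b = 0`: clear. `b ≥ 1`: `T = (g c + 2 ν) + b (k - b - μ) - 2 (ν - 1) J`, `b (k - b - μ) ≥ k - 1 - 2 h - μ ≥ 2 N (N + 1)`. -/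
def St_S0 : Prop := ∀ k h N b c J γ ν lo hi : ℕ, 1 ≤ h → h + 1 ≤ N → 1000 * (N + 2) ^ 2 ≤ k → Par k N b c J γ ν lo hi →
  (1 ≤ b + c → (k : ℝ) + 1 - mu k h ≤ TT k (mu k h) b c J γ ν) ∧
  (2 ≤ b + c → 2 * (k : ℝ) - 2 * mu k h ≤ TT k (mu k h) b c J γ ν) ∧
  0 ≤ gg k (mu k h) b - 2 * (γ : ℝ) * ((b : ℝ) - J) - 2 * (ν : ℝ) * J

/-- (S1) Uses GX, S0 (3). One flag. PROOF. (1) `γ = 0`: `b = 0`: `J = 0`, `c ≥ 1`, `T - y ≥ g c`. `b ≥ 1`: `g b - y ≥ k - 1 - μ` (`2 b ≤ k + 1`: GX (7) with `f = 1`; `k ≤ 2 b`: GX (8), `y ≤ k`); `ν = 0`: `g c ≥ 0`;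
`ν ≥ 1`: `c ≥ 1`, `g c - 2 ν J ≥ 0`. `γ = 1` (`c ≥ 1`): let `P = g c + 2 ν`; `P ≥ k + 1 - μ`, and `P ≥ 2 k - 2 μ` if `ν ≥ 1` (as in S0). `b = 0`: `T - y - 2 ≥ P - 2`. `b ≥ 1`:
`T - y - 2 = P + b (k - b - μ) + 2 J - 2 ν J - y - 2`. `ν = 0`: `b (k - b - μ) + 2 J - y ≥ 0`: `2 b ≤ k`: `y ≤ 2 b`, GX (10) with `f = 1`; `k ≤ 2 b`, `b ≤ k - 2`: GX (9), `y ≤ k`; `b = k - 1`: `J = N + 1`, GX (6),
`(k - 1 - 2 h - μ) + 2 (N + 1) - k ≥ 0`. `ν ≥ 1`: at least `(2 k - 2 μ) + (k - 1 - 2 h - μ) - 2 N (N + 1) - k - 2 ≥ k - 1 - μ`. (2) `c = 0`: `γ = ν = 0`, `T - z ≥ g b`, `b ≥ 1`.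
`c ≥ 1`: by S0 (3) `T - z ≥ g c + 2 γ ν - z`: `2 c ≤ k + 1`: GX (7) with `f = 1`; `k ≤ 2 c ≤ 2 (k - 1)`: GX (8), `z ≤ k + 1`; `c = k`: `γ = 1`, `ν = N`: `2 k - 2 h - 2 μ + 2 N - (k + 1) ≥ k - 1 - μ`. -/
def St_S1 : Prop := ∀ k h N b c J γ ν lo hi : ℕ, 1 ≤ h → h + 1 ≤ N → 1000 * (N + 2) ^ 2 ≤ k → Par k N b c J γ ν lo hi → 1 ≤ b + c →
  (∀ y : ℝ, y ≤ 2 * b → y ≤ k → (k : ℝ) - 1 - mu k h ≤ TT k (mu k h) b c J γ ν - y - 2 * γ) ∧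
  ∀ z : ℝ, z ≤ 2 * c → z ≤ (k : ℝ) + 1 → (k : ℝ) - 1 - mu k h ≤ TT k (mu k h) b c J γ ν - z

/-- (S2) Uses GX, S0 (3). `f ≥ 2` flags on one side. PROOF. Let `W` be the left side; `W ≤ 2 N`. `P = g c + 2 ν` as in S1. (1) `γ = 0`: `b = 0`: `J = 0`, `T - y ≥ g c ≥ k + 1 - μ ≥ W`. `b ≥ 1`: `g c - 2 ν J ≥ 0` (it is
`g c` if `ν = 0`), and `g b - y ≥ k + 1 - μ - 2 f` (`2 b ≤ k + 1`: GX (7)) or `≥ 3 k - 4 - 2 h - f k` (`k ≤ 2 b`: GX (8)); both are `≥ W`. `γ = 1`: `P ≥ k + 1 - μ`, `≥ 2 k - 2 μ` if `ν ≥ 1`. `b = 0`: `J = 0`, `y ≤ 0`: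
`≥ k + 1 - μ - 2 f`. `b ≥ 1`: it is `P + b (k - b - μ) + 2 J - 2 ν J - y - 2 f`. `2 b ≤ k`: GX (10): `≥ (k + 1 - μ) + (k - 1 - μ - 2 f) - 2 N (N + 1) - 2 f ≥ W`. `k ≤ 2 b ≤ 2 (k - 2)`: GX (9): `≥ (k + 1 - μ) + (2 k - 5 - 2 h) - f k - 2 N (N + 1) - 2 f ≥ W`.
`b = k - 1`: `J = N + 1`, GX (6): `ν = 0`: `≥ (k + 1 - μ) + (k - 1 - 2 h - μ) + 2 (N + 1) - f k - 2 f = (2 - f) k + 2 (N - h - f) + 2 - 2 μ`; `ν ≥ 1`: `≥ (2 k - 2 μ) + (k - 1 - 2 h - μ) - 2 N (N + 1) - f k - 2 f ≥ W`.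
(2) `c = 0`: `z ≤ 0`, `T ≥ g b`, `b ≥ 1`. `c ≥ 1`: S0 (3): `T - z ≥ g c + 2 γ ν - z`: `2 c ≤ k + 1`: GX (7); `k ≤ 2 c ≤ 2 (k - 1)`: GX (8), `3 k - 4 - 2 h - f (k + 1)`; `c = k`: `γ = 1`, `ν = N`: `2 k - 2 h - 2 μ + 2 N - f (k + 1) ≥ W`. -/
def St_S2 : Prop := ∀ k h N b c J γ ν lo hi f : ℕ, 1 ≤ h → h + 1 ≤ N → 1000 * (N + 2) ^ 2 ≤ k → Par k N b c J γ ν lo hi → 1 ≤ b + c →
  2 ≤ f → f ≤ N →
  (∀ y : ℝ, y ≤ 2 * f * b → y ≤ f * k →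
    (2 - (f : ℝ)) * k + 2 * ((N : ℝ) - h - f) - 1 ≤ TT k (mu k h) b c J γ ν - y - 2 * f * γ) ∧
  ∀ z : ℝ, z ≤ 2 * f * c → z ≤ f * ((k : ℝ) + 1) →
    (2 - (f : ℝ)) * k + 2 * ((N : ℝ) - h - f) - 1 ≤ TT k (mu k h) b c J γ ν - z

/-- (S3) Uses GX. Flags on both sides. PROOF. `TT - y - 2 f γ - z = R + Q`, `R = g b - 2 γ (b - J) - 2 ν J - y - 2 f γ`, `Q = g c + 2 γ ν - z`; `E = 4 (N + 2)^2`. `b = 0`: `J = 0`, `R ≥ - 2 f`. `1 ≤ b`, `2 b ≤ k`: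
`R ≥ b (k - b - μ) - 2 f b - 2 N (N + 1) - 2 f ≥ k - E` (GX (10)). `k ≤ 2 b`: `γ = 0`: `R ≥ 3 k - 4 - 2 h - f k - 2 N (N + 1) ≥ (3 - f) k - E` (GX (8)); `γ = 1`: `R ≥ (k - 1 - 2 h - μ) - f k - 2 N (N + 1) - 2 f ≥ (1 - f) k - E` (GX (5), (6)), so
`R ≥ (3 - 2 γ - f) k - E`. `c = 0`: `γ = 0`, `Q ≥ 0`. `1 ≤ c`, `2 c ≤ k + 1`: `Q ≥ k + 1 - μ - 2 g ≥ k - E` (GX (7)). `k + 1 < 2 c`: `g c + 2 γ ν ≥ 2 k - 2 h - 2 μ` (`c ≤ k - 1`: GX (8); `c = k`: GX (4)), `Q ≥ (2 - g) k - E`.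
All combinations (except `b = c = 0`; `γ = 1` needs `c ≥ 1`) give at least `(3 - f - g) k - 2 E`, as `k ≥ 0`, `f, g ≥ 1`; `2 E ≤ 10 (N + 2)^2`. -/
def St_S3 : Prop := ∀ k h N b c J γ ν lo hi f g : ℕ, 1 ≤ h → h + 1 ≤ N → 1000 * (N + 2) ^ 2 ≤ k → Par k N b c J γ ν lo hi → 1 ≤ b + c →
  1 ≤ f → f ≤ N → 1 ≤ g → g ≤ N → ∀ y z : ℝ, y ≤ 2 * f * b → y ≤ f * k → z ≤ 2 * g * c → z ≤ g * ((k : ℝ) + 1) →
    (3 - ((f : ℝ) + g)) * k - 10 * ((N : ℝ) + 2) ^ 2 ≤ TT k (mu k h) b c J γ ν - y - 2 * f * γ - z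

/-- (WP) Uses S0, S1, S2, S3. PROOF. Put `y = 2 (pB lo + qB hi)`, `z = 2 (pC c1 + qC c2)`: `y ≤ 2 f b`, `y ≤ f k` (`lo + hi = b`, `2 lo, 2 hi ≤ k`, `pB + qB ≤ f`), `z ≤ 2 g c`, `z ≤ g (k + 1)`; `2 pB γ ≤ 2 f γ`.
`SS = TT - y - 2 pB γ - z`. Cases of `WW`: `f = g = 0` (all flags, `y` and `z` are `0`): S0; `f = 1`, `g = 0`: S1 (1); `f = 0`, `g = 1`: S1 (2); one is `0` and the other `≥ 2`: S2; both `≥ 1`: S3. -/
def St_WP : Prop := ∀ k h N b c J γ ν lo hi c1 c2 pB qB pC qC f g : ℕ, 1 ≤ h → h + 1 ≤ N → 1000 * (N + 2) ^ 2 ≤ k →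
  Par k N b c J γ ν lo hi → c1 + c2 = c → 2 * c1 ≤ k → 2 * c2 ≤ k + 1 → 1 ≤ b + c →
  pB + qB ≤ f → f ≤ N → pC + qC ≤ g → g ≤ N →
  WW k N h f g (b + c) ≤ SS k (mu k h) b c J γ ν lo hi c1 c2 pB qB pC qC

/-! ### The final count -/

/-- (KC) PROOF. Let `Δ = {j | 2 ≤ a j ∨ (a j = 1 ∧ ∃ l, tp j l ∈ P)}`, `Δ₁ = {j ∈ Δ | a j = 1}`, `v i x` = number of the `j ∈ Δ₁` with `hit j i x`. For `i ∈ P`: every `j` with `hit j i x`, `1 ≤ a j` is in `Δ`, so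
`ff a i x = 2 u Δ i x - v i x`, and `ff a i x = 0` iff `u Δ i x = 0` (`v ≤ u`). So `ww (ff a i true) (ff a i false) ≥ - rk (u Δ i true) (u Δ i false) + v i true + v i false` (equality unless both `u` are `0`, then
`1 ≥ 0`). `∑ i ∈ P, (v i true + v i false) ≥ |Δ₁|` (every `j ∈ Δ₁` has a target in a pair of `P`), `∑ j, min (a j) 2 ≥ 2 |Δ| - |Δ₁|`, and `rk ≥ 0`. Together `Cf a P ≥ 2 |Δ| - ∑ i, rk (u Δ i true) (u Δ i false)`.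
In (1) and (2) `Δ` is not empty, in (1) it has a double pair: `Good`. -/
def St_KC : Prop := ∀ (δ t h : ℕ) (T : TSys δ t h), T.Good → ∀ (a : Fin δ → ℕ) (P : Finset (Fin t)),
  ((∃ i ∈ P, 1 ≤ T.ff a i true ∧ 1 ≤ T.ff a i false) → 3 ≤ T.Cf a P) ∧
  ((∃ i ∈ P, 1 ≤ T.ff a i true ∨ 1 ≤ T.ff a i false) → 2 ≤ T.Cf a P)

/-- (FA) Uses BKU.GB (only `0 < μ ≤ 1/8`; `100 (h + 2)^2 ≤ k`), KC, FL (2) (`ff ≤ 2 δ`). PROOF. `P = {i | 1 ≤ m i}`, `w = nz a ≤ δ`. `X j ≥ min (a j) 2 * k - 2 μ`; `Y i ≥ ww k - 10 (N + 2)^2` for `i ∈ P` (cases of `WW`; `ww` of the two `ff`),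
`Y i ≥ 0` for the others. (1) `3 ≤ Cf`: the left side is at least `Cf k - 2 μ δ - 10 t (N + 2)^2 - δ (δ - 1) ≥ 3 k - ... ≥ 2 k` (`δ δ, δ, t ≤ N`, `k ≥ 1000 (N + 2)^3`). (2) `i₀ ∈ P` with `ff true + ff false ≥ 2`. If some
`i ∈ P` has both `ff ≥ 1` use KC (1) and (1). Otherwise KC (2): `Cf ≥ 2`, and for all `i ∈ P` one `ff` is `0` and `Y i ≥ ww k - (1 + μ)` (cases; if `f ≥ 2`: `2 (N - h - f) - 1 ≥ 0` as `f ≤ 2 δ`), and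
`Y i₀ ≥ ww k + 2 (N - h - 2 δ) - 1`. So the left side is at least `Cf k - 2 μ δ - t (1 + μ) - δ δ + 2 (N - h - 2 δ) - 1 ≥ 2 k`, as `2 (N - h - 2 δ) - 1 = 4 t + 2 δ δ + 2 δ + 7`. -/
def St_FA : Prop := ∀ (δ t h N k : ℕ) (T : TSys δ t h) (a : Fin δ → ℕ) (m : Fin t → ℕ) (X : Fin δ → ℝ) (Y : Fin t → ℝ),
  T.Good → Cnt T N k a m X Y →
  (3 ≤ T.Cf a (univ.filter fun i => 1 ≤ m i) ∨ ∃ i, 1 ≤ m i ∧ 2 ≤ T.ff a i true + T.ff a i false) →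
  2 * (k : ℝ) - 2 * mu k h ≤ ∑ j, X j + ∑ i, Y i - (nz a : ℝ) * ((nz a : ℝ) - 1)

/-- (FB) Uses BKU.GB (only `0 < μ ≤ 1/8`). PROOF. `P = {i | 1 ≤ m i}`. All `ww` for `i ∈ P` are `1`, so `∑ j, min (a j) 2 + |P| ≤ 2`. `X j ≥ 0`, `Y i ≥ 0` always. Cases: (i) some `a j ≥ 2`: then all other `a j'` and all `m i` are
`0`, `nz a = 1`: `X j ≥ 2 k - 2 μ`. (ii) all `a j ≤ 1`, two are `1`: `P` is empty, `∑ a + ∑ m = 2`: contradiction. (iii) exactly one `a j = 1`: `|P| ≤ 1`; `P` empty: the sum is 1: contradiction; `P = {i}`: `X j ≥ k + 1 - μ`,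
`Y i ≥ k - 1 - μ` (`WW` with `ff true + ff false ≤ 1`), `nz a = 1`. (iv) `a = 0`: `nz a = 0`, all `ff` are `0`; `P = {i, i'}`: `Y ≥ k + 1 - μ` for both; `P = {i}`: `m i ≥ 3`, `Y i ≥ 2 k - 2 μ`; `P` empty: contradiction. -/
def St_FB : Prop := ∀ (δ t h N k : ℕ) (T : TSys δ t h) (a : Fin δ → ℕ) (m : Fin t → ℕ) (X : Fin δ → ℝ) (Y : Fin t → ℝ),
  Cnt T N k a m X Y → T.Cf a (univ.filter fun i => 1 ≤ m i) ≤ 2 → (∀ i, 1 ≤ m i → T.ff a i true + T.ff a i false ≤ 1) →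
  3 ≤ ∑ j, a j + ∑ i, m i →
  2 * (k : ℝ) - 2 * mu k h ≤ ∑ j, X j + ∑ i, Y i - (nz a : ℝ) * ((nz a : ℝ) - 1)

/-! ### Independent sets -/

/-- (IQ) PROOF. The numbers of the `q` with `s q = 2` is at most the number of the `q` with `s q = 0` (`φ` is injective on the first set with values in the second one), and
`∑ s q = #{s = 1} + 2 #{s = 2} ≤ #{s = 1} + #{s = 2} + #{s = 0}`. -/
def St_IQ : Prop := ∀ (Q : Type) [Fintype Q] (s : Q → ℕ) (φ : Q → Q), (∀ q, s q ≤ 2) → (∀ q, s q = 2 → s (φ q) = 0) →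
  (∀ q q', s q = 2 → s q' = 2 → φ q = φ q' → q = q') → ∑ q, s q ≤ Fintype.card Q

/-- (IG) Independent sets in the groups. PROOF. Unfold the adjacency. (1) two nonadjacent different vertices of `st k h` are the centre `0` and a leaf `l + 1`, `l < h`. (2) as in `Pool/Agent/BKU/IP.lean`: `B` is complete; two nonadjacent
vertices of `C` are the centre and a leaf, and every vertex `b` of `B` is adjacent to the centre (`b + N + 2 < k`) or to all leaves. (3) a vertex `b` (or `c`) of the target number `l` of `D_j` is adjacent to the centre of `D_j` if it is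
`< k / 2`, otherwise to the vertex `l + 1` of `D_j`. (4), (5) directly. -/
def St_IG : Prop := ∀ (δ t h k N : ℕ) (T : TSys δ t h) (I : Finset ((Fin δ × Fin k) ⊕ (Fin t × (Fin (k - 1) ⊕ Fin k)))),
  (∀ x ∈ I, ∀ y ∈ I, x ≠ y → ¬ (T.gT k N).Adj x y) →
  (∀ j, (sec (pL I) j).card ≤ 2 ∧ ((sec (pL I) j).card = 2 →
    ∃ l : Fin h, (∃ a ∈ sec (pL I) j, a.val = 0) ∧ ∃ a ∈ sec (pL I) j, a.val = l.val + 1)) ∧
  (∀ i, (pL (sec (pR I) i)).card ≤ 1 ∧ (pR (sec (pR I) i)).card ≤ 2 ∧ ((pR (sec (pR I) i)).card = 2 →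
    pL (sec (pR I) i) = ∅ ∧ ∃ c ∈ pR (sec (pR I) i), c.val = 0)) ∧
  (∀ j (l : Fin h), (∃ a ∈ sec (pL I) j, a.val = 0) → (∃ a ∈ sec (pL I) j, a.val = l.val + 1) →
    (T.ts j l = true → pL (sec (pR I) (T.tp j l)) = ∅) ∧ (T.ts j l = false → pR (sec (pR I) (T.tp j l)) = ∅)) ∧
  (∀ j j', j ≠ j' → (∃ a ∈ sec (pL I) j, a.val = 0) → (∃ a ∈ sec (pL I) j', a.val = 0) → ¬ T.sh j j') ∧
  ∀ j i, (∃ a ∈ sec (pL I) j, a.val = 0) → T.hit j i true → ¬ ∃ c ∈ pR (sec (pR I) i), c.val = 0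

/-- (IN) Uses BKU.JN (2), BKU.CP (3), IQ, IG. PROOF. `Q = Fin δ ⊕ (Fin t × Bool)`, `s` = the number of the vertices of `I` in the group (`|sec (pL I) j|`, `|pL (sec (pR I) i)|` for `(i, true)`, `|pR (sec (pR I) i)|` for `(i, false)`); the sum is `|I|`.
`φ (inl j) = inr (tp j l, ts j l)` for `s = 2`, `l` from IG (1); `φ (inr (i, false)) = inr (i, true)`; the rest arbitrary (`φ q = q`). `s (φ q) = 0`: IG (3), IG (2). Injective: two `inl` with the same image share a target: IG (4); `inl j` and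
`(i, false)`, `s = 2`, with the same image `(i, true)`: `hit j i true`, IG (5) and IG (2). The cardinality of `Q` is `δ + 2 t`. -/
def St_IN : Prop := ∀ (δ t h k N : ℕ) (T : TSys δ t h), Ind (T.gT k N) (δ + 2 * t)

end Pool.Agent.UBG
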