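import Pool.Agent.UBG.St

/-!
# Campaign UBG (MP_303581_co): target systems with one or two groups (helper2, statement `St_TA` of helper18)
-/

set_option autoImplicit false

open Finset

namespace Pool.Agent.UBG

open Pool.Agent.BKU Pool.Agent.TwoDens

/-- the pair of the target `l` of the group `j` -/
private def TA_p (h j l : ℕ) : ℕ := if j = 0 then l else if l = 0 then 0 else h - 1 + l

/-- the side -/
private def TA_s (j l : ℕ) : Bool := if j ≠ 0 ∧ l = 0 then false else true

/-- (TA) -/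
theorem thm_TA (hINC : St_INC) : St_TA := by
  intro δ t h hh hδ
  have hδ2 : δ ≤ 2 := by omega
  have hlt : ∀ (j : Fin δ) (l : Fin h), TA_p h j.val l.val < t := by
    intro j l
    have hj := j.isLt
    have hl := l.isLt
    unfold TA_p
    split_ifs <;> omega
  let T : TSys δ t h :=
    { tp := fun j l => ⟨TA_p h j.val l.val, hlt j l⟩
      ts := fun j l => TA_s j.val l.val
      inj := by
        intro j l l' he
        have he' : TA_p h j.val l.val = TA_p h j.val l'.val := congrArg Fin.val he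
        apply Fin.ext
        unfold TA_p at he'
        split_ifs at he' <;> omega }
  have htp : ∀ j l, (T.tp j l).val = TA_p h j.val l.val := fun _ _ => rfl
  have hts : ∀ j l, T.ts j l = TA_s j.val l.val := fun _ _ => rfl
  -- two groups have no common target, new pairs
  have key : ∀ j' j : Fin δ, j' < j → ∀ l' l : Fin h, T.tp j' l' = T.tp j l → l.val = 0 ∧ j.val ≠ 0 := by
    intro j' j hj l' l he
    have he' : TA_p h j'.val l'.val = TA_p h j.val l.val := congrArg Fin.val he
    have hj1 : j'.val < j.val := hj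
    have hj2 := j.isLt
    have hl' := l'.isLt
    unfold TA_p at he'
    split_ifs at he' <;> omega
  have hs0 : ∀ j' j : Fin δ, j' < j → ∀ l' : Fin h, T.ts j' l' = true := by
    intro j' j hj l'
    have hj1 : j'.val < j.val := hj
    have hj2 := j.isLt
    have h0 : j'.val = 0 := by omega
    rw [hts]
    unfold TA_s
    rw [if_neg]
    rintro ⟨h1, -⟩
    exact h1 h0
  have hs1 : ∀ (j : Fin δ) (l : Fin h), l.val = 0 → j.val ≠ 0 → T.ts j l = false := by
    intro j l h1 h2
    rw [hts]
    unfold TA_s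
    rw [if_pos ⟨h2, h1⟩]
  let τ : Fin δ → Fin h → ℕ := fun j l => if j.val ≠ 0 ∧ l.val = 0 then 1 else 0
  have hτ1 : ∀ j l, τ j l = 1 → j.val ≠ 0 ∧ l.val = 0 := by
    intro j l hτ
    by_contra hc
    have h1 : τ j l = 0 := if_neg hc
    omega
  have hτ0 : ∀ j l, τ j l = 0 → ¬ (j.val ≠ 0 ∧ l.val = 0) := by
    intro j l hτ hc
    have h1 : τ j l = 1 := if_pos hc
    omega
  refine ⟨T, hINC δ t h T (fun j => j.val) τ ?_ ?_ ?_ ?_ ?_⟩
  · rintro j l hτ j' hj x ⟨l', h1, -⟩
    obtain ⟨h2, h3⟩ := key j' j hj l' l h1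
    exact hτ0 j l hτ ⟨h3, h2⟩
  · rintro j l hτ j' hj ⟨l', -, h1⟩
    obtain ⟨h2, h3⟩ := hτ1 j l hτ
    rw [hs0 j' j hj l', hs1 j l h3 h2] at h1
    exact Bool.noConfusion h1
  · intro j
    have h1 : ∑ l, τ j l ≤ ∑ l : Fin h, if l = ⟨0, by omega⟩ then 1 else 0 := by
      refine sum_le_sum fun l _ => ?_
      by_cases hl : l.val = 0
      · rw [if_pos (Fin.ext hl)]
        show (if j.val ≠ 0 ∧ l.val = 0 then 1 else 0) ≤ 1
        split_ifs <;> omega
      · have h2 : τ j l = 0 := if_neg (fun hc => hl hc.2)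
        rw [h2]
        exact Nat.zero_le _
    rw [sum_ite_eq' univ] at h1
    simp only [mem_univ, if_true] at h1
    omega
  · rintro j' j hj ⟨i, x, ⟨l', h1, h2⟩, ⟨l, h3, h4⟩⟩
    exfalso
    obtain ⟨h5, h6⟩ := key j' j hj l' l (h1.trans h3.symm)
    rw [hs0 j' j hj l'] at h2
    rw [hs1 j l h5 h6] at h4
    rw [← h4] at h2
    exact Bool.noConfusion h2
  · intro j l l' hne hτ hτ'
    exfalso
    obtain ⟨-, h1⟩ := hτ1 j l hτ
    obtain ⟨-, h2⟩ := hτ1 j l' hτ'
    exact hne (Fin.ext (h1.trans h2.symm))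

end Pool.Agent.UBG
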