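import Pool.Agent.UBG.St

/-!
# Campaign UBG (MP_303581_co): explicit target system, `h ≥ 4` (adapted from helper2, Pool/Agent/UBX/TB.lean)
-/

set_option autoImplicit false

open Finset

namespace Pool.Agent.UBG

/-- the pairs, `q = h - 2` -/
private def TB_pr (q j l : ℕ) : ℕ :=
  if 2 ≤ l then 3 + q * j + (l - 2)
  else if l = 0 then (if j = 0 then 0 else 3 + q * (j - 1))
  else (if j = 0 then 1 else if j = 1 then 2 else 3 + q * (j - 2) + 1)

/-- the sides -/
private def TB_sd (j l : ℕ) : Bool :=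
  if 2 ≤ l then true
  else if l = 0 then (if j = 0 then true else false)
  else (if j ≤ 1 then true else false)

private theorem TB_m1 (q j : ℕ) (h : 1 ≤ j) : q * (j - 1) + q = q * j := by
  obtain ⟨i, rfl⟩ : ∃ i, j = i + 1 := ⟨j - 1, by omega⟩
  rw [Nat.add_sub_cancel]
  ring

private theorem TB_m2 (q j : ℕ) (h : 2 ≤ j) : q * (j - 2) + 2 * q = q * j := by
  obtain ⟨i, rfl⟩ : ∃ i, j = i + 2 := ⟨j - 2, by omega⟩
  rw [Nat.add_sub_cancel]
  ring

private theorem TB_m3 (q j' j : ℕ) (h : j' + 3 ≤ j) : q * j' + 3 * q ≤ q * j := by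
  have h1 := Nat.mul_le_mul_left q h
  have h2 : q * (j' + 3) = q * j' + 3 * q := by ring
  omega

/-- the coincidences -/
private theorem TB_key (q j' j l' l : ℕ) (hq : 2 ≤ q) (hj : j' < j) (hl : l < q + 2) (hl' : l' < q + 2)
    (h : TB_pr q j' l' = TB_pr q j l) :
    (l = 0 ∧ j' + 1 = j ∧ l' = 2) ∨ (l = 1 ∧ j' + 2 = j ∧ l' = 3) := by
  have a1 := TB_m1 q j (by omega)
  have a2 : 2 ≤ j → q * (j - 2) + 2 * q = q * j := TB_m2 q j
  have b1 : 1 ≤ j' → q * (j' - 1) + q = q * j' := TB_m1 q j'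
  have b2 : 2 ≤ j' → q * (j' - 2) + 2 * q = q * j' := TB_m2 q j'
  have c1 : j' + 1 = j → q * j' + q = q * j := by
    rintro rfl
    ring
  have c2 : j' + 2 = j → q * j' + 2 * q = q * j := by
    rintro rfl
    ring
  have c3 : j' + 3 ≤ j → q * j' + 3 * q ≤ q * j := TB_m3 q j' j
  have z1 : j' = 0 → q * j' = 0 := by
    rintro rfl
    ring
  unfold TB_pr at h
  generalize q * (j - 1) = A1 at *
  generalize q * (j - 2) = A2 at *
  generalize q * (j' - 1) = B1 at *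
  generalize q * (j' - 2) = B2 at *
  generalize q * j = A at *
  generalize q * j' = B at *
  have hd : j' + 1 = j ∨ j' + 2 = j ∨ j' + 3 ≤ j := by omega
  split_ifs at h <;> rcases hd with hd | hd | hd <;> omega

private theorem TB_lt (q δ t j l : ℕ) (ht : q * δ + 3 ≤ t) (hq : 2 ≤ q) (hj : j < δ) (hl : l < q + 2) :
    TB_pr q j l < t := by
  have h1 : q * j + q ≤ q * δ := by
    have h2 := Nat.mul_le_mul_left q (Nat.succ_le_of_lt hj)
    have h3 : q * (j + 1) = q * j + q := by ring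
    rw [← h3]
    exact h2
  have a1 : 1 ≤ j → q * (j - 1) + q = q * j := TB_m1 q j
  have a2 : 2 ≤ j → q * (j - 2) + 2 * q = q * j := TB_m2 q j
  unfold TB_pr
  generalize q * (j - 1) = A1 at *
  generalize q * (j - 2) = A2 at *
  generalize q * δ = D at *
  generalize q * j = A at *
  split_ifs <;> omega

private theorem TB_in (q j l l' : ℕ) (hq : 2 ≤ q) (hl : l < q + 2) (hl' : l' < q + 2)
    (he : TB_pr q j l = TB_pr q j l') : l = l' := by
  have a1 : 1 ≤ j → q * (j - 1) + q = q * j := TB_m1 q j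
  have a2 : 2 ≤ j → q * (j - 2) + 2 * q = q * j := TB_m2 q j
  unfold TB_pr at he
  generalize q * (j - 1) = A1 at *
  generalize q * (j - 2) = A2 at *
  generalize q * j = A at *
  split_ifs at he <;> omega

private theorem TB_ds (q j' j l' l : ℕ) (hq : 2 ≤ q) (hj : j' < j) (hl : l < q + 2) (hl' : l' < q + 2)
    (he : TB_pr q j' l' = TB_pr q j l) : TB_sd j' l' ≠ TB_sd j l := by
  rcases TB_key q j' j l' l hq hj hl hl' he with ⟨rfl, h2, rfl⟩ | ⟨rfl, h2, rfl⟩
  · have hj0 : j ≠ 0 := by omega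
    simp [TB_sd, hj0]
  · have hj0 : ¬ j ≤ 1 := by omega
    simp [TB_sd, hj0]

/-- (TB) -/
theorem thm_TB (hINC : St_INC) : St_TB := by
  intro δ t h _ hh ht
  obtain ⟨q, rfl⟩ : ∃ q, h = q + 2 := ⟨h - 2, by omega⟩
  have hq : 2 ≤ q := by omega
  rw [Nat.add_sub_cancel] at ht
  let T : TSys δ t (q + 2) :=
    { tp := fun j l => ⟨TB_pr q j.val l.val, TB_lt q δ t j.val l.val ht hq j.isLt l.isLt⟩
      ts := fun j l => TB_sd j.val l.val
      inj := fun j l l' he => Fin.ext (TB_in q j.val l.val l'.val hq l.isLt l'.isLt (congrArg Fin.val he)) }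
  have hT : ∀ (j' j : Fin δ) (l : Fin (q + 2)) (x : Bool), j' < j → T.hit j' (T.tp j l) x →
      ∃ l' : Fin (q + 2), TB_sd j'.val l'.val = x ∧ TB_pr q j'.val l'.val = TB_pr q j.val l.val ∧
        ((l.val = 0 ∧ j'.val + 1 = j.val ∧ l'.val = 2) ∨ (l.val = 1 ∧ j'.val + 2 = j.val ∧ l'.val = 3)) := by
    rintro j' j l x hj ⟨l', h1, h2⟩
    have h3 : TB_pr q j'.val l'.val = TB_pr q j.val l.val := congrArg Fin.val h1
    exact ⟨l', h2, h3, TB_key q j'.val j.val l'.val l.val hq hj l.isLt l'.isLt h3⟩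
  refine ⟨T, hINC δ t (q + 2) T (fun j => j.val)
    (fun j l => if (l.val = 0 ∧ 1 ≤ j.val) ∨ (l.val = 1 ∧ 2 ≤ j.val) then 1 else 0) ?_ ?_ ?_ ?_ ?_⟩
  · intro j l h0 j' hj x hx
    obtain ⟨l', _, _, h3⟩ := hT j' j l x hj hx
    have h4 : (l.val = 0 ∧ 1 ≤ j.val) ∨ (l.val = 1 ∧ 2 ≤ j.val) := by omega
    simp only [if_pos h4] at h0
    exact one_ne_zero h0
  · intro j l _ j' hj hx
    obtain ⟨l', h1, h2, _⟩ := hT j' j l _ hj hx
    exact TB_ds q j'.val j.val l'.val l.val hq hj l.isLt l'.isLt h2 h1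
  · intro j
    rw [Fin.sum_univ_succ, Fin.sum_univ_succ]
    have h1 : ∑ i : Fin q, (if ((i.succ.succ : Fin (q + 2)).val = 0 ∧ 1 ≤ j.val) ∨
        ((i.succ.succ : Fin (q + 2)).val = 1 ∧ 2 ≤ j.val) then 1 else 0) = 0 := by
      refine Finset.sum_eq_zero fun i _ => ?_
      rw [if_neg]
      simp only [Fin.val_succ]
      omega
    rw [h1]
    split_ifs <;> omega
  · rintro j' j hj ⟨i, x, ⟨l', h1, h2⟩, l, h3, h4⟩
    have h5 : TB_pr q j'.val l'.val = TB_pr q j.val l.val := congrArg Fin.val (h1.trans h3.symm)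
    exact absurd (h2.trans h4.symm) (TB_ds q j'.val j.val l'.val l.val hq hj l.isLt l'.isLt h5)
  · intro j l l' hne _ _ a b ha hb h1 h2
    obtain ⟨m1, _, _, k1⟩ := hT a j l _ ha h1
    obtain ⟨m2, _, _, k2⟩ := hT b j l' _ hb h2
    have h3 : l.val ≠ l'.val := fun h => hne (Fin.ext h)
    show a.val ≠ b.val
    omega

end Pool.Agent.UBG
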