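import Pool.Agent.UBG.St

/-!
# Campaign UBG (MP_303581_co), TC: target systems for h = 2 (helper30)
-/

set_option autoImplicit false

open Finset

namespace Pool.Agent.UBG

open Pool.Agent.BKU Pool.Agent.TwoDens

/-- the pair of the target number `l` of `D_j` -/
private def TC_p (j l : ℕ) : ℕ :=
  if l = 0 then (if j % 3 = 0 ∨ j = 1 then 0 else if j % 3 = 1 then 2 else 2 * (j / 3) + 1)
  else (if j % 3 = 0 then 2 * (j / 3) + 1 else 2 * (j / 3) + 2)

/-- `1` if the side is `true` -/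
private def TC_b (j l : ℕ) : ℕ :=
  if l = 0 then (if j = 1 ∨ j % 3 = 2 then 0 else 1) else (if j % 3 = 2 then 0 else 1)

private def TC_k (j : ℕ) : ℕ := if j % 3 = 0 then 0 else if j % 3 = 1 then 1 else j

private def TC_t (j l : ℕ) : ℕ :=
  if j = 0 then 0 else if j = 1 then (if l = 0 then 1 else 0) else if j % 3 = 2 then 1
  else if l = 0 then 2 else 0

private theorem TC_lt (δ t j l : ℕ) (h1 : 3 ≤ δ) (h : 2 * δ + 3 ≤ 3 * t) (hj : j < δ) :
    TC_p j l < t := by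
  unfold TC_p
  split_ifs <;> omega

private theorem TC_inj (j l l' : ℕ) (hl : l < 2) (hl' : l' < 2) (h : TC_p j l = TC_p j l') :
    l = l' := by
  unfold TC_p at h
  split_ifs at h <;> omega

private theorem TC_1 (j j' l l' : ℕ) (hl : l < 2) (h : TC_t j l = 0)
    (hj : j' < j) : TC_p j' l' ≠ TC_p j l := by
  unfold TC_t at h
  unfold TC_p
  split_ifs at h <;> split_ifs <;> omega

private theorem TC_2 (j j' l l' : ℕ) (hl : l < 2) (h : TC_t j l = 1)
    (hj : j' < j) (h1 : TC_p j' l' = TC_p j l) : TC_b j' l' ≠ TC_b j l := by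
  unfold TC_t at h
  unfold TC_p at h1
  unfold TC_b
  split_ifs at h <;> split_ifs at h1 <;> split_ifs <;> omega

private theorem TC_4 (j j' l l' : ℕ) (hl : l < 2) (hl' : l' < 2)
    (h1 : TC_p j' l' = TC_p j l) (h2 : TC_b j' l' = TC_b j l) : TC_k j' = TC_k j := by
  unfold TC_p at h1
  unfold TC_b at h2
  unfold TC_k
  split_ifs at h1 <;> split_ifs at h2 <;> split_ifs <;> omega

private theorem TC_j (j : ℕ) (h : TC_t j 0 = 1) (h' : TC_t j 1 = 1) : j % 3 = 2 := by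
  by_cases h0 : j = 0
  · rw [h0] at h
    exact absurd h (by decide)
  by_cases h1 : j = 1
  · rw [h1] at h'
    exact absurd h' (by decide)
  by_contra h3
  simp [TC_t, h0, h1, h3] at h

private theorem TC_e (j : ℕ) (hj : j % 3 = 2) : TC_p j 0 = 2 * (j / 3) + 1 ∧
    TC_p j 1 = 2 * (j / 3) + 2 ∧ TC_b j 0 = 0 ∧ TC_b j 1 = 0 := by
  have h0 : ¬ (j % 3 = 0 ∨ j = 1) := by omega
  have h1 : ¬ j % 3 = 1 := by omega
  have h2 : ¬ j % 3 = 0 := by omega
  refine ⟨?_, ?_, ?_, ?_⟩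
  · unfold TC_p
    rw [if_pos rfl, if_neg h0, if_neg h1]
  · unfold TC_p
    rw [if_neg one_ne_zero, if_neg h2]
  · unfold TC_b
    rw [if_pos rfl, if_pos (Or.inr hj)]
  · unfold TC_b
    rw [if_neg one_ne_zero, if_pos hj]

private theorem TC_s (j : ℕ) : TC_t j 0 + TC_t j 1 ≤ 2 := by
  by_cases h0 : j = 0
  · simp [TC_t, h0]
  by_cases h1 : j = 1
  · simp [TC_t, h1]
  by_cases h3 : j % 3 = 2
  · simp [TC_t, h0, h1, h3]
  · simp [TC_t, h0, h1, h3]

private theorem TC_5 (j a b la lb : ℕ) (hla : la < 2) (hlb : lb < 2) (h : TC_t j 0 = 1)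
    (h' : TC_t j 1 = 1) (ha : a < j) (hb : b < j) (h1 : TC_p a la = TC_p j 0)
    (h2 : TC_b a la ≠ TC_b j 0) (h3 : TC_p b lb = TC_p j 1) (h4 : TC_b b lb ≠ TC_b j 1) :
    TC_k a = 0 ∧ TC_k b = 1 := by
  have hj : j % 3 = 2 := TC_j j h h'
  obtain ⟨e1, e2, e3, e4⟩ := TC_e j hj
  rw [e1] at h1
  rw [e2] at h3
  rw [e3] at h2
  rw [e4] at h4
  constructor
  · unfold TC_p at h1
    unfold TC_b at h2
    unfold TC_k
    split_ifs at h1 <;> split_ifs at h2 <;> split_ifs <;> omega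
  · unfold TC_p at h3
    unfold TC_b at h4
    unfold TC_k
    split_ifs at h3 <;> split_ifs at h4 <;> split_ifs <;> omega

private theorem TC_b1 (j l : ℕ) : TC_b j l = 0 ∨ TC_b j l = 1 := by
  unfold TC_b
  split_ifs <;> omega

/-- the target system -/
private def TC_T (δ t : ℕ) (h1 : 3 ≤ δ) (h : 2 * δ + 3 ≤ 3 * t) : TSys δ t 2 where
  tp j l := ⟨TC_p j.val l.val, TC_lt δ t j.val l.val h1 h j.isLt⟩
  ts j l := decide (TC_b j.val l.val = 1)
  inj j l l' hl := Fin.ext (TC_inj j.val l.val l'.val l.isLt l'.isLt (congrArg Fin.val hl))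

/-- (TC) -/
theorem thm_TC : St_INC → St_TC := by
  intro hI δ t h1 h
  refine ⟨TC_T δ t h1 h, ?_⟩
  have hp : ∀ (j j' : Fin δ) (l l' : Fin 2), (TC_T δ t h1 h).tp j' l' = (TC_T δ t h1 h).tp j l →
      TC_p j'.val l'.val = TC_p j.val l.val := fun j j' l l' e => congrArg Fin.val e
  have hs : ∀ (j j' : Fin δ) (l l' : Fin 2), (TC_T δ t h1 h).ts j' l' = (TC_T δ t h1 h).ts j l →
      TC_b j'.val l'.val = TC_b j.val l.val := by
    intro j j' l l' e
    have e' : decide (TC_b j'.val l'.val = 1) = decide (TC_b j.val l.val = 1) := e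
    rw [decide_eq_decide] at e'
    have b1 := TC_b1 j.val l.val
    have b2 := TC_b1 j'.val l'.val
    omega
  have hn : ∀ (j j' : Fin δ) (l l' : Fin 2),
      (TC_T δ t h1 h).ts j' l' = !((TC_T δ t h1 h).ts j l) →
      TC_b j'.val l'.val ≠ TC_b j.val l.val := by
    intro j j' l l' e e2
    have e' : decide (TC_b j'.val l'.val = 1) = !decide (TC_b j.val l.val = 1) := e
    rw [e2] at e'
    revert e'
    cases decide (TC_b j.val l.val = 1) <;> simp
  refine hI δ t 2 (TC_T δ t h1 h) (fun j => TC_k j.val) (fun j l => TC_t j.val l.val)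
    ?_ ?_ ?_ ?_ ?_
  · rintro j l h0 j' hj x ⟨l', e1, -⟩
    exact TC_1 j.val j'.val l.val l'.val l.isLt h0 hj (hp j j' l l' e1)
  · rintro j l h0 j' hj ⟨l', e1, e2⟩
    exact TC_2 j.val j'.val l.val l'.val l.isLt h0 hj (hp j j' l l' e1)
      (hs j j' l l' e2)
  · intro j
    rw [Fin.sum_univ_two]
    exact TC_s j.val
  · rintro j' j hj ⟨i, x, ⟨l', e1, e2⟩, ⟨l, e3, e4⟩⟩
    exact TC_4 j.val j'.val l.val l'.val l.isLt l'.isLt (hp j j' l l' (e1.trans e3.symm))
      (hs j j' l l' (e2.trans e4.symm))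
  · rintro j l l' hne h0 h0' a b ha hb ⟨la, e1, e2⟩ ⟨lb, e3, e4⟩
    have p1 := hp j a l la e1
    have p2 := hn j a l la e2
    have p3 := hp j b l' lb e3
    have p4 := hn j b l' lb e4
    have hcase : (l = 0 ∧ l' = 1) ∨ (l = 1 ∧ l' = 0) := by
      have hl := l.isLt
      have hl' := l'.isLt
      have hv : l.val ≠ l'.val := fun e => hne (Fin.ext e)
      by_cases hl0 : l.val = 0
      · exact Or.inl ⟨Fin.ext hl0, Fin.ext (show l'.val = 1 by omega)⟩
      · exact Or.inr ⟨Fin.ext (show l.val = 1 by omega), Fin.ext (show l'.val = 0 by omega)⟩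
    rcases hcase with ⟨rfl, rfl⟩ | ⟨rfl, rfl⟩
    · have := TC_5 j.val a.val b.val la.val lb.val la.isLt lb.isLt h0 h0' ha hb p1 p2 p3 p4
      show TC_k a.val ≠ TC_k b.val
      omega
    · have := TC_5 j.val b.val a.val lb.val la.val lb.isLt la.isLt h0' h0 hb ha p3 p4 p1 p2
      show TC_k a.val ≠ TC_k b.val
      omega

end Pool.Agent.UBG
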