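import Pool.Agent.UBG.St

/-!
# UBG.TD: target systems for `h = 3` (MP_303581_co)
-/

set_option autoImplicit false

open Finset

namespace Pool.Agent.UBG

open Pool.Agent.BKU

private def TD_p (j l : ℕ) : ℕ :=
  if l = 0 then
    (if j ≤ 1 then 0 else if j ≤ 3 then j - 1 else if j = 4 then 5 else
      if j % 3 = 2 then 0 else if j % 3 = 0 then 4 * (j / 3) - 1 else 4 * (j / 3) + 1)
  else if l = 1 then
    (if j = 0 then 1 else if j = 1 then 3 else if j ≤ 3 then j + 1 else if j = 4 then 6 else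
      if j % 3 = 2 then 4 * (j / 3) + 4 else if j % 3 = 0 then 4 * (j / 3) else 4 * (j / 3) + 2)
  else
    (if j = 0 then 2 else if j ≤ 4 then j + 3 else
      if j % 3 = 2 then 4 * (j / 3) + 5 else if j % 3 = 0 then 4 * (j / 3) + 2 else 4 * (j / 3) + 3)

/-- `1` for `-` -/
private def TD_s (j l : ℕ) : ℕ :=
  if j = 0 ∨ (j = 1 ∧ 1 ≤ l) ∨ 2 ≤ l ∨ (5 ≤ j ∧ j % 3 = 2) then 0 else 1

private def TD_t (j l : ℕ) : ℕ :=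
  if 5 ≤ j ∧ j % 3 = 2 ∧ l = 0 then 2 else TD_s j l

private def TD_k (j : ℕ) : ℕ := if 5 ≤ j ∧ j % 3 = 2 then 0 else j

private theorem TD_cases (j : ℕ) :
    (j = 0 ∧ TD_p j 0 = 0 ∧ TD_p j 1 = 1 ∧ TD_p j 2 = 2 ∧ TD_s j 0 = 0 ∧ TD_s j 1 = 0 ∧ TD_s j 2 = 0 ∧
      TD_t j 0 = 0 ∧ TD_t j 1 = 0 ∧ TD_t j 2 = 0 ∧ TD_k j = 0) ∨
    (j = 1 ∧ TD_p j 0 = 0 ∧ TD_p j 1 = 3 ∧ TD_p j 2 = 4 ∧ TD_s j 0 = 1 ∧ TD_s j 1 = 0 ∧ TD_s j 2 = 0 ∧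
      TD_t j 0 = 1 ∧ TD_t j 1 = 0 ∧ TD_t j 2 = 0 ∧ TD_k j = 1) ∨
    (j = 2 ∧ TD_p j 0 = 1 ∧ TD_p j 1 = 3 ∧ TD_p j 2 = 5 ∧ TD_s j 0 = 1 ∧ TD_s j 1 = 1 ∧ TD_s j 2 = 0 ∧
      TD_t j 0 = 1 ∧ TD_t j 1 = 1 ∧ TD_t j 2 = 0 ∧ TD_k j = 2) ∨
    (j = 3 ∧ TD_p j 0 = 2 ∧ TD_p j 1 = 4 ∧ TD_p j 2 = 6 ∧ TD_s j 0 = 1 ∧ TD_s j 1 = 1 ∧ TD_s j 2 = 0 ∧
      TD_t j 0 = 1 ∧ TD_t j 1 = 1 ∧ TD_t j 2 = 0 ∧ TD_k j = 3) ∨
    (j = 4 ∧ TD_p j 0 = 5 ∧ TD_p j 1 = 6 ∧ TD_p j 2 = 7 ∧ TD_s j 0 = 1 ∧ TD_s j 1 = 1 ∧ TD_s j 2 = 0 ∧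
      TD_t j 0 = 1 ∧ TD_t j 1 = 1 ∧ TD_t j 2 = 0 ∧ TD_k j = 4) ∨
    (∃ i, j = 3 * i + 5 ∧ TD_p j 0 = 0 ∧ TD_p j 1 = 4 * i + 8 ∧ TD_p j 2 = 4 * i + 9 ∧
      TD_s j 0 = 0 ∧ TD_s j 1 = 0 ∧ TD_s j 2 = 0 ∧
      TD_t j 0 = 2 ∧ TD_t j 1 = 0 ∧ TD_t j 2 = 0 ∧ TD_k j = 0) ∨
    (∃ i, j = 3 * i + 6 ∧ TD_p j 0 = 4 * i + 7 ∧ TD_p j 1 = 4 * i + 8 ∧ TD_p j 2 = 4 * i + 10 ∧
      TD_s j 0 = 1 ∧ TD_s j 1 = 1 ∧ TD_s j 2 = 0 ∧
      TD_t j 0 = 1 ∧ TD_t j 1 = 1 ∧ TD_t j 2 = 0 ∧ TD_k j = j) ∨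
    (∃ i, j = 3 * i + 7 ∧ TD_p j 0 = 4 * i + 9 ∧ TD_p j 1 = 4 * i + 10 ∧ TD_p j 2 = 4 * i + 11 ∧
      TD_s j 0 = 1 ∧ TD_s j 1 = 1 ∧ TD_s j 2 = 0 ∧
      TD_t j 0 = 1 ∧ TD_t j 1 = 1 ∧ TD_t j 2 = 0 ∧ TD_k j = j) := by
  rcases Nat.lt_or_ge j 5 with h | h
  · interval_cases j <;> simp [TD_p, TD_s, TD_t, TD_k]
  · obtain ⟨i, hi⟩ : ∃ i, j = 3 * i + 5 ∨ j = 3 * i + 6 ∨ j = 3 * i + 7 := ⟨(j - 5) / 3, by omega⟩
    rcases hi with hi | hi | hi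
    · have a1 : ¬ j ≤ 1 := by omega
      have a2 : ¬ j ≤ 3 := by omega
      have a3 : ¬ j ≤ 4 := by omega
      have a4 : j ≠ 4 := by omega
      have a5 : j ≠ 0 := by omega
      have a6 : j ≠ 1 := by omega
      have a7 : j % 3 = 2 := by omega
      have a8 : 4 * (j / 3) = 4 * i + 4 := by omega
      refine Or.inr (Or.inr (Or.inr (Or.inr (Or.inr (Or.inl ⟨i, hi, ?_⟩)))))
      simp [TD_p, TD_s, TD_t, TD_k, a1, a2, a3, a4, a5, a6, a7, a8, h]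
    · have a1 : ¬ j ≤ 1 := by omega
      have a2 : ¬ j ≤ 3 := by omega
      have a3 : ¬ j ≤ 4 := by omega
      have a4 : j ≠ 4 := by omega
      have a5 : j ≠ 0 := by omega
      have a6 : j ≠ 1 := by omega
      have a7 : j % 3 = 0 := by omega
      have a8 : 4 * (j / 3) = 4 * i + 8 := by omega
      refine Or.inr (Or.inr (Or.inr (Or.inr (Or.inr (Or.inr (Or.inl ⟨i, hi, ?_⟩))))))
      simp [TD_p, TD_s, TD_t, TD_k, a1, a2, a3, a4, a5, a6, a7, a8, h]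
    · have a1 : ¬ j ≤ 1 := by omega
      have a2 : ¬ j ≤ 3 := by omega
      have a3 : ¬ j ≤ 4 := by omega
      have a4 : j ≠ 4 := by omega
      have a5 : j ≠ 0 := by omega
      have a6 : j ≠ 1 := by omega
      have a7 : j % 3 = 1 := by omega
      have a8 : 4 * (j / 3) = 4 * i + 8 := by omega
      refine Or.inr (Or.inr (Or.inr (Or.inr (Or.inr (Or.inr (Or.inr ⟨i, hi, ?_⟩))))))
      simp [TD_p, TD_s, TD_t, TD_k, a1, a2, a3, a4, a5, a6, a7, a8, h]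

private theorem TD_inj (j l l' : ℕ) (hl : l < 3) (hl' : l' < 3) (h : TD_p j l = TD_p j l') : l = l' := by
  rcases TD_cases j with c | c | c | c | c | ⟨i, c⟩ | ⟨i, c⟩ | ⟨i, c⟩ <;> interval_cases l <;> interval_cases l' <;>
    omega

private theorem TD_bd (δ t j l : ℕ) (h3 : 3 ≤ δ) (h4 : 4 * δ + 3 ≤ 3 * t) (h5 : δ + 3 ≤ t)
    (h6 : ¬ (6 ≤ δ ∧ 3 ∣ δ ∧ 3 * t = 4 * δ + 3)) (hj : j < δ) (hl : l < 3) : TD_p j l < t := by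
  rcases TD_cases j with c | c | c | c | c | ⟨i, c⟩ | ⟨i, c⟩ | ⟨i, c⟩ <;> interval_cases l <;> omega

private theorem TD_N (j j' l l' : ℕ) (hl : l < 3) (hl' : l' < 3) (hj : j' < j) (ht : TD_t j l = 0) :
    TD_p j' l' ≠ TD_p j l := by
  intro h
  rcases TD_cases j with c | c | c | c | c | ⟨i, c⟩ | ⟨i, c⟩ | ⟨i, c⟩ <;>
    rcases TD_cases j' with d | d | d | d | d | ⟨i', d⟩ | ⟨i', d⟩ | ⟨i', d⟩ <;>
    interval_cases l <;> interval_cases l' <;> omega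

private theorem TD_O (j j' l l' : ℕ) (hl : l < 3) (hl' : l' < 3) (hj : j' < j) (ht : TD_t j l = 1)
    (h : TD_p j' l' = TD_p j l) : TD_s j l = 1 ∧ TD_s j' l' = 0 ∧
      ((2 ≤ j ∧ j ≤ 3 → j' = l) ∧ (4 ≤ j → j' = j - 2 + l)) ∧ 1 ≤ j ∧ l < 2 ∧ (j = 1 → l = 0) ∧
      (5 ≤ j → j % 3 ≠ 2) := by
  rcases TD_cases j with c | c | c | c | c | ⟨i, c⟩ | ⟨i, c⟩ | ⟨i, c⟩ <;>
    rcases TD_cases j' with d | d | d | d | d | ⟨i', d⟩ | ⟨i', d⟩ | ⟨i', d⟩ <;>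
    interval_cases l <;> interval_cases l' <;> omega

private theorem TD_S (j j' l l' : ℕ) (hl : l < 3) (hl' : l' < 3) (hj : j' < j)
    (h : TD_p j' l' = TD_p j l) (hs : TD_s j' l' = TD_s j l) : TD_k j' = TD_k j := by
  rcases TD_cases j with c | c | c | c | c | ⟨i, c⟩ | ⟨i, c⟩ | ⟨i, c⟩ <;>
    rcases TD_cases j' with d | d | d | d | d | ⟨i', d⟩ | ⟨i', d⟩ | ⟨i', d⟩ <;>
    interval_cases l <;> interval_cases l' <;> omega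

private theorem TD_sum (j : ℕ) : TD_t j 0 + TD_t j 1 + TD_t j 2 ≤ 2 := by
  rcases TD_cases j with c | c | c | c | c | ⟨i, c⟩ | ⟨i, c⟩ | ⟨i, c⟩ <;> omega

private theorem TD_s01 (j l : ℕ) : TD_s j l = 0 ∨ TD_s j l = 1 := by
  unfold TD_s; split_ifs <;> simp

theorem thm_TD : St_INC → St_TD := by
  intro hI δ t h3 h4 h5 h6
  let T : TSys δ t 3 :=
    { tp := fun j l => ⟨TD_p j.val l.val, TD_bd δ t j.val l.val h3 h4 h5 h6 j.isLt l.isLt⟩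
      ts := fun j l => decide (TD_s j.val l.val = 0)
      inj := by
        intro j l l' h
        apply Fin.ext
        exact TD_inj j.val l.val l'.val l.isLt l'.isLt (congrArg Fin.val h) }
  have hhit : ∀ (j' j : Fin δ) (l : Fin 3) (x : Bool), T.hit j' (T.tp j l) x →
      ∃ l' : Fin 3, TD_p j'.val l'.val = TD_p j.val l.val ∧ decide (TD_s j'.val l'.val = 0) = x := by
    rintro j' j l x ⟨l', e1, e2⟩
    exact ⟨l', congrArg Fin.val e1, e2⟩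
  refine ⟨T, hI δ t 3 T (fun j => TD_k j.val) (fun j l => TD_t j.val l.val) ?_ ?_ ?_ ?_ ?_⟩
  · intro j l ht j' hj x hh
    obtain ⟨l', e1, -⟩ := hhit j' j l x hh
    exact TD_N j.val j'.val l.val l'.val l.isLt l'.isLt hj ht e1
  · intro j l ht j' hj hh
    obtain ⟨l', e1, e2⟩ := hhit j' j l _ hh
    obtain ⟨f1, f2, -⟩ := TD_O j.val j'.val l.val l'.val l.isLt l'.isLt hj ht e1
    have e3 : decide (TD_s j'.val l'.val = 0) = decide (TD_s j.val l.val = 0) := e2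
    rw [f1, f2] at e3
    simp at e3
  · intro j
    rw [Fin.sum_univ_three]
    exact TD_sum j.val
  · rintro j' j hj ⟨i, x, ⟨l', e1, e2⟩, ⟨l, g1, g2⟩⟩
    have q1 : TD_p j'.val l'.val = TD_p j.val l.val := congrArg Fin.val (e1.trans g1.symm)
    have q2 : decide (TD_s j'.val l'.val = 0) = decide (TD_s j.val l.val = 0) := e2.trans g2.symm
    refine TD_S j.val j'.val l.val l'.val l.isLt l'.isLt hj q1 ?_
    rcases TD_s01 j'.val l'.val with r | r <;> rcases TD_s01 j.val l.val with r' | r' <;>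
      rw [r, r'] at q2 ⊢ <;> simp at q2
  · intro j l l' hll ht ht' a b ha hb hha hhb
    obtain ⟨la, e1, -⟩ := hhit a j l _ hha
    obtain ⟨lb, g1, -⟩ := hhit b j l' _ hhb
    obtain ⟨-, -, ⟨p1, p2⟩, p3, p4, p5, p6⟩ := TD_O j.val a.val l.val la.val l.isLt la.isLt ha ht e1
    obtain ⟨-, -, ⟨q1, q2⟩, q3, q4, q5, q6⟩ := TD_O j.val b.val l'.val lb.val l'.isLt lb.isLt hb ht' g1
    have hne : l.val ≠ l'.val := fun h => hll (Fin.ext h)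
    show TD_k a.val ≠ TD_k b.val
    rcases Nat.lt_or_ge j.val 4 with h7 | h7
    · have : (a.val = 0 ∧ b.val = 1) ∨ (a.val = 1 ∧ b.val = 0) := by omega
      rcases this with ⟨r1, r2⟩ | ⟨r1, r2⟩ <;> rw [r1, r2] <;> simp [TD_k]
    · have r1 := p2 h7
      have r2 := q2 h7
      unfold TD_k
      split_ifs <;> omega

end Pool.Agent.UBG
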