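import Pool.Agent.UBG.St

/-!
# Campaign UBG (MP_303581_co), module WP: the bound `WW` for the excess of a pair
-/

set_option autoImplicit false

namespace Pool.Agent.UBG

open Pool.Agent.BKU Pool.Agent.TwoDens

private theorem WP_a {p q f x y : ℕ} (h : p + q ≤ f) : p * x + q * y ≤ f * (x + y) := by
  have h1 : p * x ≤ f * x := Nat.mul_le_mul_right x (by omega)
  have h2 : q * y ≤ f * y := Nat.mul_le_mul_right y (by omega)
  calc p * x + q * y ≤ f * x + f * y := Nat.add_le_add h1 h2
    _ = f * (x + y) := (Nat.mul_add f x y).symm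

private theorem WP_b {p q f x y m : ℕ} (h : p + q ≤ f) (hx : 2 * x ≤ m) (hy : 2 * y ≤ m) :
    2 * (p * x + q * y) ≤ f * m := by
  have h1 : p * (2 * x) ≤ p * m := Nat.mul_le_mul_left p hx
  have h2 : q * (2 * y) ≤ q * m := Nat.mul_le_mul_left q hy
  have h3 : (p + q) * m ≤ f * m := Nat.mul_le_mul_right m h
  calc 2 * (p * x + q * y) = p * (2 * x) + q * (2 * y) := by ring
    _ ≤ p * m + q * m := Nat.add_le_add h1 h2
    _ = (p + q) * m := by ring
    _ ≤ f * m := h3

theorem thm_WP : St_S0 → St_S1 → St_S2 → St_S3 → St_WP := by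
  intro S0 S1 S2 S3 k h N b c J γ ν lo hi c1 c2 pB qB pC qC f g hh hN hk hP hc h1 h2 hbc hf hfN
    hg hgN
  have hlh : lo + hi = b := hP.lh
  -- the bounds for `y` and `z`
  have y1 : 2 * ((pB : ℝ) * lo + qB * hi) ≤ 2 * f * b := by
    have h3 := WP_a (x := lo) (y := hi) hf
    rw [hlh] at h3
    have h4 : ((pB : ℝ) * lo + qB * hi) ≤ f * b := by exact_mod_cast h3
    linarith
  have y2 : 2 * ((pB : ℝ) * lo + qB * hi) ≤ f * k := by
    exact_mod_cast WP_b hf hP.lo2 hP.hi2
  have w1 : 2 * (pB : ℝ) * γ ≤ 2 * f * γ := by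
    have h3 : pB * γ ≤ f * γ := Nat.mul_le_mul_right γ (by omega)
    have h4 : (pB : ℝ) * γ ≤ f * γ := by exact_mod_cast h3
    linarith
  have z1 : 2 * ((pC : ℝ) * c1 + qC * c2) ≤ 2 * g * c := by
    have h3 := WP_a (x := c1) (y := c2) hg
    rw [hc] at h3
    have h4 : ((pC : ℝ) * c1 + qC * c2) ≤ g * c := by exact_mod_cast h3
    linarith
  have z2 : 2 * ((pC : ℝ) * c1 + qC * c2) ≤ g * ((k : ℝ) + 1) := by
    exact_mod_cast WP_b (m := k + 1) hg (by omega) h2
  unfold WW SS
  rcases Nat.eq_zero_or_pos f with f0 | f0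
  · subst f0
    have e1 : pB = 0 := by omega
    have e2 : qB = 0 := by omega
    subst e1 e2
    rcases Nat.eq_zero_or_pos g with g0 | g0
    · subst g0
      have e3 : pC = 0 := by omega
      have e4 : qC = 0 := by omega
      subst e3 e4
      rw [if_pos ⟨rfl, rfl⟩]
      obtain ⟨t1, t2, -⟩ := S0 k h N b c J γ ν lo hi hh hN hk hP
      split_ifs with h5
      · have := t1 hbc
        push_cast
        linarith
      · have := t2 (by omega)
        push_cast
        linarith
    · rw [if_neg (by omega)]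
      by_cases g1 : g = 1
      · subst g1
        rw [if_pos (by norm_num)]
        have t := (S1 k h N b c J γ ν lo hi hh hN hk hP hbc).2
          (2 * ((pC : ℝ) * c1 + qC * c2)) (by push_cast at z1; linarith) (by push_cast at z2; linarith)
        push_cast
        linarith
      · rw [if_neg (by omega), if_pos (Or.inl rfl)]
        have t := (S2 k h N b c J γ ν lo hi g hh hN hk hP hbc (by omega) hgN).2
          (2 * ((pC : ℝ) * c1 + qC * c2)) z1 z2
        push_cast
        linarith
  · rw [if_neg (by omega)]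
    rcases Nat.eq_zero_or_pos g with g0 | g0
    · subst g0
      have e3 : pC = 0 := by omega
      have e4 : qC = 0 := by omega
      subst e3 e4
      by_cases f1 : f = 1
      · subst f1
        rw [if_pos (by norm_num)]
        have t := (S1 k h N b c J γ ν lo hi hh hN hk hP hbc).1
          (2 * ((pB : ℝ) * lo + qB * hi)) (by push_cast at y1; linarith) (by push_cast at y2; linarith)
        push_cast at w1 ⊢
        linarith
      · rw [if_neg (by omega), if_pos (Or.inr rfl)]
        have t := (S2 k h N b c J γ ν lo hi f hh hN hk hP hbc (by omega) hfN).1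
          (2 * ((pB : ℝ) * lo + qB * hi)) y1 y2
        push_cast at w1 ⊢
        linarith
    · rw [if_neg (by omega), if_neg (by omega)]
      have t := S3 k h N b c J γ ν lo hi f g hh hN hk hP hbc f0 hfN g0 hgN
        (2 * ((pB : ℝ) * lo + qB * hi)) (2 * ((pC : ℝ) * c1 + qC * c2)) y1 y2 z1 z2
      linarith

end Pool.Agent.UBG
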